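import Pool.Agent.P.MP_3bd355_an.T.St

open Set Filter Metric Complex InnerProductSpace
open scoped Topology ComplexConjugate Real

namespace Pool.Agent.P.MP_3bd355_an

namespace TAsmP

theorem near {G : ℂ → ℂ} {x c ε : ℝ} (h : RA G x c) (hε : 0 < ε) :
    ∀ᶠ η : ℂ in 𝓝[upH] (x : ℂ), ‖G η - c‖ < ε := by
  simpa only [dist_eq_norm] using Metric.tendsto_nhds.1 h.tendsto ε hε

theorem nearR {l : Filter ℂ} {u : ℂ → ℝ} {a ε : ℝ} (h : Tendsto u l (𝓝 a)) (hε : 0 < ε) :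
    ∀ᶠ η : ℂ in l, |u η - a| < ε := by
  simpa only [Real.dist_eq] using Metric.tendsto_nhds.1 h ε hε

theorem big {G : ℂ → ℂ} {y c ε : ℝ} (hc : c < 0) (h : RA (fun η => (η - y) ^ 2 * G η) y c)
    (hε : 0 < ε) : ∀ᶠ η : ℂ in 𝓝[upH] (y : ℂ), ε⁻¹ < ‖G η‖ := by
  have h1 : Tendsto (fun η : ℂ => ‖(η - y) ^ 2‖) (𝓝[upH] (y : ℂ)) (𝓝 0) := by
    have : ContinuousAt (fun η : ℂ => ‖(η - y) ^ 2‖) y := by fun_prop
    simpa using this.tendsto.mono_left (nhdsWithin_le_nhds (s := upH))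
  have h2 : -c / 2 < ‖(c : ℂ)‖ := by
    rw [norm_real, Real.norm_eq_abs, abs_of_neg hc]; linarith
  have h3 : 0 < ε * (-c / 2) := mul_pos hε (by linarith)
  filter_upwards [h.tendsto.norm.eventually (lt_mem_nhds h2), h1.eventually (gt_mem_nhds h3)]
    with η a b
  by_contra hn
  rw [norm_mul] at a
  have h4 : ‖(η - y) ^ 2‖ * ‖G η‖ ≤ ε * (-c / 2) * ε⁻¹ :=
    mul_le_mul b.le (not_lt.1 hn) (norm_nonneg _) h3.le
  have h5 : ε * (-c / 2) * ε⁻¹ = -c / 2 := by field_simp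
  linarith

theorem acc {W : Set ℂ} {f G : ℂ → ℂ} {x c : ℝ} (h : RA (fun η => f (G η)) x c) (hE : Esc W G x)
    {C : Set ℂ} (hC : IsCompact C) (hs : C ⊆ W) : (c : ℂ) ∈ closure (f '' (W \ C)) := by
  have := neBot_upH x
  exact mem_closure_of_tendsto h.tendsto ((hE C hC hs).mono fun η a => ⟨G η, a, rfl⟩)

variable {r A B : ℝ} {z₁ : ℂ} {L : Set ℂ} {v ω : ℂ → ℝ} {φ F : ℂ → ℂ} {h s0 s1 y : ℝ} {Fb : ℝ → ℂ}
  {f : ℂ → ℂ} {e : Fin 5 → ℝ}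

theorem cl (hP : T_PULL) (T : TF r A B z₁ L v ω φ F h s0 s1 y Fb) (R : Rng r f F s0 s1 y e)
    {u : ℂ → ℝ} {a b : ℝ}
    (hA : ∀ x : ℝ, Tendsto (fun η => u (Ea η)) (𝓝[upH] (x : ℂ)) (𝓝 a))
    (hB : s1 = s0 + 2 * π → ∀ x : ℝ, Tendsto (fun η => u (Eb r η)) (𝓝[upH] (x : ℂ)) (𝓝 b))
    (hE : ∀ x ∈ Eo s0 s1, Tendsto (fun η => u (F η)) (𝓝[upH] (x : ℂ)) (𝓝 b))
    (hZ : ∀ x ∈ Zo s0 s1, Tendsto (fun η => u (F η)) (𝓝[upH] (x : ℂ)) (𝓝 0)) :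
    CL (main r L) f e u a b := by
  intro p hp ε hε
  refine hP r A B z₁ L v ω φ F h s0 s1 y Fb _ T (fun x => ?_) (fun hs x => ?_) (fun x hx => ?_) p hp
  · obtain ⟨c, hc, h1⟩ := R.al x
    filter_upwards [near h1 hε, nearR (hA x) hε] with η i j
    exact Or.inl ⟨⟨c, hc, i⟩, j⟩
  · obtain ⟨c, hc, h1⟩ := R.be hs x
    filter_upwards [near h1 hε, nearR (hB hs x) hε] with η i j
    exact Or.inr (Or.inl ⟨⟨c, hc, i⟩, j⟩)
  have hz : ∀ x ∈ Zo s0 s1, ∀ᶠ η : ℂ in 𝓝[upH] (x : ℂ),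
      ((∃ s ≤ e 0, ‖f (F η) - (s : ℝ)‖ < ε) ∨ ε⁻¹ < ‖f (F η)‖) ∧ |u (F η)| < ε := by
    intro x hx
    refine Eventually.and ?_ (by simpa using nearR (hZ x hx) hε)
    by_cases hk : ∃ k : ℤ, x = y + 2 * π * k
    · obtain ⟨k, rfl⟩ := hk
      obtain ⟨c, hc, h1⟩ := R.tip
      exact (T.fr.unif.shift_ev (P := fun z => ε⁻¹ < ‖f z‖) k (big hc h1 hε)).mono
        fun _ i => Or.inr i
    · obtain ⟨c, hc, h1⟩ := R.ze x hx fun k hx => hk ⟨k, hx⟩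
      exact (near h1 hε).mono fun _ i => Or.inl ⟨c, hc, i⟩
  rcases T.fr.pic.le.eq_or_lt with hs | hs
  · exact (hz x (Or.inl hs)).mono fun _ i => Or.inr (Or.inr (Or.inl i))
  obtain ⟨e1, e2, e3⟩ := R.en hs
  rcases le_or_gt x s1 with h1 | h1
  · rcases Icc_cases T.fr.pic.le ⟨hx.1, h1⟩ with h2 | ⟨-, rfl | rfl⟩
    · exact (hz x h2).mono fun _ i => Or.inr (Or.inr (Or.inl i))
    · exact (near e2 hε).mono fun _ i => Or.inr (Or.inr (Or.inr ⟨e1, i⟩))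
    · exact (near e3 hε).mono fun _ i => Or.inr (Or.inr (Or.inr ⟨e1, i⟩))
  rcases hx.2.eq_or_lt with h2 | h2
  · have h3 : x = s0 + 2 * π * (1 : ℤ) := by rw [h2]; simp
    rw [h3]
    exact (T.fr.unif.shift_ev (P := fun z => ‖f z - e 0‖ < ε) 1 (near e2 hε)).mono
      fun _ i => Or.inr (Or.inr (Or.inr ⟨e1, i⟩))
  · have h3 : x ∈ Eo s0 s1 := Ioo_sub_Eo ⟨h1, h2⟩
    obtain ⟨c, hc, h4⟩ := R.ex x h3
    filter_upwards [near h4 hε, nearR (hE x h3) hε] with η i j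
    exact Or.inr (Or.inl ⟨⟨c, hc, i⟩, j⟩)

end TAsmP

open TAsmP in
theorem t_asm (h : T_PULL) : T_ASM := by
  intro r A B z₁ L v ω φ F h' s0 s1 y Fb f e T R
  have n1 : ∀ x : ℝ, ‖Ea x‖ = 1 := fun x => by rw [norm_Ea]; simp
  refine ⟨fun s hs C hC hW => ?_, fun a b u hu => ?_, fun g hg => ?_⟩
  · have e1 : ((s.re : ℝ) : ℂ) = s := Complex.ext (by simp) (by simpa using hs.1.symm)
    rw [← e1] at hs ⊢
    obtain ⟨x, h1 | ⟨h2, h1⟩ | h1⟩ := R.on s.re hs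
    · exact acc h1 (T.escA x) hC hW
    · exact acc h1 (T.escB h2 x) hC hW
    · exact acc h1 (T.escF x) hC hW
  · refine cl h T R (fun x => ?_) (fun hs x => ?_) (fun x hx => ?_) fun x hx => ?_
    · exact (hu.atA _ (n1 x) fun hp => (T.L1 _ hp).ne (n1 x)).comp (T.tA x)
    · exact (hu.atB _ (T.exB hs x)).comp (T.tB hs x)
    · obtain ⟨p, hp, h1⟩ := T.fr.pic.toEx x hx
      exact (hu.atB p hp).comp
        (tendsto_nhdsWithin_iff.2 ⟨h1, (T.fr.unif.ev_main x).mono fun _ i => i.2⟩)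
    · exact T.fr.pic.uz a b u (Or.inr T.L1) hu x hx
  · have hF : ∀ x : ℝ, Tendsto (fun η => g (F η)) (𝓝[upH] (x : ℂ)) (𝓝 0) := fun x =>
      (hg _ (T.bd.mem T.fr.unif x).1).comp (T.tF x)
    refine cl h T R (fun x => ?_) (fun hs x => ?_) (fun x _ => hF x) fun x _ => hF x
    · refine (hg _ ?_).comp (T.tA x)
      rw [T.cont.isOpen_main.frontier_eq]
      exact ⟨T.cont.outer_closure T.L1 (n1 x), fun hp => (main_sub r L hp).1.2.ne (n1 x)⟩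
    · refine (hg _ ?_).comp (T.tB hs x)
      rw [T.cont.isOpen_main.frontier_eq]
      exact ⟨(T.exB hs x).2.2, fun hp => (main_sub r L hp).1.1.ne' (T.exB hs x).1⟩

end Pool.Agent.P.MP_3bd355_an
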