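import Pool.Agent.P.MP_3bd355_an.T.St

/-! Boundary values of the uniformising function on the two circles. -/

open Set Filter Metric Complex InnerProductSpace
open scoped Topology ComplexConjugate Real

namespace Pool.Agent.P.MP_3bd355_an

namespace TBdaP

variable {u w : ℂ → ℝ} {x a b : ℝ} {Φ Ψ : ℂ → ℂ}

theorem ref (hu : ∀ᶠ η : ℂ in 𝓝[upH] (x : ℂ), HarmonicAt u η)
    (h : ∀ᶠ t : ℝ in 𝓝 x, Tendsto u (𝓝[upH] (t : ℂ)) (𝓝 a)) :
    ∃ Φ, RefAt (fun η => u η - a) x Φ :=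
  refAt_of_tendsto (hu.mono fun _ e => e.sub (harmonicAt_const a))
    (h.mono fun _ e => by simpa using e.sub_const a)

theorem lin (h : RefAt u x Φ) (k : RefAt w x Ψ) (s t : ℝ)
    (hp : ∀ᶠ η : ℂ in 𝓝[upH] (x : ℂ), 0 < s * u η + t * w η) :
    0 < s * (deriv Φ x).re + t * (deriv Ψ x).re := by
  have r : RefAt (fun η => s * u η + t * w η) x fun η => s * Φ η + t * Ψ η := by
    refine ⟨(analyticAt_const.mul h.1).add (analyticAt_const.mul k.1), ?_, ?_⟩
    · filter_upwards [h.2.1, k.2.1] with y e e'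
      simp [e, e']
    · filter_upwards [h.2.2, k.2.2] with y e e'
      simp [e, e']
  have d : deriv (fun η => s * Φ η + t * Ψ η) x = s * deriv Φ x + t * deriv Ψ x :=
    ((h.1.differentiableAt.hasDerivAt.const_mul (s : ℂ)).add
      (k.1.differentiableAt.hasDerivAt.const_mul (t : ℂ))).deriv
  simpa [d] using r.hopf hp

theorem grad_sc (u : ℂ → ℝ) (a : ℝ) (z : ℂ) : grad (fun η => u η - a) z = grad u z := by
  unfold grad
  rw [fderiv_sub_const]

theorem ra (h : RefAt (fun η => u η - a) x Φ) (k : RefAt (fun η => w η - b) x Ψ)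
    (h0 : (deriv Φ x).re ≠ 0) :
    RA (fun η => -grad w η / grad u η) x (-(deriv Ψ x).re / (deriv Φ x).re) := by
  have e1 : deriv Φ x = (deriv Φ x).re := Complex.ext (by simp) (by simpa using har2_deriv_im h)
  have e2 : deriv Ψ x = (deriv Ψ x).re := Complex.ext (by simp) (by simpa using har2_deriv_im k)
  refine ⟨fun η => -deriv Ψ η / deriv Φ η, k.1.deriv.neg.div h.1.deriv fun e => h0 (by simp [e]),
    ?_, ?_, ?_⟩
  · filter_upwards [h.deriv_im, k.deriv_im] with t e e'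
    simp [Complex.div_im, e, e']
  · push_cast
    rw [← e1, ← e2]
  · filter_upwards [h.grad, k.grad] with η e e'
    rw [grad_sc] at e e'
    rw [e, e', ← mul_neg, mul_div_mul_left _ _ (neg_ne_zero.2 I_ne_zero)]

end TBdaP

open TBdaP in
theorem t_bda : T_BDA := by
  intro A B W v ω G x hAB hv hω hS hG
  have s : ∀ᶠ η : ℂ in 𝓝[upH] (x : ℂ), A < v (G η) ∧ v (G η) < B ∧ 0 < ω (G η) ∧
      ω (G η) + v (G η) / (B - A) < B / (B - A) := hG.mono fun η e => hS _ e.2.2
  have d : 0 < B - A := sub_pos.2 hAB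
  refine ⟨fun h => ?_, fun h => ?_⟩
  · obtain ⟨Φ, hΦ⟩ := ref (hG.harm hv) (h.mono fun _ e => e.1)
    obtain ⟨Ψ, hΨ⟩ := ref (hG.harm hω) (h.mono fun _ e => e.2)
    have p1 := lin hΦ hΨ 1 0 (s.mono fun η e => by linarith [e.1])
    have p2 := lin hΦ hΨ (-1) (-(B - A)) (s.mono fun η e => by
      have := e.2.2.2
      rw [add_div' _ _ _ d.ne', div_lt_div_iff_of_pos_right d] at this
      linarith)
    have p0 : 0 < (deriv Φ x).re := by linarith
    refine ⟨_, ?_, (ra hΦ hΨ p0.ne').congr (ff_comp hG hv hω)⟩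
    rw [div_lt_div_iff₀ d p0]
    linarith
  · obtain ⟨Φ, hΦ⟩ := ref (hG.harm hv) (h.mono fun _ e => e.1)
    obtain ⟨Ψ, hΨ⟩ := ref (hG.harm hω) (h.mono fun _ e => e.2)
    have p1 := lin hΦ hΨ (-1) 0 (s.mono fun η e => by linarith [e.2.1])
    have p3 := lin hΦ hΨ 0 1 (s.mono fun η e => by linarith [e.2.2.1])
    have p2 := lin hΦ hΨ (-1) (-(B - A)) (s.mono fun η e => by
      have := e.2.2.2
      rw [add_div' _ _ _ d.ne', div_lt_div_iff_of_pos_right d] at this
      linarith)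
    have p0 : 0 < -(deriv Φ x).re := by linarith
    refine ⟨_, ?_, (ra hΦ hΨ (neg_pos.1 p0).ne).congr (ff_comp hG hv hω)⟩
    rw [← div_neg_eq_neg_div', mem_Ioo, div_lt_div_iff₀ p0 d]
    exact ⟨div_pos (by linarith) p0, by linarith⟩

end Pool.Agent.P.MP_3bd355_an
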