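import Pool.Agent.P.MP_3bd355_an.T.St

/-! The boundary values of the uniformising function in the three charts. -/

open Set Filter Metric Complex InnerProductSpace
open scoped Topology ComplexConjugate Real

namespace Pool.Agent.P.MP_3bd355_an

namespace TBdatP

theorem om_bd {r : ℝ} {L : Set ℂ} {ω : ℂ → ℝ} (hL : Cont r L) (hL1 : ∀ p ∈ L, ‖p‖ < 1)
    (hω : Sol r 1 0 L ω) {p : ℂ} (hp : p ∈ frontier (main r L)) (hY : p ∈ YS r L) :
    Tendsto ω (𝓝[main r L] p) (𝓝 0) := by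
  rcases (hL.frontier_sub hp).2.2 with h | h | h
  · exact Sol.zeroB hL hL1 hω h
  · exact hω.atB p h
  · rcases hY with (h1 | h1) | h1
    · exact absurd h (hL1 p h1).ne
    · exact absurd (h ▸ h1.1 : (1 : ℝ) ≤ r) (not_le.2 hL.r1)
    · obtain ⟨q, hq, hq1⟩ := h1.2
      exact absurd hq1 (hL1 q hq).ne

end TBdatP

theorem t_bdat (h1 : T_STR) (h2 : T_BDA) (h3 : T_BDZ) : T_BDAT := by
  intro r A B z₁ L v ω φ F h s0 s1 y Fb T
  have hv := T.fr.cfg.sol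
  have hS := h1 r A B L v ω T.cont T.L1 T.A0 T.B0 hv T.om
  have k2 := fun G x => h2 A B _ v ω G x (T.A0.trans T.B0) hv.harm T.om.harm hS
  have o0 : ∀ t : ℝ, Tendsto (fun η => ω (F η)) (𝓝[upH] (t : ℂ)) (𝓝 0) :=
    T.fr.unif.tendsto_zero fun p hp hY => TBdatP.om_bd T.cont T.L1 T.om hp hY
  have k3 := fun x => h3 B _ v ω F x T.B0 hv.harm T.om.harm (fun z hz => (hS z hz).2.2.1) (T.chF x)
    (Eventually.of_forall o0)
  refine ⟨fun x => (k2 Ea x (T.chA x)).1 (Eventually.of_forall fun t => ?_),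
    fun hs x => (k2 (Eb r) x (T.chB hs x)).2 (Eventually.of_forall fun t =>
      ⟨(hv.atB _ (T.exB hs t)).comp (T.tB hs t), (T.om.atB _ (T.exB hs t)).comp (T.tB hs t)⟩),
    fun x hx => (k2 F x (T.chF x)).2 ?_, fun x hx hk => (k3 x).1 ?_,
    fun hs => ⟨(k3 s0).2.2.1 (T.fr.pv.end0 hs), (k3 s1).2.2.2 (T.fr.pv.end1 hs)⟩,
    (k3 y).2.1 (T.fr.tip y T.one.1)⟩
  · have e : ‖Ea t‖ = 1 := by rw [norm_Ea]; simp
    have e' : Ea t ∉ L := fun hp => (T.L1 _ hp).ne e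
    exact ⟨(hv.atA _ e e').comp (T.tA t), (T.om.atA _ e e').comp (T.tA t)⟩
  · filter_upwards [isOpen_Eo.mem_nhds hx] with t ht
    obtain ⟨p, hp, hF⟩ := T.fr.pic.toEx t ht
    exact ⟨(hv.atB p hp).comp (tendsto_nhdsWithin_iff.2
      ⟨hF, (T.fr.unif.ev_main t).mono fun _ e => e.2⟩), o0 t⟩
  · by_contra h0
    obtain ⟨k, e⟩ := T.one.2 x ⟨hx, h0⟩
    exact hk k e

end Pool.Agent.P.MP_3bd355_an
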