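import Pool.Agent.P.MP_3bd355_an.T.St

/-! Boundary values of the uniformising function where `ω` vanishes. -/

open Set Filter Metric Complex InnerProductSpace
open scoped Topology ComplexConjugate Real

namespace Pool.Agent.P.MP_3bd355_an

namespace TBdzP

theorem ne_x {x : ℝ} {η : ℂ} (h : η ∈ upH) : η - x ≠ 0 := fun e => by
  have h1 := congrArg Complex.im e
  have h2 : 0 < η.im := h
  simp at h1
  exact h2.ne' h1

theorem grad_arg {x : ℝ} {η : ℂ} (h : η ∈ upH) :
    grad (fun ζ => arg (ζ - x)) η = -I * (η - x)⁻¹ := by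
  have h2 : 0 < η.im := h
  have hs : η - x ∈ slitPlane := Or.inr (by simpa using h2.ne')
  have hd : HasDerivAt (fun ζ : ℂ => Complex.log (ζ - x)) (1 / (η - x)) η :=
    ((hasDerivAt_id η).sub_const (x : ℂ)).clog hs
  have he : (fun ζ : ℂ => arg (ζ - x)) = fun ζ => (Complex.log (ζ - x)).im :=
    funext fun ζ => (Complex.log_im _).symm
  rw [he, grad_im hd.differentiableAt, hd.deriv, one_div]

variable {W : Set ℂ} {v ω : ℂ → ℝ} {G Ψ : ℂ → ℂ} {x : ℝ}

theorem ord (hv : HarmonicOnNhd v W) (hω : HarmonicOnNhd ω W) (hG : Ch W G x)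
    (hΨ : RefAt (fun η => ω (G η)) x Ψ) (hp : 0 < (deriv Ψ x).re) {j : ℕ}
    (h : Ord (fun η => v (G η)) x j) :
    ∃ c : ℝ, c < 0 ∧ RA (fun η => (η - x) ^ j * ff v ω (G η)) x c := by
  obtain ⟨Φ, V, c, h1, h2, h3, h4, h5⟩ := h
  have hV : V x ≠ 0 := by rw [h4]; exact_mod_cast h3.ne'
  have ha : AnalyticAt ℂ (fun η => -deriv Ψ η / V η) x := hΨ.1.deriv.neg.div h2 hV
  have hr : ∀ᶠ t : ℝ in 𝓝 x, (-deriv Ψ t / V t).im = 0 := by
    filter_upwards [hΨ.deriv_im, h1.deriv_im, (continuous_ofReal.tendsto x).eventually h5]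
      with t a b e
    have hVt : (V t).im = 0 := by
      by_cases ht : t = x
      · rw [ht, h4]; simp
      · have h6 : ((t : ℂ) - x) ^ j = (((t - x) ^ j : ℝ) : ℂ) := by push_cast; rfl
        rw [e, h6, im_ofReal_mul] at b
        exact (mul_eq_zero.1 b).resolve_left (pow_ne_zero _ (sub_ne_zero.2 ht))
    simp [div_im, a, hVt]
  refine ⟨_, ?_, (RA.of_ana ha hr).congr ?_⟩
  · simp only [h4, div_ofReal_re, neg_re]
    exact div_neg_of_neg_of_pos (neg_neg_of_pos hp) h3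
  · filter_upwards [ff_comp hG hv hω, hΨ.grad, h1.grad, nhdsWithin_le_nhds h5,
      self_mem_nhdsWithin] with η a b d e hη
    have h6 := pow_ne_zero j (ne_x (x := x) hη)
    rw [a, b, d, e, ← mul_neg, mul_div_mul_left _ _ (neg_ne_zero.2 I_ne_zero), ← mul_div_assoc,
      mul_div_mul_left _ _ h6]

theorem fin (hv : HarmonicOnNhd v W) (hω : HarmonicOnNhd ω W) (hG : Ch W G x)
    (hΨ : RefAt (fun η => ω (G η)) x Ψ) {k d : ℝ} (hk : k ≠ 0) {Φ : ℂ → ℂ}
    (h : RefAt (fun η => v (G η) - (d + k * arg (η - x))) x Φ) :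
    RA (fun η => ff v ω (G η)) x 0 := by
  have hx : AnalyticAt ℂ (fun η : ℂ => η - x) x := by fun_prop
  have ha : AnalyticAt ℂ (fun η => (η - x) * -deriv Ψ η / ((η - x) * deriv Φ η + k)) x :=
    (hx.mul hΨ.1.deriv.neg).div ((hx.mul h.1.deriv).add analyticAt_const) (by simpa using hk)
  refine ⟨_, ha, ?_, by simp, ?_⟩
  · filter_upwards [hΨ.deriv_im, h.deriv_im] with t a b
    simp [div_im, a, b]
  · filter_upwards [ff_comp hG hv hω, hΨ.grad, h.grad, hG.harm hv, self_mem_nhdsWithin]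
      with η a b e f hη
    have h2 : 0 < η.im := hη
    have h6 := ne_x (x := x) hη
    have hs : η - x ∈ slitPlane := Or.inr (by simpa using h2.ne')
    have h7 : DifferentiableAt ℝ (fun ζ : ℂ => k * arg (ζ - x)) η :=
      harm_diff (harm_const_mul (harm_arg (f := fun ζ => ζ - x) (by fun_prop) hs) k)
    rw [grad_sub (harm_diff f) (h7.const_add d), grad_add (differentiableAt_const d) h7,
      grad_const, grad_const_mul, grad_arg hη] at e
    have h8 : grad (fun ζ => v (G ζ)) η = -I * (deriv Φ η + k * (η - x)⁻¹) := by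
      linear_combination e
    have h9 : (η - x) * deriv Φ η + k = (η - x) * (deriv Φ η + k * (η - x)⁻¹) := by
      field_simp
    rw [a, b, h8, h9, ← mul_neg, mul_div_mul_left _ _ (neg_ne_zero.2 I_ne_zero),
      mul_div_mul_left _ _ h6]

end TBdzP

theorem t_bdz : T_BDZ := by
  intro B W v ω G x hB hv hω hp hG h0
  obtain ⟨Ψ, hΨ⟩ := refAt_of_tendsto (hG.harm hω) h0
  have h1 : 0 < (deriv Ψ x).re := hΨ.hopf (hG.mono fun η h => hp _ h.2.2)
  have hk : B / π ≠ 0 := (div_pos hB Real.pi_pos).ne'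
  refine ⟨fun h => ?_, TBdzP.ord hv hω hG hΨ h1, fun ⟨Φ, h⟩ => ?_, fun ⟨Φ, h⟩ => ?_⟩
  · simpa using TBdzP.ord hv hω hG hΨ h1 h
  · exact TBdzP.fin hv hω hG hΨ (d := 0) hk (h.congr (Eventually.of_forall fun η => by ring))
  · exact TBdzP.fin hv hω hG hΨ (d := B) (neg_ne_zero.2 hk)
      (h.congr (Eventually.of_forall fun η => by ring))

end Pool.Agent.P.MP_3bd355_an
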