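import Pool.Agent.P.MP_3bd355_an.T.St

/-! The uniformising function is injective where it is large. -/

open Set Filter Metric Complex InnerProductSpace
open scoped Topology ComplexConjugate Real

namespace Pool.Agent.P.MP_3bd355_an

namespace TBigP

theorem ra_bd {G : ℂ → ℂ} {x c : ℝ} (h : RA G x c) {C : ℝ} (hC : |c| + 1 ≤ C) :
    ∀ᶠ η : ℂ in 𝓝[upH] (x : ℂ), ‖G η‖ ≤ C := by
  have h1 : ‖(c : ℂ)‖ < C := by rw [norm_real, Real.norm_eq_abs]; linarith
  exact (h.tendsto.norm.eventually (gt_mem_nhds h1)).mono fun _ e => e.le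

theorem abs_Icc {a b c : ℝ} (h : c ∈ Icc a b) : |c| ≤ |a| + |b| :=
  abs_le.2 ⟨by linarith [h.1, neg_abs_le a, abs_nonneg b],
    by linarith [h.2, le_abs_self b, abs_nonneg a]⟩

/-- A uniform constant on a compact set. -/
theorem uni {K : Set ℂ} (hK : IsCompact K) {Q : ℝ → ℂ → Prop}
    (hQ : ∀ C C' z, C ≤ C' → Q C z → Q C' z) (h : ∀ p ∈ K, ∃ C, ∀ᶠ z in 𝓝 p, Q C z) :
    ∃ C, ∀ z ∈ K, Q C z := by
  refine hK.induction_on (p := fun s : Set ℂ => ∃ C, ∀ z ∈ s, Q C z) ⟨0, by simp⟩ ?_ ?_ ?_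
  · rintro s t hst ⟨C, h⟩
    exact ⟨C, fun x hx => h x (hst hx)⟩
  · rintro s t ⟨C, h1⟩ ⟨C', h2⟩
    exact ⟨max C C', fun z hz => hz.elim (fun e => hQ _ _ z (le_max_left _ _) (h1 z e))
      fun e => hQ _ _ z (le_max_right _ _) (h2 z e)⟩
  · intro p hp
    obtain ⟨C, hC⟩ := h p hp
    exact ⟨_, mem_nhdsWithin_of_mem_nhds hC, C, fun _ e => e⟩

end TBigP

open TBigP in
theorem t_big (h1 : T_PULL) (h2 : T_BIG1) : T_BIG := by
  intro r A B z₁ L v ω φ F h s0 s1 y Fb f e T hf R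
  obtain ⟨c, hc, hy⟩ := R.tip
  obtain ⟨⟨D, hD, hi⟩, ht⟩ := h2 (fun η => f (F η)) y c hc hy
  have hU := T.fr.unif
  have hle := T.fr.pic.le
  have hP : ∀ C C' : ℝ, ∀ z : ℂ, C ≤ C' → (‖f z‖ ≤ C ∨ z ∈ F '' D) → (‖f z‖ ≤ C' ∨ z ∈ F '' D) :=
    fun C C' z a b => b.imp_left fun k => k.trans a
  have k0 : ∀ {x d : ℝ}, RA (fun η => f (F η)) x d →
      ∃ C, ∀ᶠ η : ℂ in 𝓝[upH] (x : ℂ), ‖f (F η)‖ ≤ C ∨ F η ∈ F '' D := fun a =>
    ⟨_, (ra_bd a le_rfl).mono fun _ b => Or.inl b⟩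
  obtain ⟨C₁, k1⟩ := uni_const (P := fun C η => ‖f (F η)‖ ≤ C ∨ F η ∈ F '' D)
    (a := s0) (b := s0 + 2 * π) (fun C C' η => hP C C' (F η)) fun x hx => by
      by_cases a : ∃ k : ℤ, x = y + 2 * π * k
      · obtain ⟨k, rfl⟩ := a
        refine ⟨0, (hU.shift_ev (P := fun z => z ∈ F '' D) k ?_).mono fun _ b => Or.inr b⟩
        filter_upwards [hD] with η b using mem_image_of_mem F b
      rcases le_or_gt x s1 with b | b
      · rcases Icc_cases hle ⟨hx.1, b⟩ with d | ⟨d, rfl | rfl⟩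
        · obtain ⟨_, -, g⟩ := R.ze x d (not_exists.1 a)
          exact k0 g
        · exact k0 (R.en d).2.1
        · exact k0 (R.en d).2.2
      rcases hx.2.eq_or_lt with d | d
      · obtain ⟨C, g⟩ := k0 (R.en (d ▸ b)).2.1
        have g' := hU.shift_ev (P := fun z => ‖f z‖ ≤ C ∨ z ∈ F '' D) 1 g
        rw [Int.cast_one, mul_one, ← d] at g'
        exact ⟨C, g'⟩
      · obtain ⟨_, -, g⟩ := R.ex x (Ioo_sub_Eo ⟨b, d⟩)
        exact k0 g
  have k2 := h1 r A B z₁ L v ω φ F h s0 s1 y Fb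
    (fun z => ‖f z‖ ≤ max C₁ (|e 1| + |e 2| + |e 3| + |e 4| + 1) ∨ z ∈ F '' D) T
    (fun x => by
      obtain ⟨d, a, b⟩ := R.al x
      refine (ra_bd b (le_max_of_le_right ?_)).mono fun _ g => Or.inl g
      linarith [abs_Icc a, abs_nonneg (e 1), abs_nonneg (e 2)])
    (fun hs x => by
      obtain ⟨d, a, b⟩ := R.be hs x
      refine (ra_bd b (le_max_of_le_right ?_)).mono fun _ g => Or.inl g
      linarith [abs_Icc a, abs_nonneg (e 3), abs_nonneg (e 4)])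
    fun x hx => (k1 x hx).mono fun η a => hP _ _ _ (le_max_left _ _) a
  have ho := T.cont.isOpen_main
  have hK : IsCompact (closure (main r L)) :=
    (isCompact_closedBall (0 : ℂ) 1).of_isClosed_subset isClosed_closure fun z hz => by
      simpa using (Top1P.closure_main_sub r L hz).2
  obtain ⟨C, k3⟩ := uni hK (Q := fun C z => z ∈ main r L → ‖f z‖ ≤ C ∨ z ∈ F '' D)
    (fun C C' z a b d => hP C C' z a (b d)) fun p hp => by
      by_cases a : p ∈ main r L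
      · have b := (hf.continuousAt (ho.mem_nhds a)).norm.eventually
          (gt_mem_nhds (lt_add_one ‖f p‖))
        exact ⟨_, b.mono fun _ d _ => Or.inl d.le⟩
      · exact ⟨_, eventually_nhdsWithin_iff.1 (k2 p (by rw [ho.frontier_eq]; exact ⟨hp, a⟩))⟩
  refine ⟨C, fun z hz z' hz' he => ?_, ?_⟩
  · obtain ⟨η, a, rfl⟩ := (k3 z (subset_closure hz.1) hz.1).resolve_left hz.2.not_ge
    obtain ⟨η', a', rfl⟩ := (k3 z' (subset_closure hz'.1) hz'.1).resolve_left hz'.2.not_ge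
    rw [hi a a' he]
  · obtain ⟨τ, a, b⟩ := ((ht.eventually_gt_atTop (max C (e 4))).and
      ((tendsto_vert y).eventually (hU.ev_main y))).exists
    obtain ⟨o1, o2, o3, o4⟩ := R.od
    rw [max_lt_iff] at a
    refine ⟨_, b.2, a.1.trans_le (re_le_norm _), ?_⟩
    rintro ⟨-, d | d | d⟩
    · linarith [a.2]
    · linarith [a.2, d.2]
    · linarith [a.2, d.2]

end Pool.Agent.P.MP_3bd355_an
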