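import Pool.Agent.P.MP_3bd355_an.T.St

/-! Local injectivity at the double pole. -/

open Set Filter Metric Complex InnerProductSpace
open scoped Topology ComplexConjugate Real

namespace Pool.Agent.P.MP_3bd355_an

namespace TBig1P

theorem chart {Ψ : ℂ → ℂ} {y c : ℝ} (hc : c < 0) (h1 : AnalyticAt ℂ Ψ y)
    (h2 : ∀ᶠ t : ℝ in 𝓝 y, (Ψ t).im = 0) (h3 : Ψ y = c) :
    RChart (fun η => (η - y) / (-Ψ η) ^ ((2 : ℂ)⁻¹)) y := by
  have e : ∀ a : ℝ, 0 ≤ a → (a : ℂ) ^ ((2 : ℂ)⁻¹) = ((a ^ (2⁻¹ : ℝ) : ℝ) : ℂ) := fun a ha => by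
    rw [Complex.ofReal_cpow ha]; simp
  have hs : -Ψ y ∈ slitPlane := by rw [h3]; exact Or.inl (by simpa using hc)
  have hS : AnalyticAt ℂ (fun η => (-Ψ η) ^ ((2 : ℂ)⁻¹)) y := h1.neg.cpow analyticAt_const hs
  have hv : (-Ψ y) ^ ((2 : ℂ)⁻¹) = (((-c) ^ (2⁻¹ : ℝ) : ℝ) : ℂ) := by
    rw [h3, ← e _ (by linarith)]; simp
  have hp : 0 < (-c) ^ (2⁻¹ : ℝ) := Real.rpow_pos_of_pos (by linarith) _
  have h0 : (-Ψ y) ^ ((2 : ℂ)⁻¹) ≠ 0 := by rw [hv]; exact_mod_cast hp.ne'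
  have hl : AnalyticAt ℂ (fun η : ℂ => η - y) y := by fun_prop
  refine ⟨hl.div hS h0, by simp, ?_, ?_⟩
  · have h4 : Tendsto (fun t : ℝ => (Ψ t).re) (𝓝 y) (𝓝 c) := by
      have := (continuous_re.tendsto _).comp
        (h1.continuousAt.tendsto.comp (continuous_ofReal.tendsto y))
      simpa [h3, Function.comp_def] using this
    filter_upwards [h2, h4.eventually (gt_mem_nhds hc)] with t a b
    have h5 : -Ψ t = ((-(Ψ t).re : ℝ) : ℂ) := Complex.ext (by simp) (by simpa using a)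
    rw [h5, e _ (by linarith), ← ofReal_sub, ← ofReal_div, ofReal_im]
  · have h4 := ((hasDerivAt_id (y : ℂ)).sub_const (y : ℂ)).div hS.differentiableAt.hasDerivAt h0
    have h5 : deriv (fun η : ℂ => (η - y) / (-Ψ η) ^ ((2 : ℂ)⁻¹)) y =
        ((((-c) ^ (2⁻¹ : ℝ))⁻¹ : ℝ) : ℂ) := by
      refine h4.deriv.trans ?_
      rw [ofReal_inv, ← hv]
      simp only [id, sub_self, zero_mul, sub_zero, one_mul]
      field_simp
    rw [h5, ofReal_re]
    exact inv_pos.2 hp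

end TBig1P

open TBig1P in
theorem t_big1 : T_BIG1 := by
  rintro G y c hc ⟨Ψ, h1, h2, h3, h4⟩
  have hΨ : Tendsto Ψ (𝓝[upH] (y : ℂ)) (𝓝 (c : ℂ)) :=
    h3 ▸ h1.continuousAt.tendsto.mono_left nhdsWithin_le_nhds
  constructor
  · have hχ := chart hc h1 h2 h3
    obtain ⟨χ, eχ⟩ : ∃ χ : ℂ → ℂ, χ = fun η => (η - y) / (-Ψ η) ^ ((2 : ℂ)⁻¹) := ⟨_, rfl⟩
    rw [← eχ] at hχ
    have hne : deriv χ y ≠ 0 := fun h0 => by simpa [h0] using hχ.dpos
    have hi := hχ.ana.hasStrictDerivAt.eventually_left_inverse hne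
    have hu : ∀ᶠ η in 𝓝[upH] (y : ℂ), χ η ∈ upH := by
      have : upH ∈ map χ (𝓝[upH] (y : ℂ)) := by rw [hχ.map_upH]; exact self_mem_nhdsWithin
      exact this
    have hn : ∀ᶠ η in 𝓝[upH] (y : ℂ), Ψ η ≠ 0 :=
      hΨ.eventually_ne (by exact_mod_cast hc.ne)
    have hq : ∀ᶠ η in 𝓝[upH] (y : ℂ), χ η ^ 2 * G η = -1 := by
      filter_upwards [h4, hn] with η a b
      rw [eχ]
      simp only
      rw [div_pow, cpow_ofNat_inv_pow, div_mul_eq_mul_div, a, div_neg, div_self b]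
    refine ⟨_, (hi.filter_mono nhdsWithin_le_nhds).and (hu.and hq), ?_⟩
    rintro a ⟨a1, a2, a3⟩ b ⟨b1, b2, b3⟩ e
    have g0 : G b ≠ 0 := fun h0 => by simp [h0] at b3
    rw [e] at a3
    rcases sq_eq_sq_iff_eq_or_eq_neg.1 (mul_right_cancel₀ g0 (a3.trans b3.symm)) with h | h
    · rw [← a1, h, b1]
    · have a4 : 0 < (χ a).im := a2
      have b4 : 0 < (χ b).im := b2
      rw [h, neg_im] at a4
      linarith
  · have h5 : Tendsto (fun τ : ℝ => -(Ψ (y + τ * I)).re) (𝓝[>] 0) (𝓝 (-c)) := by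
      simpa using ((continuous_re.tendsto _).comp (hΨ.comp (tendsto_vert y))).neg
    have h6 : Tendsto (fun τ : ℝ => τ⁻¹ ^ 2) (𝓝[>] 0) atTop :=
      (tendsto_pow_atTop two_ne_zero).comp tendsto_inv_nhdsGT_zero
    refine (h5.pos_mul_atTop (by linarith) h6).congr' ?_
    filter_upwards [(tendsto_vert y).eventually h4, self_mem_nhdsWithin] with τ a b
    have b' : (0 : ℝ) < τ := b
    rw [← a, add_sub_cancel_left, mul_pow, I_sq, ← ofReal_pow, mul_neg_one, ← ofReal_neg,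
      re_ofReal_mul]
    field_simp

end Pool.Agent.P.MP_3bd355_an
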