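import Pool.Agent.P.MP_3bd355_an.T.St

/-! The uniformising function is a bijection onto the slit plane. -/

open Set Filter Metric Complex InnerProductSpace
open scoped Topology ComplexConjugate Real

namespace Pool.Agent.P.MP_3bd355_an

namespace TBijP

theorem proper {W : Set ℂ} {f : ℂ → ℂ} {e : Fin 5 → ℝ} {u : ℂ → ℝ} {a b : ℝ} (hW : IsOpen W)
    (hb : Bornology.IsBounded W) (hf : ContinuousOn f W) (ho : IsOpen (Sl e)ᶜ)
    (hc : CL W f e u a b) {C : Set ℂ} (hC : IsCompact C) (hs : C ⊆ (Sl e)ᶜ) :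
    IsCompact (W ∩ f ⁻¹' C) := by
  obtain ⟨δ, hδ, h1⟩ := hC.exists_thickening_subset_open ho hs
  obtain ⟨M, hM, h2⟩ := hC.isBounded.exists_pos_norm_le
  refine Metric.isCompact_of_isClosed_isBounded (isClosed_of_closure_subset fun p hp => ?_)
    (hb.subset inter_subset_left)
  by_cases hpW : p ∈ W
  · refine ⟨hpW, hC.isClosed.closure_subset ?_⟩
    exact closure_mono (by rintro _ ⟨z, hz, rfl⟩; exact hz.2)
      (((hf p hpW).mono inter_subset_left).mem_closure_image hp)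
  · exfalso
    have hfr : p ∈ frontier W := by
      rw [hW.frontier_eq]
      exact ⟨closure_mono inter_subset_left hp, hpW⟩
    have h3 := hc p hfr (min δ M⁻¹) (by positivity)
    rw [eventually_nhdsWithin_iff] at h3
    obtain ⟨z, hz, h4⟩ := ((mem_closure_iff_frequently.1 hp).and_eventually h3).exists
    have key : ∀ s : ℝ, (s : ℂ) ∈ Sl e → ¬ ‖f z - s‖ < min δ M⁻¹ := fun s h5 h6 =>
      h1 (mem_thickening_iff.2 ⟨f z, hz.2, by
        rw [dist_comm, dist_eq_norm]; exact h6.trans_le (min_le_left _ _)⟩) h5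
    rcases h4 hz.1 with ⟨⟨s, h5, h6⟩, -⟩ | ⟨⟨s, h5, h6⟩, -⟩ | ⟨⟨s, h5, h6⟩ | h5, -⟩ | ⟨-, h5⟩
    · exact key s ⟨ofReal_im s, Or.inr (Or.inr h5)⟩ h6
    · exact key s ⟨ofReal_im s, Or.inr (Or.inl h5)⟩ h6
    · exact key s ⟨ofReal_im s, Or.inl h5⟩ h6
    · have h6 : M ≤ (min δ M⁻¹)⁻¹ := by
        rw [le_inv_comm₀ hM (by positivity)]
        exact min_le_right _ _
      linarith [h2 _ hz.2]
    · exact key _ ⟨ofReal_im _, Or.inl le_rfl⟩ h5

end TBijP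

theorem t_bij (h1 : T_SPRE) (h2 : T_DEG) : T_BIJ := by
  intro W f e u a b hW hb hf hn hod hc hacc hbig
  obtain ⟨ho, hp, -, -, -, hd, -⟩ := h1 e hod
  obtain ⟨R, hinj, z, hz, hR, hzS⟩ := hbig
  have hX : IsOpen (W ∩ f ⁻¹' (Sl e)ᶜ) := hf.continuousOn.isOpen_inter_preimage hW ho
  have hN : IsOpen ((W ∩ f ⁻¹' (Sl e)ᶜ) ∩ f ⁻¹' {t | R < ‖t‖}) :=
    (hf.continuousOn.mono inter_subset_left).isOpen_inter_preimage hX
      (isOpen_lt continuous_const continuous_norm)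
  obtain ⟨h3, h4⟩ := h2 _ _ _ f z hX (fun x hx => hn x hx.1) ho hp (hf.mono inter_subset_left)
    (fun x hx => hx.2) (fun C hC hs => by
      have h := TBijP.proper hW hb hf.continuousOn ho hc hC hs
      rwa [show W ∩ f ⁻¹' (Sl e)ᶜ ∩ f ⁻¹' C = W ∩ f ⁻¹' C from
        Subset.antisymm (fun x hx => ⟨hx.1.1, hx.2⟩) fun x hx => ⟨⟨hx.1, hs hx.2⟩, hx.2⟩])
    hN inter_subset_left (fun _ hx _ hy => hinj ⟨hx.1.1, hx.2⟩ ⟨hy.1.1, hy.2⟩) ⟨⟨hz, hzS⟩, hR⟩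
    fun y hy h => ⟨hy, by rw [mem_preimage, h]; exact hR⟩
  have op : ∀ x ∈ W, ∀ U ∈ 𝓝 x, f '' U ∈ 𝓝 (f x) := fun x hx U hU =>
    ((hf.analyticAt (hW.mem_nhds hx)).eventually_constant_or_nhds_le_map_nhds.resolve_left
      (hn x hx)) (image_mem_map hU)
  have key : W ∩ f ⁻¹' (Sl e)ᶜ = W := by
    refine inter_eq_left.2 fun x hx hS => ?_
    obtain ⟨ρ, hρ, h5⟩ := nhds_basis_closedBall.mem_iff.1 (hW.mem_nhds hx)
    have h6 := hacc _ hS _ (isCompact_closedBall x ρ) h5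
    obtain ⟨_, h7, w, hw, rfl⟩ := mem_closure_iff_nhds.1 h6 _
      (interior_mem_nhds.2 (op x hx _ (closedBall_mem_nhds x hρ)))
    obtain ⟨t, ht, ⟨z1, h8, rfl⟩, z2, h9, h10⟩ := hd.inter_nhds_nonempty (inter_mem
      (mem_interior_iff_mem_nhds.1 h7) (op w hw.1 _ ((hW.sdiff isClosed_closedBall).mem_nhds hw)))
    exact h9.2 (h3.injOn ⟨h9.1, by rw [mem_preimage, h10]; exact ht⟩ ⟨h5 h8, ht⟩ h10 ▸ h8)
  rw [key] at h3 h4
  exact ⟨h3, h4⟩

end Pool.Agent.P.MP_3bd355_an
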