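import Pool.Agent.P.MP_3bd355_an.T.St
import Pool.Agent.P.MP_3bd355_an.Z.Pk.Deg

/-! Proper maps of degree one, source not assumed connected. -/

open Set Filter Metric Complex InnerProductSpace
open scoped Topology ComplexConjugate Real

namespace Pool.Agent.P.MP_3bd355_an

theorem t_deg : T_DEG := by
  intro X Y N φ z hX hn hY hYc hd hm hp hN hNX hi hz hf
  have ha : AnalyticOnNhd ℂ φ X := hd.analyticOnNhd hX
  have ho : ∀ x ∈ X, 𝓝 (φ x) ≤ map φ (𝓝 x) := fun x hx =>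
    (ha x hx).eventually_constant_or_nhds_le_map_nhds.resolve_left (hn x hx)
  set A : Set ℂ := {y | ∃ x ∈ X, φ x = y ∧ deriv φ x ≠ 0 ∧ ∀ x' ∈ X, φ x' = y → x' = x} with hA
  have hAo : IsOpen A := by
    refine isOpen_iff_mem_nhds.2 ?_
    rintro _ ⟨x, hx, rfl, h0, hu⟩
    have hs : HasStrictDerivAt φ (deriv φ x) x := (ha x hx).hasStrictDerivAt
    have h1 := hs.eventually_left_inverse h0
    have h2 : ∀ᶠ w in 𝓝 x, deriv φ w ≠ 0 := (ha x hx).deriv.continuousAt.eventually_ne h0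
    obtain ⟨O, hO, hOo, hxO⟩ := _root_.mem_nhds_iff.1 (h1.and (h2.and (hX.mem_nhds hx)))
    filter_upwards [DegP.fib hY hd.continuousOn hp (hm hx) hOo
      (fun x' hx' e => by rw [hu x' hx' e]; exact hxO),
      ho x hx (image_mem_map (hOo.mem_nhds hxO))] with y h3 h4
    obtain ⟨w, hw, rfl⟩ := h4
    refine ⟨w, (hO hw).2.2, rfl, (hO hw).2.1, fun x' hx' e => ?_⟩
    rw [← (hO (h3 x' hx' e)).1, e, (hO hw).1]
  have htwo : ∀ y, (∃ a ∈ X, ∃ b ∈ X, a ≠ b ∧ φ a = y ∧ φ b = y) → y ∉ A := by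
    rintro y ⟨a, a1, b, b1, hab, a2, b2⟩ ⟨x, -, -, -, hu⟩
    exact hab ((hu a a1 a2).trans (hu b b1 b2).symm)
  have hB : ∀ y ∈ Y, y ∉ A → y ∈ interior Aᶜ := fun y hy hyA => by
    rw [mem_interior_iff_mem_nhds]
    by_cases h1 : ∃ x ∈ X, φ x = y
    · obtain ⟨x, hx, rfl⟩ := h1
      by_cases h0 : deriv φ x = 0
      · have h2 := DegP.twice (ha x hx) (hn x hx) h0 (hX.mem_nhds hx)
        filter_upwards [eventually_nhdsWithin_iff.1 h2] with y hy
        by_cases e : y = φ x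
        · rw [e]; exact hyA
        · exact htwo y (hy e)
      · have h2 : ∃ x' ∈ X, φ x' = φ x ∧ x' ≠ x := by
          by_contra h3
          push Not at h3
          exact hyA ⟨x, hx, rfl, h0, h3⟩
        obtain ⟨x', hx', e, hne⟩ := h2
        obtain ⟨U, V, hU, hV, hxU, hxV, hUV⟩ := t2_separation hne
        filter_upwards [ho x hx (image_mem_map (inter_mem (hV.mem_nhds hxV) (hX.mem_nhds hx))),
          e ▸ ho x' hx' (image_mem_map (inter_mem (hU.mem_nhds hxU) (hX.mem_nhds hx')))]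
          with y h3 h4
        obtain ⟨a, a1, a2⟩ := h3
        obtain ⟨b, b1, b2⟩ := h4
        refine htwo y ⟨a, a1.2, b, b1.2, fun e => ?_, a2, b2⟩
        exact disjoint_left.1 hUV b1.1 (e ▸ a1.1)
    · filter_upwards [DegP.fib hY hd.continuousOn hp hy isOpen_empty
        (fun x hx e => (h1 ⟨x, hx, e⟩).elim)] with y' h2
      rintro ⟨x, hx, e, -⟩
      exact h2 x hx e
  have hzA : φ z ∈ A := by
    refine ⟨z, hNX hz, rfl, fun h0 => ?_, fun x hx e => hi (hf x hx e) hz e⟩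
    obtain ⟨y, a, a1, b, b1, hab, a2, b2⟩ :=
      (DegP.twice (ha z (hNX hz)) (hn z (hNX hz)) h0 (hN.mem_nhds hz)).exists
    exact hab (hi a1 b1 (a2.trans b2.symm))
  have hYA : Y ⊆ A := hYc.subset_left_of_subset_union hAo isOpen_interior
    (disjoint_compl_right.mono_right interior_subset)
    (fun y hy => (em (y ∈ A)).imp id (hB y hy)) ⟨φ z, hm (hNX hz), hzA⟩
  refine ⟨⟨hm, fun a a1 b b1 e => ?_, fun y hy => ?_⟩, fun y hy => ?_⟩
  · by_contra hab
    exact htwo _ ⟨a, a1, b, b1, hab, rfl, e.symm⟩ (hYA (hm a1))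
  · obtain ⟨x, hx, e, -⟩ := hYA hy
    exact ⟨x, hx, e⟩
  · obtain ⟨x, -, -, h0, hu⟩ := hYA (hm hy)
    rwa [hu y hy rfl]

end Pool.Agent.P.MP_3bd355_an
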