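import Pool.Agent.P.MP_3bd355_an.T.St
import Pool.Agent.P.MP_3bd355_an.Z.Pk.Inv

/-! The explicit form, assembled from the conformal map and the analysis in the slit plane. -/

open Set Filter Metric Complex InnerProductSpace
open scoped Topology ComplexConjugate Real

namespace Pool.Agent.P.MP_3bd355_an

namespace TFormP

/-- The gradient through the conformal map. -/
theorem key {W : Set ℂ} {f ψ : ℂ → ℂ} {u : ℂ → ℝ} {z : ℂ} (hO : IsOpen W)
    (diff : DifferentiableOn ℂ f W) (hψ : ∀ z ∈ W, ψ (f z) = z) (hz : z ∈ W)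
    (hu : HarmonicAt (fun t => u (ψ t)) (f z)) :
    grad u z = grad (fun t => u (ψ t)) (f z) * deriv f z := by
  rw [← grad_comp (harm_diff hu) (diff.differentiableAt (hO.mem_nhds hz))]
  refine grad_congr ?_
  filter_upwards [hO.mem_nhds hz] with w hw
  rw [hψ w hw]

/-- Transfer of a solution to the slit plane. -/
theorem vs {r a b : ℝ} {L : Set ℂ} {f ψ : ℂ → ℂ} {u : ℂ → ℝ} {e : Fin 5 → ℝ}
    (hS : IsOpen (Sl e)ᶜ) (bij : BijOn f (main r L) (Sl e)ᶜ) (hψ : ∀ z ∈ main r L, ψ (f z) = z)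
    (dψ : DifferentiableOn ℂ ψ (Sl e)ᶜ) (hu : Sol r a b L u)
    (hl : Lim e (fun t => u (ψ t)) a b) : VS e (fun t => u (ψ t)) a b := by
  refine ⟨fun t ht => ?_, ?_, hl⟩
  · obtain ⟨z, hz, rfl⟩ := bij.surjOn ht
    refine harm_comp ?_ (dψ.analyticAt (hS.mem_nhds ht))
    rw [hψ z hz]
    exact hu.harm z hz
  · obtain ⟨C, hC⟩ := hu.bdd
    exact ⟨C, fun t _ => hC _⟩

end TFormP

theorem t_form (h1 : T_MAP) (h2 : T_SPRE) (h3 : T_LIM) (h4 : T_TRG) (h5 : T_SYM) (h6 : T_VF)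
    (h7 : T_HV) (h8 : T_GF) : T_FORM := by
  intro r A B z₀ z₁ L v ω φ F h s0 s1 y Fb H κ T hG m0 hW hsep
  obtain ⟨e, od, sep, nz, diff, bij, dne, clv, clω, clg⟩ := h1 r A B z₁ L v ω φ F h s0 s1 y Fb T
  have hO := T.cont.isOpen_main
  obtain ⟨-, ψ, hψ, hd⟩ := z_inv _ (ff v ω) hO diff bij.injOn dne
  have hS := (h2 e od).1
  have dψ : DifferentiableOn ℂ ψ (Sl e)ᶜ := fun t ht => by
    obtain ⟨z, hz, rfl⟩ := bij.surjOn ht
    exact (hd z hz).differentiableAt.differentiableWithinAt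
  have lim := fun u a b => h3 (main r L) (ff v ω) ψ e u a b hO (bdd_main r L) diff.continuousOn od
    bij hψ
  have Vv := TFormP.vs hS bij hψ dψ T.fr.cfg.sol (lim v A B clv)
  have Vω := TFormP.vs hS bij hψ dψ T.om (lim ω 1 0 clω)
  have Uv := h5 e _ A B od Vv
  have Uω := h5 e _ 1 0 od Vω
  have kv : ∀ z ∈ main r L, grad v z = grad (fun t => v (ψ t)) (ff v ω z) * deriv (ff v ω) z :=
    fun z hz => TFormP.key hO diff hψ hz (Vv.harm _ (bij.mapsTo hz))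
  have kω : ∀ z ∈ main r L, grad ω z = grad (fun t => ω (ψ t)) (ff v ω z) * deriv (ff v ω) z :=
    fun z hz => TFormP.key hO diff hψ hz (Vω.harm _ (bij.mapsTo hz))
  have rel : ∀ t ∈ (Sl e)ᶜ, grad (fun t => ω (ψ t)) t = -t * grad (fun t => v (ψ t)) t := by
    intro t ht
    obtain ⟨z, hz, rfl⟩ := bij.surjOn ht
    refine mul_right_cancel₀ (dne z hz) ?_
    rw [← kω z hz, mul_assoc, ← kv z hz, ff, neg_div, neg_neg, div_mul_cancel₀ _ (nz z hz)]
  have nzV : ∀ t ∈ (Sl e)ᶜ, grad (fun t => v (ψ t)) t ≠ 0 := by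
    intro t ht h0
    obtain ⟨z, hz, rfl⟩ := bij.surjOn ht
    exact nz z hz (by rw [kv z hz, h0, zero_mul])
  obtain ⟨C, c1, c2⟩ := h6 e _ _ A B 1 0 od Uv Uω rel
  obtain ⟨val, valA, valB⟩ := h7 e _ A B C od Uv c1
  have hGS := h4 (main r L) (ff v ω) ψ e H z₀ hO (bdd_main r L) hS diff bij dne hψ dψ hG m0
    (lim (gr H z₀) 0 0 (clg _ (hG.bd z₀ m0)))
  obtain ⟨l₀, l₁, hl⟩ := h8 e _ _ _ A B C od hGS Uv c1 nzV
  refine ⟨e, C, l₀, l₁, ff v ω, od, sep.trans hsep.symm, ?_, ?_, ?_, valA, valB, ?_, ?_⟩ <;>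
    rw [hW]
  · exact diff
  · exact bij
  · intro z hz
    rw [← val _ (bij.mapsTo hz), hψ z hz]
  · intro z hz
    rw [kv z hz, ← c2 _ (bij.mapsTo hz)]
    ring
  · intro z hz n1 n2
    have hp : deriv (ff v ω) z₀ / grad v z₀ = (grad (fun t => v (ψ t)) (ff v ω z₀))⁻¹ := by
      rw [kv z₀ m0, mul_comm, div_mul_cancel_left₀ (dne z₀ m0)]
    rw [TFormP.key hO diff hψ hz (hGS.harm _ ⟨bij.mapsTo hz, n1⟩), hl _ (bij.mapsTo hz) n1 n2, hp,
      kv z hz]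
    ring

end Pool.Agent.P.MP_3bd355_an
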