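import Pool.Agent.P.MP_3bd355_an.T.St

/-! The gradient bounds at the branch points and at infinity. -/

open Set Filter Metric Complex InnerProductSpace
open scoped Topology ComplexConjugate Real

namespace Pool.Agent.P.MP_3bd355_an

namespace TGbP

variable {e : Fin 5 → ℝ} {P : Set ℂ} {U : ℂ → ℝ} {a b : ℝ}

/-- A set of real points which no branch point separates lies in one slit or in one gap. -/
theorem side (h1 : T_SPRE) (ho : Od e) (hU : US e P U a b) (J : ℝ → Prop)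
    (hJ : ∀ i, (∀ x, J x → e i < x) ∨ ∀ x, J x → x < e i) :
    ∃ c : ℝ, (∀ x, J x → Tendsto U (𝓝[upH] (x : ℂ)) (𝓝 c)) ∨ ∀ x, J x → (x : ℂ) ∉ Sl e := by
  have hs : upH ⊆ (Sl e)ᶜ := (h1 e ho).2.2.1
  obtain ⟨o1, o2, o3, o4⟩ := ho
  rcases hJ 0 with k0 | k0
  swap
  · exact ⟨0, Or.inl fun x hx => (hU.lim.ze x (k0 x hx)).mono_left (nhdsWithin_mono _ hs)⟩
  rcases hJ 1 with k1 | k1
  swap
  · refine ⟨0, Or.inr fun x hx h => ?_⟩
    have := k0 x hx
    have := k1 x hx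
    rcases h.2 with h | h | h
    · simp only [ofReal_re] at h; linarith
    · have := h.1; simp only [ofReal_re] at this; linarith
    · have := h.1; simp only [ofReal_re] at this; linarith
  rcases hJ 2 with k2 | k2
  swap
  · exact ⟨b, Or.inl fun x hx =>
      (hU.lim.be x ⟨k1 x hx, k2 x hx⟩).mono_left (nhdsWithin_mono _ hs)⟩
  rcases hJ 3 with k3 | k3
  swap
  · refine ⟨0, Or.inr fun x hx h => ?_⟩
    have := k2 x hx
    have := k3 x hx
    rcases h.2 with h | h | h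
    · simp only [ofReal_re] at h; linarith
    · have := h.2; simp only [ofReal_re] at this; linarith
    · have := h.1; simp only [ofReal_re] at this; linarith
  rcases hJ 4 with k4 | k4
  swap
  · exact ⟨a, Or.inl fun x hx =>
      (hU.lim.al x ⟨k3 x hx, k4 x hx⟩).mono_left (nhdsWithin_mono _ hs)⟩
  refine ⟨0, Or.inr fun x hx h => ?_⟩
  have := k4 x hx
  rcases h.2 with h | h | h
  · simp only [ofReal_re] at h; linarith
  · have := h.2; simp only [ofReal_re] at this; linarith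
  · have := h.2; simp only [ofReal_re] at this; linarith

theorem core (h1 : T_SPRE) (h2 : T_GB1) (ho : Od e) (hU : US e P U a b) (O : Set ℂ) (p δ : ℝ)
    (hδ : 0 < δ) (hO : ∀ z ∈ O, ∀ q ∈ P, δ ≤ ‖z - q‖)
    (hl : ∀ i, (∀ x : ℝ, (x : ℂ) ∈ O ∧ x < p → e i < x) ∨ ∀ x : ℝ, (x : ℂ) ∈ O ∧ x < p → x < e i)
    (hr : ∀ i, (∀ x : ℝ, (x : ℂ) ∈ O ∧ p < x → e i < x) ∨ ∀ x : ℝ, (x : ℂ) ∈ O ∧ p < x → x < e i) :
    ∃ C : ℝ, ∀ t : ℂ, t ∈ upH → ball t (‖t - p‖ / 2) ⊆ O → ‖t - p‖ * ‖grad U t‖ ≤ C := by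
  have hs : upH ⊆ (Sl e)ᶜ := (h1 e ho).2.2.1
  obtain ⟨M, hM⟩ := hU.bdd δ hδ
  have key : ∀ z ∈ O, z ∉ Sl e → HarmonicAt U z ∧ |U z| ≤ M := fun z hz hz' =>
    ⟨hU.harm z ⟨hz', fun hq => by
      have := hO z hz z hq
      rw [sub_self, norm_zero] at this
      linarith⟩, hM z hz' (hO z hz)⟩
  have re : ∀ z ∈ Sl e, ((z.re : ℝ) : ℂ) = z := fun z hz => Complex.ext (by simp) (by simp [hz.1])
  obtain ⟨c, hc⟩ := side h1 ho hU _ hl
  obtain ⟨c', hc'⟩ := side h1 ho hU _ hr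
  refine ⟨32 * (M + |c| + |c'|), fun t ht hb => h2 U O t p M c c' ht hb
    (fun z hz => (key z hz.1 (hs hz.2)).1) (fun z hz => (key z hz.1 (hs hz.2)).2) ?_ ?_⟩
  · refine hc.imp (fun h x h1 h2 => h x ⟨h1, h2⟩) fun h z hz h2 => key z hz fun h3 => ?_
    exact h z.re ⟨by rwa [re z h3], h2⟩ (by rwa [re z h3])
  · refine hc'.imp (fun h x h1 h2 => h x ⟨h1, h2⟩) fun h z hz h2 => key z hz fun h3 => ?_
    exact h z.re ⟨by rwa [re z h3], h2⟩ (by rwa [re z h3])

theorem small {c : ℝ} (hc : 0 < c) : ∀ᶠ d : ℝ in 𝓝[>] 0, 2 * d ≤ c := by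
  filter_upwards [Ioo_mem_nhdsGT (half_pos hc)] with d hd
  linarith [hd.2]

theorem near (h1 : T_SPRE) (h2 : T_GB1) (ho : Od e) (hU : US e P U a b) (i : Fin 5) :
    ∃ C : ℝ, ∀ᶠ t : ℂ in 𝓝[upH] (e i : ℂ), ‖t - e i‖ * ‖grad U t‖ ≤ C := by
  have m : (e i : ℂ) ∈ Sl e := (h1 e ho).2.2.2.2.1 i
  have a1 : ∀ᶠ d : ℝ in 𝓝[>] 0, ∀ j, e j ≠ e i → 2 * d ≤ |e j - e i| := by
    refine eventually_all.2 fun j => ?_
    by_cases h : e j = e i
    · exact Eventually.of_forall fun d hd => absurd h hd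
    · exact (small (abs_pos.2 (sub_ne_zero.2 h))).mono fun d hd _ => hd
  have a2 : ∀ᶠ d : ℝ in 𝓝[>] 0, ∀ q ∈ P, 2 * d ≤ ‖(e i : ℂ) - q‖ :=
    (eventually_all_finite hU.fin).2 fun q hq =>
      small (norm_pos_iff.2 (sub_ne_zero.2 fun h => hU.sub hq (h ▸ m)))
  obtain ⟨d, ⟨d1, d2⟩, d0⟩ := ((a1.and a2).and self_mem_nhdsWithin).exists
  have d0 : 0 < d := d0
  have hx : ∀ x : ℝ, (x : ℂ) ∈ ball (e i : ℂ) d → |x - e i| < d := fun x h => by
    rwa [mem_ball, dist_eq_norm, ← ofReal_sub, norm_real, Real.norm_eq_abs] at h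
  obtain ⟨C, hC⟩ := core h1 h2 ho hU (ball (e i : ℂ) d) (e i) d d0 (fun z hz q hq => by
      have k1 := d2 q hq
      have k2 := norm_sub_le_norm_sub_add_norm_sub (e i : ℂ) z q
      rw [mem_ball, dist_comm, dist_eq_norm] at hz
      linarith)
    (fun j => by
      rcases lt_or_ge (e j) (e i) with h | h
      · refine Or.inl fun x hx' => ?_
        have k1 := d1 j h.ne
        have k2 := abs_lt.1 (hx x hx'.1)
        rw [abs_of_neg (sub_neg.2 h)] at k1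
        linarith [k2.1]
      · exact Or.inr fun x hx' => hx'.2.trans_le h)
    (fun j => by
      rcases lt_or_ge (e i) (e j) with h | h
      · refine Or.inr fun x hx' => ?_
        have k1 := d1 j h.ne'
        have k2 := abs_lt.1 (hx x hx'.1)
        rw [abs_of_pos (sub_pos.2 h)] at k1
        linarith [k2.2]
      · exact Or.inl fun x hx' => h.trans_lt hx'.2)
  refine ⟨C, ?_⟩
  filter_upwards [self_mem_nhdsWithin, mem_nhdsWithin_of_mem_nhds (ball_mem_nhds _ (half_pos d0))]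
    with t ht hb
  refine hC t ht fun z hz => ?_
  rw [mem_ball, dist_eq_norm] at hz hb ⊢
  have k2 := norm_sub_le_norm_sub_add_norm_sub z t (e i : ℂ)
  linarith

theorem far (h1 : T_SPRE) (h2 : T_GB1) (ho : Od e) (hU : US e P U a b) :
    ∃ C : ℝ, ∀ᶠ t in cocompact ℂ ⊓ 𝓟 upH, ‖t‖ * ‖grad U t‖ ≤ C := by
  have a1 : ∀ᶠ R : ℝ in atTop, ∀ j, |e j| ≤ R := eventually_all.2 fun j => eventually_ge_atTop _
  have a2 : ∀ᶠ R : ℝ in atTop, ∀ q ∈ P, ‖q‖ + 1 ≤ R :=
    (eventually_all_finite hU.fin).2 fun q _ => eventually_ge_atTop _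
  obtain ⟨R, d1, d2⟩ := (a1.and a2).exists
  have hx : ∀ x : ℝ, (x : ℂ) ∈ {z : ℂ | R < ‖z‖} → R < |x| := fun x h => by
    rwa [mem_ofPred_eq, norm_real, Real.norm_eq_abs] at h
  obtain ⟨C, hC⟩ := core h1 h2 ho hU {z : ℂ | R < ‖z‖} 0 1 one_pos (fun z hz q hq => by
      have k1 := d2 q hq
      have k2 := norm_sub_norm_le z q
      have k3 : R < ‖z‖ := hz
      linarith)
    (fun j => Or.inr fun x hx' => by
      have k1 := abs_le.1 (d1 j)
      have k2 := hx x hx'.1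
      rw [abs_of_neg hx'.2] at k2
      linarith [k1.1])
    (fun j => Or.inl fun x hx' => by
      have k1 := abs_le.1 (d1 j)
      have k2 := hx x hx'.1
      rw [abs_of_pos hx'.2] at k2
      linarith [k1.2])
  refine ⟨C, eventually_inf_principal.2 ?_⟩
  filter_upwards [(tendsto_norm_cocompact_atTop (E := ℂ)).eventually_gt_atTop (2 * R)] with t hb ht
  have := hC t ht fun z hz => by
    rw [mem_ball, dist_comm, dist_eq_norm, ofReal_zero, sub_zero] at hz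
    have k2 := norm_sub_norm_le t z
    show R < ‖z‖
    linarith
  rwa [ofReal_zero, sub_zero] at this

end TGbP

theorem t_gb (h1 : T_SPRE) (h2 : T_GB1) : T_GB := fun _ _ _ _ _ ho hU =>
  ⟨TGbP.near h1 h2 ho hU, TGbP.far h1 h2 ho hU⟩

end Pool.Agent.P.MP_3bd355_an
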