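import Pool.Agent.P.MP_3bd355_an.T.St

/-! The gradient bound near a straight part of the boundary. -/

open Set Filter Metric Complex InnerProductSpace
open scoped Topology ComplexConjugate Real

namespace Pool.Agent.P.MP_3bd355_an

namespace TGb0P

theorem fin {ρ C g : ℝ} (hρ : 0 < ρ) (h : g ≤ 4 * C / (ρ / 4)) : ρ * g ≤ 16 * C := by
  rw [le_div_iff₀ (by positivity)] at h
  linarith

theorem dist_cj (z t : ℂ) : dist (conj z) (conj t) = dist z t := by
  rw [dist_eq_norm, dist_eq_norm, ← map_sub, Complex.norm_conj]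

theorem sym {t : ℂ} {ρ : ℝ} {z : ℂ} (hz : z ∈ ball t ρ ∩ ball (conj t) ρ) :
    conj z ∈ ball t ρ ∩ ball (conj t) ρ := by
  refine ⟨?_, ?_⟩
  · rw [mem_ball, ← dist_cj, Complex.conj_conj]
    exact hz.2
  · rw [mem_ball, dist_cj]
    exact hz.1

end TGb0P

open TGb0P

theorem t_gb0 : T_GB0 := by
  intro U t ρ M a ht hρ hU hM ha
  have hM0 : 0 ≤ M := (abs_nonneg _).trans (hM t ⟨mem_ball_self hρ, ht⟩)
  rcases le_or_gt (ρ / 4) t.im with h | h
  · have hs : ball t (ρ / 4) ⊆ ball t ρ ∩ upH := fun z hz => by
      refine ⟨ball_subset_ball (by linarith) hz, ?_⟩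
      have h1 : |(z - t).im| ≤ ‖z - t‖ := abs_im_le_norm _
      rw [mem_ball, dist_eq_norm] at hz
      rw [sub_im] at h1
      change 0 < z.im
      linarith [(abs_le.1 h1).1]
    have := fin hρ (grad_bound (by positivity) (hU.mono hs) fun z hz => hM z (hs hz))
    linarith [abs_nonneg a]
  · have hs : ball t (ρ / 4) ⊆ ball t ρ ∩ ball (conj t) ρ := fun z hz => by
      refine ⟨ball_subset_ball (by linarith) hz, ?_⟩
      have h1 : dist t (conj t) = 2 * t.im := by
        rw [dist_eq_norm, Complex.sub_conj, norm_mul, Complex.norm_I, mul_one, Complex.norm_real,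
          Real.norm_of_nonneg (by linarith)]
      rw [mem_ball] at hz ⊢
      linarith [dist_triangle z t (conj t)]
    have hb : ∀ z ∈ ball t ρ, 0 < z.im → |U z - a| ≤ M + |a| := fun z hz hi =>
      (abs_sub _ _).trans (by linarith [hM z ⟨hz, hi⟩])
    have hh : HarmonicOnNhd (oddE fun z => U z - a) (ball t ρ ∩ ball (conj t) ρ) := by
      refine oddE_harm (isOpen_ball.inter isOpen_ball) (fun z hz => sym hz)
        (fun z hz => (hU z ⟨hz.1.1, hz.2⟩).sub (harmonicAt_const a)) fun x hx => ?_
      simpa using (ha x hx.1).sub_const a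
    have h2 := grad_bound (M := M + |a|) (by positivity : 0 < ρ / 4) (hh.mono hs) fun z hz => by
      rcases lt_trichotomy z.im 0 with hi | hi | hi
      · rw [oddE_low hi, abs_neg]
        exact hb _ (sym (hs hz)).1 (by simpa using hi)
      · rw [oddE_zero hi, abs_zero]
        positivity
      · rw [oddE_up hi]
        exact hb _ (hs hz).1 hi
    have e : grad (oddE fun z => U z - a) t = grad U t := by
      have : (oddE fun z => U z - a) =ᶠ[𝓝 t] fun z => U z - a := by
        filter_upwards [(isOpen_lt continuous_const Complex.continuous_im).mem_nhds ht] with z hz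
        exact oddE_up hz
      rw [grad_congr this]
      simp only [grad, fderiv_sub_const]
    rw [e] at h2
    exact fin hρ h2

end Pool.Agent.P.MP_3bd355_an
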