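import Pool.Agent.P.MP_3bd355_an.T.St

/-! The gradient bound near a branch point or near infinity. -/

open Set Filter Metric Complex InnerProductSpace
open scoped Topology ComplexConjugate Real

namespace Pool.Agent.P.MP_3bd355_an

theorem t_gb1 (h : T_GB0) : T_GB1 := by
  intro U O t p M a b ht hO hU hM ha hb
  have htp : 0 < ‖t - p‖ := by
    refine norm_pos_iff.2 fun h0 => ?_
    have := congrArg Complex.im h0
    simp at this
    linarith
  set ρ : ℝ := ‖t - p‖ / 2 with hρ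
  have hρ0 : 0 < ρ := by positivity
  have hM0 : 0 ≤ M := (abs_nonneg _).trans (hM t ⟨hO (mem_ball_self hρ0), ht⟩)
  have hU' : HarmonicOnNhd U (ball t ρ ∩ upH) := fun z hz => hU z ⟨hO hz.1, hz.2⟩
  have hM' : ∀ z ∈ ball t ρ ∩ upH, |U z| ≤ M := fun z hz => hM z ⟨hO hz.1, hz.2⟩
  have e : ‖t - p‖ = 2 * ρ := by rw [hρ]; ring
  have ha0 := abs_nonneg a
  have hb0 := abs_nonneg b
  have hre : ∀ z ∈ ball t ρ, |z.re - t.re| < ρ := fun z hz => by
    have h1 := abs_re_le_norm (z - t)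
    rw [mem_ball, dist_eq_norm] at hz
    rw [sub_re] at h1
    linarith
  have him : ∀ z ∈ ball t ρ, |z.im - t.im| < ρ := fun z hz => by
    have h1 := abs_im_le_norm (z - t)
    rw [mem_ball, dist_eq_norm] at hz
    rw [sub_im] at h1
    linarith
  have gb : (∀ z ∈ ball t ρ, HarmonicAt U z ∧ |U z| ≤ M) →
      ‖t - p‖ * ‖grad U t‖ ≤ 32 * (M + |a| + |b|) := fun hh => by
    have h1 := grad_bound hρ0 (fun z hz => (hh z hz).1) (fun z hz => (hh z hz).2)
    rw [le_div_iff₀ hρ0] at h1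
    rw [e]
    nlinarith
  have g0 : ∀ c : ℝ, |c| ≤ |a| + |b| →
      (∀ x : ℝ, (x : ℂ) ∈ ball t ρ → Tendsto U (𝓝[upH] (x : ℂ)) (𝓝 c)) →
      ‖t - p‖ * ‖grad U t‖ ≤ 32 * (M + |a| + |b|) := fun c hc hh => by
    have h1 := h U t ρ M c ht hρ0 hU' hM' hh
    rw [e]
    nlinarith
  rcases le_or_gt ρ (t.re - p) with h1 | h1
  · rcases hb with hb | hb
    · refine g0 b (by linarith) fun x hx => hb x (hO hx) ?_
      have := abs_lt.1 (hre _ hx)
      simp only [ofReal_re] at this
      linarith [this.1]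
    · refine gb fun z hz => hb z (hO hz) ?_
      linarith [(abs_lt.1 (hre _ hz)).1]
  rcases le_or_gt (t.re - p) (-ρ) with h2 | h2
  · rcases ha with ha | ha
    · refine g0 a (by linarith) fun x hx => ha x (hO hx) ?_
      have := abs_lt.1 (hre _ hx)
      simp only [ofReal_re] at this
      linarith [this.2]
    · refine gb fun z hz => ha z (hO hz) ?_
      linarith [(abs_lt.1 (hre _ hz)).2]
  refine g0 a (by linarith) fun x hx => ?_
  exfalso
  have h3 := norm_le_abs_re_add_abs_im (t - p)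
  have h4 := abs_lt.1 (him _ hx)
  simp only [sub_re, ofReal_re, sub_im, ofReal_im, sub_zero, zero_sub] at h3 h4
  rw [abs_of_pos ht, e] at h3
  have h5 : |t.re - p| < ρ := abs_lt.2 ⟨h2, h1⟩
  linarith [h4.1]

end Pool.Agent.P.MP_3bd355_an
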