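import Pool.Agent.P.MP_3bd355_an.T.St

/-! All components of a superlevel set meet a given connected set. -/

open Set Filter Metric Complex InnerProductSpace
open scoped Topology ComplexConjugate Real

namespace Pool.Agent.P.MP_3bd355_an

theorem t_gen : T_GEN := by
  intro W P S u c hW hb hu ⟨M, hM⟩ hS hP hPQ hls
  set Q := {z | z ∈ W ∧ c < u z}
  have ev : ∀ z ∈ W, c < u z → Q ∈ 𝓝 z := fun z hz h => inter_mem (hW.mem_nhds hz)
    ((harm_diff (hu z hz)).continuousAt.eventually (lt_mem_nhds h))
  have hQ : IsOpen Q := isOpen_iff_mem_nhds.2 fun z hz => ev z hz.1 hz.2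
  have meet : ∀ z ∈ Q, ∃ y ∈ P, y ∈ connectedComponentIn Q z := by
    intro z hz
    by_contra hne
    push Not at hne
    set D := connectedComponentIn Q z with hD
    have hDo : IsOpen D := hQ.connectedComponentIn
    have hDW : D ⊆ W := fun y hy => (connectedComponentIn_subset Q z hy).1
    refine absurd (((Sub.of_harm hu).mono hDW).mpx hDo (hb.subset hDW)
      ⟨M, fun y hy => hM y (hDW hy)⟩ hS (c := c) ?_ z (mem_connectedComponentIn hz))
      (not_le.2 hz.2)
    intro q hq hqS
    rw [hDo.frontier_eq] at hq
    by_cases hqW : q ∈ W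
    · refine LS.of_tendsto
        ((harm_diff (hu q hqW)).continuousAt.tendsto.mono_left nhdsWithin_le_nhds) ?_
      by_contra hlt
      have hqQ : q ∈ Q := ⟨hqW, not_le.1 hlt⟩
      obtain ⟨y, hy1, hy2⟩ := mem_closure_iff.1 hq.1 _ hQ.connectedComponentIn
        (mem_connectedComponentIn hqQ)
      apply hq.2
      rw [hD, connectedComponentIn_eq hy2, ← connectedComponentIn_eq hy1]
      exact mem_connectedComponentIn hqQ
    · rcases hls q (by rw [hW.frontier_eq]; exact ⟨closure_mono hDW hq.1, hqW⟩) hqS with h | h
      · exact h.mono hDW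
      · refine LS.of_eventually ?_
        filter_upwards [nhdsWithin_mono q hDW h, self_mem_nhdsWithin] with y a b
        exact absurd b (hne y a)
  refine isPreconnected_of_forall_pair fun a ha b hb' => ⟨connectedComponentIn Q a,
    connectedComponentIn_subset _ _, mem_connectedComponentIn ha, ?_,
    isPreconnected_connectedComponentIn⟩
  obtain ⟨p, hp, h1⟩ := meet a ha
  obtain ⟨q, hq, h2⟩ := meet b hb'
  rw [connectedComponentIn_eq h1,
    connectedComponentIn_eq (hP.subset_connectedComponentIn hp (show P ⊆ Q from hPQ) hq),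
    ← connectedComponentIn_eq h2]
  exact mem_connectedComponentIn hb'

end Pool.Agent.P.MP_3bd355_an
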