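import Pool.Agent.P.MP_3bd355_an.T.St

/-! The gradient of the Green function of the slit plane. -/

open Set Filter Metric Complex InnerProductSpace
open scoped Topology ComplexConjugate Real

namespace Pool.Agent.P.MP_3bd355_an

theorem t_gf (h1 : T_SPRE) (h2 : T_GF1) (h3 : T_GF3) : T_GF := by
  intro e t₀ G V a b C ho hG hV hC h0
  obtain ⟨l₀, l₁, hl⟩ := h3 e t₀ G V a b C ho hG hV hC h0
  obtain ⟨s1, s2, s3, -⟩ := h1 e ho
  refine ⟨l₀, l₁, fun t ht t1 t2 => ?_⟩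
  have fin : ({t₀, conj t₀} : Set ℂ).Finite := toFinite _
  have oU : IsOpen (upH \ {t₀, conj t₀}) :=
    (isOpen_lt continuous_const continuous_im).sdiff fin.isClosed
  have hD : ∀ z ∈ (Sl e)ᶜ \ {t₀, conj t₀}, z ∈ (Sl e)ᶜ ∧ z ≠ t₀ ∧ z ≠ conj t₀ := fun z hz =>
    ⟨hz.1, fun h => hz.2 (Or.inl h), fun h => hz.2 (Or.inr h)⟩
  have a1 : AnalyticOnNhd ℂ (grad G) ((Sl e)ᶜ \ {t₀, conj t₀}) := fun z hz =>
    grad_analytic (hG.harm z ⟨hz.1, (hD z hz).2.1⟩)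
  have a2 : AnalyticOnNhd ℂ (fun t => 1 / 2 * (1 / (t - conj t₀) - 1 / (t - t₀)) +
      grad V t * GK t₀ (grad V t₀)⁻¹ l₀ l₁ t) ((Sl e)ᶜ \ {t₀, conj t₀}) := fun z hz => by
    obtain ⟨z1, z2, z3⟩ := hD z hz
    have b1 : AnalyticAt ℂ (grad V) z := grad_analytic (hV.harm z ⟨z1, notMem_empty z⟩)
    have n1 := sub_ne_zero.2 z2
    have n2 := sub_ne_zero.2 z3
    have n3 : 2 * (z - t₀) ≠ 0 := mul_ne_zero two_ne_zero n1
    have n4 : 2 * (z - conj t₀) ≠ 0 := mul_ne_zero two_ne_zero n2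
    unfold GK
    fun_prop (disch := assumption)
  have up : ∀ z ∈ upH \ {t₀, conj t₀}, grad G z = 1 / 2 * (1 / (z - conj t₀) - 1 / (z - t₀)) +
      grad V z * GK t₀ (grad V t₀)⁻¹ l₀ l₁ z := fun z hz => by
    obtain ⟨z1, z2, z3⟩ := hD z ⟨s3 hz.1, hz.2⟩
    have e1 : (fun s => (G s + G (conj s)) / 2) =ᶠ[𝓝 z] fun s =>
        G s - (1 / 2 : ℝ) * (Real.log ‖s - conj t₀‖ - Real.log ‖s - t₀‖) := by
      filter_upwards [oU.mem_nhds hz] with s hs
      obtain ⟨-, c2, c3⟩ := hD s ⟨s3 hs.1, hs.2⟩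
      have := h2 e t₀ G ho hG s hs.1 c2 c3
      linarith
    have d1 : DifferentiableAt ℝ G z :=
      (hG.harm z ⟨z1, z2⟩).1.differentiableAt two_ne_zero
    have d2 : DifferentiableAt ℝ (fun s => Real.log ‖s - conj t₀‖) z :=
      (harm_log z3).1.differentiableAt two_ne_zero
    have d3 : DifferentiableAt ℝ (fun s => Real.log ‖s - t₀‖) z :=
      (harm_log z2).1.differentiableAt two_ne_zero
    rw [← hl z hz.1 z2 z3, grad_congr e1, grad_sub d1 ((d2.fun_sub d3).const_mul _), grad_const_mul,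
      grad_sub d2 d3, grad_log z3, grad_log z2]
    push_cast
    ring
  have n0 : ‖((‖t₀‖ + 1 : ℝ) : ℂ) * I‖ = ‖t₀‖ + 1 := by
    rw [norm_mul, norm_I, mul_one, norm_real, Real.norm_of_nonneg (by positivity)]
  have z0 : ((‖t₀‖ + 1 : ℝ) : ℂ) * I ∈ upH \ {t₀, conj t₀} := by
    refine ⟨?_, ?_⟩
    · show 0 < (((‖t₀‖ + 1 : ℝ) : ℂ) * I).im
      simp only [mul_im, ofReal_re, I_im, mul_one, ofReal_im, I_re, mul_zero, add_zero]
      positivity
    · rintro (h | h)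
      · rw [h] at n0; linarith
      · rw [mem_singleton_iff.1 h, norm_conj] at n0; linarith
  exact a1.eqOn_of_preconnected_of_eventuallyEq a2 (preconn_diff_finite s1 s2 fin)
    ⟨s3 z0.1, z0.2⟩ (eventually_of_mem (oU.mem_nhds z0) up) ⟨ht, fun h => h.elim t1 t2⟩

end Pool.Agent.P.MP_3bd355_an
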