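import Pool.Agent.P.MP_3bd355_an.T.St

/-! The antisymmetric part of the Green function of the slit plane. -/

open Set Filter Metric Complex InnerProductSpace
open scoped Topology ComplexConjugate Real

namespace Pool.Agent.P.MP_3bd355_an

namespace TGf1P

theorem log_sub_le {x y δ : ℝ} (hδ : 0 < δ) (hx : δ ≤ x) (hy : δ ≤ y) :
    Real.log x - Real.log y ≤ |x - y| / δ := by
  have hx0 : 0 < x := hδ.trans_le hx
  have hy0 : 0 < y := hδ.trans_le hy
  rw [← Real.log_div hx0.ne' hy0.ne']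
  refine (Real.log_le_sub_one_of_pos (div_pos hx0 hy0)).trans ?_
  have : x / y - 1 = (x - y) / y := by field_simp
  rw [this]
  exact (div_le_div_of_nonneg_right (le_abs_self _) hy0.le).trans
    (div_le_div_of_nonneg_left (abs_nonneg _) hδ hy)

theorem abs_log_sub {a b δ : ℝ} (hδ : 0 < δ) :
    |Real.log (max a δ) - Real.log (max b δ)| ≤ |a - b| / δ := by
  have h0 : |max a δ - max b δ| / δ ≤ |a - b| / δ :=
    div_le_div_of_nonneg_right (abs_max_sub_max_le_abs a b δ) hδ.le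
  have h1 := log_sub_le hδ (le_max_right a δ) (le_max_right b δ)
  have h2 := log_sub_le hδ (le_max_right b δ) (le_max_right a δ)
  rw [abs_sub_comm] at h2
  exact abs_le.2 ⟨by linarith, by linarith⟩

theorem norm_cj (t a : ℂ) : ‖conj t - a‖ = ‖t - conj a‖ := by
  rw [← Complex.norm_conj, map_sub, conj_conj]

theorem bdd {e : Fin 5 → ℝ} {t₀ : ℂ} {G : ℂ → ℝ} (h : GS e t₀ G) :
    ∃ δ > (0 : ℝ), ∃ M : ℝ, ∀ s ∈ (Sl e)ᶜ, s ≠ t₀ →
      |G s + Real.log ‖s - t₀‖ - Real.log (max ‖s - t₀‖ δ)| ≤ M := by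
  obtain ⟨R, hR, hG⟩ := h.pole
  have h1 : ∀ᶠ t in 𝓝 t₀, |R t| < |R t₀| + 1 :=
    (harm_diff hR).continuousAt.abs.eventually_lt continuousAt_const (by linarith)
  have h2 := (eventually_nhdsWithin_iff.1 hG).and h1
  obtain ⟨δ, hδ, h3⟩ := Metric.eventually_nhds_iff.1 h2
  obtain ⟨M, hM⟩ := h.bdd δ hδ
  refine ⟨δ, hδ, max M (|R t₀| + 1 + |Real.log δ|), fun s hs hs0 => ?_⟩
  rcases le_or_gt δ ‖s - t₀‖ with k | k
  · rw [max_eq_left k, add_sub_cancel_right]
    exact (hM s hs k).trans (le_max_left _ _)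
  · obtain ⟨k1, k2⟩ := h3 (show dist s t₀ < δ by rwa [dist_eq_norm])
    rw [max_eq_right k.le, k1 hs0, sub_add_cancel]
    exact ((abs_sub _ _).trans (by linarith)).trans (le_max_right _ _)

end TGf1P

open TGf1P

theorem t_gf1 (h : T_SPRE) : T_GF1 := by
  intro e t₀ G he hG
  obtain ⟨ho, -, hu, hc, -, -, hx⟩ := h e he
  set G1 : ℂ → ℝ := fun t => G t + Real.log ‖t - t₀‖ with hG1
  set D : ℂ → ℝ := fun t => G1 t - G1 (conj t) with hD
  set U : Set ℂ := upH \ {t₀, conj t₀} with hU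
  have hUo : IsOpen U := isOpen_upH.sdiff (toFinite _).isClosed
  have h1 : ∀ s ∈ (Sl e)ᶜ, s ≠ t₀ → HarmonicAt G1 s := fun s hs hs0 =>
    (hG.harm s ⟨hs, hs0⟩).add (harm_log hs0)
  have hm : ∀ t ∈ U, (t ∈ (Sl e)ᶜ ∧ t ≠ t₀) ∧ conj t ∈ (Sl e)ᶜ ∧ conj t ≠ t₀ := fun t ht =>
    ⟨⟨hu ht.1, fun k => ht.2 (Or.inl k)⟩, fun k => hu ht.1 ((hc t).1 k),
      fun k => ht.2 (Or.inr (by rw [← k, conj_conj]; rfl))⟩
  have hDh : HarmonicOnNhd D U := fun t ht =>
    (h1 t (hm t ht).1.1 (hm t ht).1.2).sub (harm_conj (h1 _ (hm t ht).2.1 (hm t ht).2.2))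
  obtain ⟨δ, hδ, M, hM⟩ := bdd hG
  have hb : ∀ t ∈ U, |D t| ≤ 2 * M + ‖t₀ - conj t₀‖ / δ := fun t ht => by
    have k1 := hM t (hm t ht).1.1 (hm t ht).1.2
    have k2 := hM _ (hm t ht).2.1 (hm t ht).2.2
    have k3 := abs_log_sub (a := ‖t - t₀‖) (b := ‖conj t - t₀‖) hδ
    have k4 : |‖t - t₀‖ - ‖conj t - t₀‖| ≤ ‖t₀ - conj t₀‖ := by
      rw [norm_cj]
      refine (abs_norm_sub_norm_le _ _).trans_eq ?_
      rw [← norm_neg]
      congr 1
      ring
    have k5 := div_le_div_of_nonneg_right k4 hδ.le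
    rw [abs_le] at k1 k2 k3 ⊢
    simp only [hD, hG1]
    exact ⟨by linarith [k1.1, k2.2, k3.1], by linarith [k1.2, k2.1, k3.2]⟩
  have hS : (({t₀, conj t₀} : Set ℂ) ∪ range fun i => (e i : ℂ)).Finite :=
    (toFinite _).union (finite_range _)
  have hf : ∀ p ∈ frontier U, p ∉ (({t₀, conj t₀} : Set ℂ) ∪ range fun i => (e i : ℂ)) →
      Tendsto D (𝓝[U] p) (𝓝 0) := by
    intro p hp hpS
    have p1 : p ∉ ({t₀, conj t₀} : Set ℂ) := fun k => hpS (Or.inl k)
    have p0 : p ≠ t₀ := fun k => p1 (Or.inl k)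
    rw [hUo.frontier_eq] at hp
    have p2 : 0 ≤ p.im := by
      have : closure U ⊆ {z : ℂ | 0 ≤ z.im} :=
        closure_minimal (fun z hz => le_of_lt (show 0 < z.im from hz.1)) (isClosed_le continuous_const continuous_im)
      exact this hp.1
    have p3 : p.im = 0 := by
      by_contra k
      exact hp.2 ⟨lt_of_le_of_ne p2 (Ne.symm k), p1⟩
    have p4 : conj p = p := conj_eq_iff_im.2 p3
    have p5 : (p.re : ℂ) = p := by rw [← conj_eq_iff_re]; exact p4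
    have t1 : Tendsto (fun t : ℂ => t) (𝓝[U] p) (𝓝[(Sl e)ᶜ] p) :=
      tendsto_id'.2 (nhdsWithin_mono _ fun t ht => (hm t ht).1.1)
    have t2 : Tendsto (fun t : ℂ => conj t) (𝓝[U] p) (𝓝[(Sl e)ᶜ] p) := by
      refine tendsto_nhdsWithin_iff.2 ⟨?_, eventually_nhdsWithin_of_forall
        fun t ht => (hm t ht).2.1⟩
      have := (continuous_conj.tendsto p).mono_left (nhdsWithin_le_nhds (s := U))
      rwa [p4] at this
    have key : ∃ c, Tendsto G1 (𝓝[(Sl e)ᶜ] p) (𝓝 c) := by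
      by_cases k : p ∈ Sl e
      · have k0 : Tendsto G (𝓝[(Sl e)ᶜ] p) (𝓝 0) := by
          rw [← p5] at k ⊢
          rcases hx p.re k (fun i k' => hpS (Or.inr ⟨i, by rw [← p5, k']⟩)) with k1 | k1 | k1
          exacts [hG.lim.al _ k1, hG.lim.be _ k1, hG.lim.ze _ k1]
        exact ⟨_, k0.add ((harm_diff (harm_log p0)).continuousAt.tendsto.mono_left
          nhdsWithin_le_nhds)⟩
      · exact ⟨_, (harm_diff (h1 p k p0)).continuousAt.tendsto.mono_left nhdsWithin_le_nhds⟩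
    obtain ⟨c, hc'⟩ := key
    have := (hc'.comp t1).sub (hc'.comp t2)
    rwa [sub_self] at this
  have hd : Disjoint (ball (-(2 * I)) 1) U := disjoint_left.2 fun z hz hz' => by
    have k1 := Complex.abs_im_le_norm (z - -(2 * I))
    rw [mem_ball, dist_eq_norm] at hz
    have k2 : (z - -(2 * I)).im = z.im + 2 := by simp
    have k3 : 0 < z.im := hz'.1
    rw [k2, abs_le] at k1
    linarith [k1.2]
  have le1 := (Sub.of_harm hDh).mpx_unb hUo one_pos hd
    ⟨_, fun t ht => (le_abs_self _).trans (hb t ht)⟩ hS (c := 0)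
    fun p hp hpS => LS.of_tendsto (hf p hp hpS) le_rfl
  have le2 := (Sub.of_harm (u := fun z => -D z) fun t ht => (hDh t ht).neg).mpx_unb hUo one_pos hd
    ⟨_, fun t ht => (neg_le_abs _).trans (hb t ht)⟩ hS (c := 0)
    fun p hp hpS => LS.of_tendsto (hf p hp hpS).neg (by simp)
  intro t ht k1 k2
  have hmem : t ∈ U := ⟨ht, fun k => k.elim k1 k2⟩
  have a1 := le1 t hmem
  have a2 := le2 t hmem
  simp only [hD, hG1, norm_cj] at a1 a2
  linarith

end Pool.Agent.P.MP_3bd355_an
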