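import Pool.Agent.P.MP_3bd355_an.T.St

/-! The symmetric part of the Green function of the slit plane. -/

open Set Filter Metric Complex InnerProductSpace
open scoped Topology ComplexConjugate Real

namespace Pool.Agent.P.MP_3bd355_an

namespace TGf2P

theorem ev_ne (c a : ℂ) : ∀ᶠ t in 𝓝[≠] c, t ≠ a := by
  by_cases h : c = a
  · subst h
    exact self_mem_nhdsWithin
  · exact (eventually_ne_nhds h).filter_mono nhdsWithin_le_nhds

theorem cj_ne (c : ℂ) : Tendsto (fun t : ℂ => conj t) (𝓝[≠] c) (𝓝[≠] (conj c)) := by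
  refine tendsto_nhdsWithin_iff.2 ⟨(continuous_conj.tendsto c).mono_left nhdsWithin_le_nhds, ?_⟩
  filter_upwards [self_mem_nhdsWithin] with t ht
  intro h
  exact ht ((starRingEnd ℂ).injective h)

theorem cj_in {S : Set ℂ} (hS : ∀ t, conj t ∈ S ↔ t ∈ S) (s : ℝ) :
    Tendsto (fun t : ℂ => conj t) (𝓝[Sᶜ] (s : ℂ)) (𝓝[Sᶜ] (s : ℂ)) := by
  refine tendsto_nhdsWithin_iff.2 ⟨?_, ?_⟩
  · have h := (continuous_conj.tendsto (s : ℂ)).mono_left (nhdsWithin_le_nhds (s := Sᶜ))
    rwa [conj_ofReal] at h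
  · filter_upwards [self_mem_nhdsWithin] with t ht
    exact fun h => ht ((hS t).1 h)

theorem cj_inf {S : Set ℂ} (hS : ∀ t, conj t ∈ S ↔ t ∈ S) :
    Tendsto (fun t : ℂ => conj t) (cocompact ℂ ⊓ 𝓟 Sᶜ) (cocompact ℂ ⊓ 𝓟 Sᶜ) := by
  refine Tendsto.inf ?_ (tendsto_principal_principal.2 fun t ht h => ht ((hS t).1 h))
  rw [← Metric.cobounded_eq_cocompact, ← tendsto_norm_atTop_iff_cobounded]
  simpa using tendsto_norm_cobounded_atTop (E := ℂ)

theorem avg {l : Filter ℂ} {G : ℂ → ℝ} (h1 : Tendsto G l (𝓝 0))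
    (h2 : Tendsto (fun t : ℂ => conj t) l l) :
    Tendsto (fun t => (G t + G (conj t)) / 2) l (𝓝 0) := by
  simpa using (h1.add (h1.comp h2)).div_const 2

open Classical in
theorem res {e : Fin 5 → ℝ} {t₀ : ℂ} {G : ℂ → ℝ} (hG : GS e t₀ G) {c : ℂ} (hc : c ∈ (Sl e)ᶜ) :
    Tendsto (fun t => (t - c) * grad G t) (𝓝[≠] c) (𝓝 (if c = t₀ then -1 else 0)) := by
  have h0 : ∀ u : ℂ → ℝ, HarmonicAt u c →
      Tendsto (fun t => (t - c) * grad u t) (𝓝[≠] c) (𝓝 0) := by
    intro u hu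
    have h1 : ContinuousAt (fun t => (t - c) * grad u t) c :=
      (continuousAt_id.sub continuousAt_const).mul (grad_analytic hu).continuousAt
    have h2 := h1.tendsto.mono_left (nhdsWithin_le_nhds (s := {c}ᶜ))
    simpa using h2
  split_ifs with h
  · subst h
    obtain ⟨R, hR, hE⟩ := hG.pole
    have h1 := (h0 R hR).sub_const 1
    rw [zero_sub] at h1
    refine h1.congr' ?_
    filter_upwards [eventually_eventually_nhdsWithin.2 hE, self_mem_nhdsWithin,
      hR.eventually.filter_mono nhdsWithin_le_nhds] with t h2 h3 h4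
    have h5 : t ≠ c := h3
    rw [(isOpen_compl_singleton).nhdsWithin_eq h3] at h2
    have h6 : grad G t = grad (fun y => R y - Real.log ‖y - c‖) t := grad_congr h2
    rw [h6, grad_sub (h4.1.differentiableAt (by simp))
      ((harm_log h5).1.differentiableAt (by simp)), grad_log h5]
    have h7 : t - c ≠ 0 := sub_ne_zero.2 h5
    field_simp
  · exact h0 G (hG.harm c ⟨hc, h⟩)

open Classical in
theorem res2 {e : Fin 5 → ℝ} {t₀ : ℂ} {G : ℂ → ℝ} (hG : GS e t₀ G) (ho : IsOpen (Sl e)ᶜ)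
    (hS : ∀ t, conj t ∈ Sl e ↔ t ∈ Sl e) {c : ℂ} (hc : c ∈ (Sl e)ᶜ) :
    Tendsto (fun t => (t - c) * grad (fun s => (G s + G (conj s)) / 2) t) (𝓝[≠] c)
      (𝓝 (((if c = t₀ then -1 else 0) + (if conj c = t₀ then -1 else 0)) / 2)) := by
  have h1 := res hG hc
  have h2 := (continuous_conj.tendsto _).comp
    ((res hG (c := conj c) fun h => hc ((hS c).1 h)).comp (cj_ne c))
  have h3 : (conj (if conj c = t₀ then -1 else 0 : ℂ) : ℂ) = if conj c = t₀ then -1 else 0 := by
    split_ifs <;> simp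
  rw [h3] at h2
  refine ((h1.add h2).div_const 2).congr' ?_
  filter_upwards [ev_ne c t₀, ev_ne c (conj t₀),
    (show ∀ᶠ t in 𝓝 c, t ∈ (Sl e)ᶜ from ho.mem_nhds hc).filter_mono nhdsWithin_le_nhds]
    with t a b d
  have k1 : HarmonicAt G t := hG.harm t ⟨d, a⟩
  have k2 : HarmonicAt G (conj t) := hG.harm _ ⟨fun h => d ((hS t).1 h), fun h => b (by
    rw [← show conj t = t₀ from h, conj_conj])⟩
  have k3 : (fun s => (G s + G (conj s)) / 2) = fun s => (1 / 2 : ℝ) * (G s + G (conj s)) := by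
    funext s
    ring
  rw [k3, grad_const_mul, grad_add (k1.1.differentiableAt (by simp))
    ((harm_conj k2).1.differentiableAt (by simp)), grad_cj]
  simp only [Function.comp, map_mul, map_sub, conj_conj]
  push_cast
  ring

end TGf2P

open TGf2P in
theorem t_gf2 (h : T_SPRE) : T_GF2 := by
  intro e t₀ G he hG
  obtain ⟨ho, -, -, hS, -⟩ := h e he
  have hm : conj t₀ ∈ (Sl e)ᶜ := fun k => hG.mem ((hS _).1 k)
  refine ⟨⟨toFinite _, ?_, ?_, ?_, ?_, ?_⟩, ?_, ?_⟩
  · rintro t (rfl | rfl)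
    exacts [hG.mem, hm]
  · rintro t ⟨d, k⟩
    simp only [mem_insert_iff, mem_singleton_iff, not_or] at k
    have k1 : HarmonicAt G t := hG.harm t ⟨d, k.1⟩
    have k2 : HarmonicAt G (conj t) := hG.harm _ ⟨fun h => d ((hS t).1 h), fun h => k.2 (by
      rw [← show conj t = t₀ from h, conj_conj])⟩
    have k3 : (fun s => (G s + G (conj s)) / 2) = fun s => (1 / 2 : ℝ) * (G s + G (conj s)) := by
      funext s
      ring
    rw [k3]
    exact harm_const_mul (k1.add (harm_conj k2)) _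
  · intro t _
    simp only [conj_conj]
    ring
  · intro δ hδ
    obtain ⟨M, hM⟩ := hG.bdd δ hδ
    refine ⟨M, fun t d k => ?_⟩
    have k1 := hM t d (k t₀ (by simp))
    have k2 := hM (conj t) (fun h => d ((hS t).1 h)) (by
      have k3 := k (conj t₀) (by simp)
      rwa [← Complex.norm_conj, map_sub, conj_conj] at k3)
    rw [abs_le] at k1 k2 ⊢
    constructor <;> linarith [k1.1, k1.2, k2.1, k2.2]
  · exact ⟨fun s hs => avg (hG.lim.al s hs) (cj_in hS s), fun s hs => avg (hG.lim.be s hs)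
      (cj_in hS s), fun s hs => avg (hG.lim.ze s hs) (cj_in hS s), avg hG.lim.inf (cj_inf hS)⟩
  · have k := res2 hG ho hS hG.mem
    convert k using 2
    by_cases h0 : t₀.im = 0
    · rw [if_pos h0, if_pos rfl, if_pos (conj_eq_iff_im.2 h0)]
      norm_num
    · rw [if_neg h0, if_pos rfl, if_neg fun k => h0 (conj_eq_iff_im.1 k)]
      norm_num
  · have k := res2 hG ho hS hm
    convert k using 2
    by_cases h0 : t₀.im = 0
    · rw [if_pos h0, if_pos (conj_conj t₀), if_pos (conj_eq_iff_im.2 h0)]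
      norm_num
    · rw [if_neg h0, if_pos (conj_conj t₀), if_neg fun k => h0 (conj_eq_iff_im.1 k)]
      norm_num

end Pool.Agent.P.MP_3bd355_an
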