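import Pool.Agent.P.MP_3bd355_an.T.St

/-! A connected one sided neighbourhood of a connected set. -/

set_option autoImplicit false

open Set Filter Metric Complex InnerProductSpace
open scoped Topology ComplexConjugate Real

namespace Pool.Agent.P.MP_3bd355_an

theorem t_gnb : T_GNB := by
  intro U J O hJ hcl hloc hO
  choose! V hV using fun p hp => hloc p hp _ (eventually_nhdsWithin_iff.1 (hO p hp))
  refine ⟨⋃ p ∈ J, V p ∩ U, ?_, ?_, fun p hp => ?_⟩
  · refine IsPreconnected.biUnion_of_reflTransGen (fun p hp => (hV p hp).2.2.2) fun p hp q hq => ?_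
    refine hJ.induction₂' (Relation.ReflTransGen fun i j =>
      ((V i ∩ U) ∩ (V j ∩ U)).Nonempty ∧ i ∈ J) (fun x hx => ?_)
      (fun _ _ _ _ _ _ => Relation.ReflTransGen.trans) hp hq
    filter_upwards [nhdsWithin_le_nhds ((hV x hx).1.mem_nhds (hV x hx).2.1), self_mem_nhdsWithin]
      with y hy hyJ
    obtain ⟨z, ⟨h1, h2⟩, h3⟩ := mem_closure_iff.1 (hcl hyJ) _ ((hV x hx).1.inter (hV y hyJ).1)
      ⟨hy, (hV y hyJ).2.1⟩
    exact ⟨.single ⟨⟨z, ⟨h1, h3⟩, h2, h3⟩, hx⟩, .single ⟨⟨z, ⟨h2, h3⟩, h1, h3⟩, hyJ⟩⟩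
  · refine iUnion₂_subset fun p hp z hz => ⟨(hV p hp).2.2.1 hz.1 hz.2, hz.2⟩
  · filter_upwards [nhdsWithin_le_nhds ((hV p hp).1.mem_nhds (hV p hp).2.1), self_mem_nhdsWithin]
      with z h1 h2
    exact mem_biUnion hp ⟨h1, h2⟩

end Pool.Agent.P.MP_3bd355_an
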