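import Pool.Agent.P.MP_3bd355_an.T.St

/-! Integration of the gradient along vertical rays. -/

open Set Filter Metric Complex InnerProductSpace
open scoped Topology ComplexConjugate Real

namespace Pool.Agent.P.MP_3bd355_an

namespace THvP

theorem ray_mem {t : ℂ} (ht : 0 ≤ t.im) {y : ℝ} (hy : 0 < y) : t + y * I ∈ upH := by
  change 0 < (t + y * I).im
  simp only [add_im, mul_im, ofReal_re, I_im, mul_one, ofReal_im, I_re, mul_zero, add_zero]
  linarith

theorem ray_inf (t : ℂ) : Tendsto (fun y : ℝ => t + y * I) atTop (cocompact ℂ) := by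
  rw [← Metric.cobounded_eq_cocompact, ← tendsto_norm_atTop_iff_cobounded]
  refine tendsto_atTop_mono (fun y => ?_) (tendsto_atTop_add_const_left atTop t.im tendsto_id)
  have h := (le_abs_self _).trans (abs_im_le_norm (t + y * I))
  simpa using h

theorem key (h1 : T_SPRE) (h2 : T_RT1) (h3 : T_RT2) {e : Fin 5 → ℝ} {V : ℂ → ℝ} {a b C : ℝ}
    (he : Od e) (hV : US e ∅ V a b) (hC : ∀ t ∈ upH, grad V t * Rt e t = C) {t : ℂ}
    (ht : 0 ≤ t.im) (hi : ∀ i, t ≠ e i) {d : ℝ}
    (hd : Tendsto (fun y : ℝ => V (t + y * I)) (𝓝[>] 0) (𝓝 d)) :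
    d = C * ∫ y in Ioi (0 : ℝ), (1 / Rt e (t + y * I)).im := by
  have hs := (h1 e he).2.2.1
  have hne : ∀ y : ℝ, 0 < y → ∀ᶠ x in 𝓝 y,
      Function.update (fun y : ℝ => V (t + y * I)) 0 d x = V (t + x * I) := fun y hy =>
    (lt_mem_nhds hy).mono fun x hx => Function.update_of_ne hx.ne' _ _
  have h := MeasureTheory.integral_Ioi_of_hasDerivAt_of_tendsto
    (f := Function.update (fun y : ℝ => V (t + y * I)) 0 d)
    (f' := fun y : ℝ => -C * (1 / Rt e (t + y * I)).im) (a := 0) (m := 0) ?_ ?_ ?_ ?_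
  · rw [MeasureTheory.integral_const_mul, Function.update_self] at h
    linarith
  · rw [continuousWithinAt_update_same]
    simpa using hd
  · intro y hy
    have hz := ray_mem ht hy
    have k1 : DifferentiableAt ℝ V (t + y * I) := harm_diff (hV.harm _ ⟨hs hz, notMem_empty _⟩)
    have k2 : HasDerivAt (fun x : ℝ => t + x * I) I y := by
      simpa using ((ofRealCLM.hasDerivAt (x := y)).mul_const I).const_add t
    have k3 := k1.hasFDerivAt.comp_hasDerivAt y k2
    have k4 : grad V (t + y * I) = C * (1 / Rt e (t + y * I)) := by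
      rw [← hC _ hz, mul_one_div, mul_div_cancel_right₀ _ ((h2 e he).1 _ hz).2]
    rw [fderiv_eq_grad, k4] at k3
    refine (k3.congr_of_eventuallyEq (hne y hy)).congr_deriv ?_
    simp only [mul_re, I_re, mul_zero, mul_im, ofReal_re, ofReal_im, zero_mul, add_zero, I_im,
      mul_one, zero_sub, neg_mul]
  · exact ((h3 e).2.2 t ht hi).const_mul _
  · have k : Tendsto (fun y : ℝ => t + y * I) atTop (cocompact ℂ ⊓ 𝓟 (Sl e)ᶜ) :=
      tendsto_inf.2 ⟨ray_inf t, tendsto_principal.2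
        ((eventually_gt_atTop 0).mono fun y hy => hs (ray_mem ht hy))⟩
    refine (hV.lim.inf.comp k).congr' ((eventually_gt_atTop 0).mono fun y hy => ?_)
    exact ((hne y hy).self_of_nhds).symm

theorem onSl (h1 : T_SPRE) (h2 : T_RT1) (h3 : T_RT2) {e : Fin 5 → ℝ} {V : ℂ → ℝ} {a b C : ℝ}
    (he : Od e) (hV : US e ∅ V a b) (hC : ∀ t ∈ upH, grad V t * Rt e t = C) {s d : ℝ}
    (hi : ∀ i, s ≠ e i) (hd : Tendsto V (𝓝[(Sl e)ᶜ] (s : ℂ)) (𝓝 d)) : HV C e s = d := by
  have k := (tendsto_vert s).mono_right (nhdsWithin_mono _ (h1 e he).2.2.1)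
  rw [key h1 h2 h3 he hV hC (t := s) (by simp) (fun i h => hi i (by exact_mod_cast h))
    (hd.comp k)]
  simp [HV]

end THvP

open THvP

theorem t_hv (h1 : T_SPRE) (h2 : T_RT1) (h3 : T_RT2) : T_HV := by
  intro e V a b C he hV hC
  obtain ⟨o0, o1, o2, o3⟩ := id he
  refine ⟨fun t ht => ?_, onSl h1 h2 h3 he hV hC (fun i => ?_)
    (hV.lim.al _ ⟨by linarith, by linarith⟩), onSl h1 h2 h3 he hV hC (fun i => ?_)
    (hV.lim.be _ ⟨by linarith, by linarith⟩)⟩
  · obtain ⟨-, -, -, hc, hi, -⟩ := h1 e he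
    have k : ∀ s : ℂ, s ∈ (Sl e)ᶜ → 0 ≤ s.im →
        V s = C * ∫ y in Ioi (0 : ℝ), (1 / Rt e (s + y * I)).im := fun s hs h0 => by
      refine key h1 h2 h3 he hV hC h0 (fun i h => hs (h ▸ hi i)) ?_
      have k1 : ContinuousAt V s := (harm_diff (hV.harm _ ⟨hs, notMem_empty _⟩)).continuousAt
      have k2 : Tendsto (fun y : ℝ => s + y * I) (𝓝 0) (𝓝 s) := by
        have : Continuous fun y : ℝ => s + y * I := by fun_prop
        simpa using this.tendsto 0
      exact (k1.tendsto.comp k2).mono_left nhdsWithin_le_nhds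
    unfold HV
    rcases le_total 0 t.im with h0 | h0
    · have k3 : ∀ y : ℝ, (t.re : ℂ) + ((|t.im| : ℝ) + y) * I = t + y * I := fun y => by
        rw [abs_of_nonneg h0, add_mul, ← add_assoc, re_add_im]
      simp only [k3]
      exact k t ht h0
    · have k3 : ∀ y : ℝ, (t.re : ℂ) + ((|t.im| : ℝ) + y) * I = conj t + y * I := fun y => by
        rw [abs_of_nonpos h0, add_mul, ← add_assoc]
        congr 1
        exact re_add_im (conj t)
      simp only [k3]
      rw [← hV.sym t ⟨ht, notMem_empty _⟩]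
      exact k _ (fun h => ht ((hc t).1 h)) (by simpa using h0)
  · fin_cases i <;> simp only [Fin.zero_eta, Fin.mk_one, Fin.reduceFinMk] <;> intro h <;> linarith
  · fin_cases i <;> simp only [Fin.zero_eta, Fin.mk_one, Fin.reduceFinMk] <;> intro h <;> linarith

end Pool.Agent.P.MP_3bd355_an
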