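import Pool.Agent.P.MP_3bd355_an.T.St

/-! The gradient times the square root satisfies the conditions of the Liouville argument. -/

open Set Filter Metric Complex InnerProductSpace
open scoped Topology ComplexConjugate Real

namespace Pool.Agent.P.MP_3bd355_an

namespace TKvP

theorem offSl {O : Set ℂ} {U : ℂ → ℝ} {x : ℝ} (hO : IsOpen O) (hx : (x : ℂ) ∈ O)
    (hU : HarmonicOnNhd U O) (hs : ∀ t ∈ O, U (conj t) = U t) : ∃ c, RA (grad U) x c := by
  refine ⟨_, RA.of_ana (grad_analytic (hU _ hx)) ?_⟩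
  filter_upwards [(continuous_ofReal.tendsto x).eventually (hO.mem_nhds hx)] with t ht
  have h1 : (fun y => U (conj y)) =ᶠ[𝓝 (t : ℂ)] U := by
    filter_upwards [hO.mem_nhds ht] with y hy using hs y hy
  have h2 := grad_cj U t
  rw [grad_congr h1, conj_ofReal] at h2
  exact conj_eq_iff_im.1 h2.symm

theorem onSl {U : ℂ → ℝ} {x k : ℝ} (hU : ∀ᶠ η : ℂ in 𝓝[upH] (x : ℂ), HarmonicAt U η)
    (h0 : ∀ᶠ t : ℝ in 𝓝 x, Tendsto U (𝓝[upH] (t : ℂ)) (𝓝 k)) :
    ∃ c, RA (fun η => -I * grad U η) x c := by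
  obtain ⟨Φ, hΦ⟩ := refAt_of_tendsto (u := fun η => U η - k) (x := x)
    (hU.mono fun η h => h.sub (harmonicAt_const k))
    (h0.mono fun t h => by simpa using h.sub_const k)
  have h1 : RA (fun η => -deriv Φ η) x _ :=
    RA.of_ana hΦ.1.deriv.neg (hΦ.deriv_im.mono fun t h => by simpa using h)
  refine ⟨_, h1.congr ?_⟩
  filter_upwards [hΦ.grad] with η h
  have h2 : grad (fun η => U η - k) η = grad U η := by
    unfold grad
    rw [fderiv_sub_const]
  rw [← h2, h]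
  linear_combination (deriv Φ η) * I_mul_I

end TKvP

open TKvP in
theorem t_kv (h1 : T_SPRE) (h2 : T_GB) (h3 : T_RT1) (h4 : T_RT2) : T_KV := by
  intro e P U a b he hU
  obtain ⟨s1, -, s3, -, -, -, s7⟩ := h1 e he
  obtain ⟨g1, C, g2⟩ := h2 e P U a b he hU
  obtain ⟨r1, -, r3⟩ := h3 e he
  obtain ⟨q1, ⟨D, q2⟩, -⟩ := h4 e
  have hP : IsClosed P := hU.fin.isClosed
  refine ⟨fun t ht hp => (grad_analytic (hU.harm t ⟨s3 ht, hp⟩)).mul (r1 t ht).1,
    fun x hx hi => ?_, fun i => ?_, C * |D|, ?_⟩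
  · by_cases hs : (x : ℂ) ∈ Sl e
    · obtain ⟨c, hc⟩ := (r3 x hi).2 hs
      have k1 : ∀ᶠ η : ℂ in 𝓝[upH] (x : ℂ), HarmonicAt U η := by
        filter_upwards [self_mem_nhdsWithin,
          mem_nhdsWithin_of_mem_nhds (hP.isOpen_compl.mem_nhds hx)] with η a b
        exact hU.harm η ⟨s3 a, b⟩
      have k2 : ∃ k : ℝ, ∀ᶠ t : ℝ in 𝓝 x, Tendsto U (𝓝[(Sl e)ᶜ] (t : ℂ)) (𝓝 k) := by
        rcases s7 x hs hi with h | h | h
        · exact ⟨a, (isOpen_Ioo.eventually_mem h).mono hU.lim.al⟩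
        · exact ⟨b, (isOpen_Ioo.eventually_mem h).mono hU.lim.be⟩
        · exact ⟨0, (gt_mem_nhds h).mono hU.lim.ze⟩
      obtain ⟨k, k2⟩ := k2
      obtain ⟨d, hd⟩ := onSl k1 (k2.mono fun t h => h.mono_left (nhdsWithin_mono _ s3))
      refine ⟨_, (hd.mul hc).congr (Eventually.of_forall fun η => ?_)⟩
      linear_combination (grad U η * Rt e η) * I_mul_I
    · obtain ⟨c, hc⟩ := (r3 x hi).1 hs
      obtain ⟨d, hd⟩ := offSl (s1.sdiff hP) ⟨hs, hx⟩ hU.harm hU.sym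
      exact ⟨_, hd.mul hc⟩
  · obtain ⟨K, hK⟩ := g1 i
    have h5 : Tendsto (fun t => K * ‖Rt e t‖) (𝓝[upH] (e i : ℂ)) (𝓝 0) := by
      simpa using (q1 i).norm.const_mul K
    refine squeeze_zero_norm' ?_ h5
    filter_upwards [hK] with t ht
    rw [norm_mul, norm_mul, ← mul_assoc]
    exact mul_le_mul_of_nonneg_right ht (norm_nonneg _)
  · filter_upwards [g2, mem_inf_of_left q2] with t a b
    have h5 : ‖Rt e t‖ ≤ |D| * (‖t‖ ^ 2 * √‖t‖) :=
      b.trans (mul_le_mul_of_nonneg_right (le_abs_self D) (by positivity))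
    calc ‖grad U t * Rt e t‖ ≤ ‖grad U t‖ * (|D| * (‖t‖ ^ 2 * √‖t‖)) := by
          rw [norm_mul]
          exact mul_le_mul_of_nonneg_left h5 (norm_nonneg _)
      _ = ‖t‖ * ‖grad U t‖ * (|D| * (‖t‖ * √‖t‖)) := by ring
      _ ≤ C * (|D| * (‖t‖ * √‖t‖)) := mul_le_mul_of_nonneg_right a (by positivity)
      _ = C * |D| * (‖t‖ * √‖t‖) := by ring

end Pool.Agent.P.MP_3bd355_an
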