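import Pool.Agent.P.MP_3bd355_an.T.St

/-! All level sets of the extremal function are connected. -/

open Set Filter Metric Complex InnerProductSpace
open scoped Topology ComplexConjugate Real

namespace Pool.Agent.P.MP_3bd355_an

namespace TLevP

/-- A connected neighbourhood in `main r L` of a connected part of a boundary circle. -/
theorem nb (h2 : T_GNB) {r : ℝ} {L J : Set ℂ} (hL : Cont r L) (hJ : IsPreconnected J)
    (hc : ∀ p ∈ J, p ∈ cann r ∧ p ∈ closure (main r L) ∧ p ∉ L) {Q : ℂ → Prop}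
    (hQ : ∀ p ∈ J, ∀ᶠ z in 𝓝[main r L] p, Q z) :
    ∃ P : Set ℂ, IsPreconnected P ∧ (∀ z ∈ P, z ∈ main r L ∧ Q z) ∧
      ∀ p ∈ J, ∀ᶠ z in 𝓝[main r L] p, z ∈ P := by
  obtain ⟨P, h1, h3, h4⟩ := h2 (ann r) J {z | z ∈ main r L ∧ Q z} hJ
    (fun p hp => by rw [closure_ann hL.r0 hL.r1]; exact (hc p hp).1)
    (fun p hp N hN => by
      obtain ⟨V, a, b, c, d, -⟩ := loc_conn hL.r0 hL.r1 (hc p hp).1 hN
      exact ⟨V, a, b, c, d⟩)
    (fun p hp => by
      rw [← hL.nhds_eq (hc p hp).2.1 (hc p hp).2.2]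
      exact eventually_mem_nhdsWithin.and (hQ p hp))
  refine ⟨P, h1, fun z hz => (h3 hz).1, fun p hp => ?_⟩
  rw [hL.nhds_eq (hc p hp).2.1 (hc p hp).2.2]
  exact h4 p hp

end TLevP

open TLevP in
theorem t_lev (hP : S_PN) (h1 : T_GEN) (h2 : T_GNB) (h3 : T_NBL) : T_LEV := by
  intro r A B z₁ L v ω φ F h s0 s1 y Fb T c
  have hL := T.cont
  have hv := T.fr.cfg.sol
  have hA := T.A0
  have hB := T.B0
  have hL1 := T.L1
  obtain ⟨C, hC⟩ := hv.bdd
  obtain ⟨hpos, hneg⟩ := hP r A B L v hL hv hA.le hB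
  replace hneg := (hneg hA hL1).1
  have hbd := fun z => hv.bounds hL (lo := A) (hi := B) hA.le le_rfl (hA.trans hB).le hB.le
    (hA.trans hB).le le_rfl z
  have hnE : ∀ p ∈ L, p ∉ closure (Ex r L) \ Ex r L → p ∉ closure (Ex r L) :=
    fun p hp h1 h2 => h1 ⟨h2, fun h3 => h3.2.1 hp⟩
  have hO : ∀ p : ℂ, ‖p‖ = 1 → Tendsto v (𝓝[main r L] p) (𝓝 A) := fun p hp =>
    hv.atA p hp fun hq => (hL1 p hq).ne hp
  have hfin : ({Fb s0, Fb s1} : Set ℂ).Finite := toFinite _
  have up : ∀ P S : Set ℂ, S.Finite → IsPreconnected P → (∀ z ∈ P, z ∈ main r L ∧ c < v z) →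
      (∀ p ∈ frontier (main r L), p ∉ S → LS v (main r L) p c ∨ ∀ᶠ z in 𝓝[main r L] p, z ∈ P) →
      IsPreconnected {z | z ∈ main r L ∧ c < v z} := fun P S =>
    h1 (main r L) P S v c hL.isOpen_main (bdd_main r L) hv.harm
      ⟨C, fun z _ => (le_abs_self _).trans (hC z)⟩
  have dn : ∀ P S : Set ℂ, S.Finite → IsPreconnected P → (∀ z ∈ P, z ∈ main r L ∧ v z < c) →
      (∀ p ∈ frontier (main r L), p ∉ S →
        LS (fun z => -v z) (main r L) p (-c) ∨ ∀ᶠ z in 𝓝[main r L] p, z ∈ P) →
      IsPreconnected {z | z ∈ main r L ∧ v z < c} := fun P S a b d e => by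
    have := h1 (main r L) P S (fun z => -v z) (-c) hL.isOpen_main (bdd_main r L)
      (fun z hz => (hv.harm z hz).neg) ⟨C, fun z _ => (neg_le_abs _).trans (hC z)⟩ a b
      (fun z hz => ⟨(d z hz).1, neg_lt_neg (d z hz).2⟩) e
    simpa only [neg_lt_neg_iff] using this
  constructor
  · rcases le_or_gt 0 c with hc | hc
    · rcases le_or_gt B c with hc' | hc'
      · refine up ∅ _ hL.exc_finite isPreconnected_empty (by simp) fun p hp hS => Or.inl ?_
        rcases (hL.frontier_sub hp).2.2 with g | g | g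
        · exact LS.of_tendsto (hv.atL p g (hnE p g hS)) hc
        · exact LS.of_tendsto (hv.atB p g) hc'
        · exact LS.of_tendsto (hO p g) (by linarith)
      · obtain ⟨P, a, b, d⟩ := nb h2 hL hL.preconn_Ex
          (fun p hp => ⟨⟨hp.1.ge, by rw [hp.1]; exact hL.r1.le⟩, hp.2.2, hp.2.1⟩)
          (Q := fun z => c < v z) fun p hp => (hv.atB p hp).eventually (lt_mem_nhds hc')
        refine up P _ hL.exc_finite a b fun p hp hS => ?_
        rcases (hL.frontier_sub hp).2.2 with g | g | g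
        · exact Or.inl (LS.of_tendsto (hv.atL p g (hnE p g hS)) hc)
        · exact Or.inr (d p g)
        · exact Or.inl (LS.of_tendsto (hO p g) (by linarith))
    · rcases le_or_gt A c with hc' | hc'
      · obtain ⟨P, a, b, ⟨w, hw, hw'⟩, -, d⟩ := h3 r A B z₁ L v ω φ F h s0 s1 y Fb T (-c) (by linarith)
        refine up ({z | 0 < v z} ∪ P) _ hfin (hpos.union w hw' hw a) ?_ fun p hp hS => ?_
        · rintro z (hz | hz)
          · exact ⟨hv.mem_main (ne_of_gt hz), hc.trans hz⟩
          · exact ⟨(b z hz).1, by linarith [(abs_lt.1 (b z hz).2).1]⟩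
        · rcases (hL.frontier_sub hp).2.2 with g | g | g
          · exact Or.inr ((d p g (fun e => hS (Or.inl e)) fun e => hS (Or.inr e)).mono
              fun z hz => Or.inr hz)
          · exact Or.inr (((hv.atB p g).eventually (lt_mem_nhds hB)).mono fun z hz => Or.inl hz)
          · exact Or.inl (LS.of_tendsto (hO p g) hc')
      · have e : {z | z ∈ main r L ∧ c < v z} = main r L :=
          Set.ext fun z => ⟨fun hz => hz.1, fun hz => ⟨hz, hc'.trans_le (hbd z).1⟩⟩
        rw [e]
        exact preconn_main r L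
  · rcases le_or_gt c 0 with hc | hc
    · rcases le_or_gt c A with hc' | hc'
      · refine dn ∅ _ hL.exc_finite isPreconnected_empty (by simp) fun p hp hS => Or.inl ?_
        rcases (hL.frontier_sub hp).2.2 with g | g | g
        · exact LS.of_tendsto (hv.atL p g (hnE p g hS)).neg (by linarith)
        · exact LS.of_tendsto (hv.atB p g).neg (by linarith)
        · exact LS.of_tendsto (hO p g).neg (by linarith)
      · obtain ⟨P, a, b, d⟩ := nb h2 hL (J := sphere 0 1)
          (isPreconnected_sphere (by rw [Complex.rank_real_complex]; norm_num) _ _)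
          (fun p hp => by
            have e := mem_sphere_zero_iff_norm.mp hp
            exact ⟨⟨by rw [e]; exact hL.r1.le, e.le⟩, hL.outer_closure hL1 e,
              fun hq => (hL1 p hq).ne e⟩)
          (Q := fun z => v z < c)
          fun p hp => (hO p (mem_sphere_zero_iff_norm.mp hp)).eventually (gt_mem_nhds hc')
        refine dn P _ hL.exc_finite a b fun p hp hS => ?_
        rcases (hL.frontier_sub hp).2.2 with g | g | g
        · exact Or.inl (LS.of_tendsto (hv.atL p g (hnE p g hS)).neg (by linarith))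
        · exact Or.inl (LS.of_tendsto (hv.atB p g).neg (by linarith))
        · exact Or.inr (d p (mem_sphere_zero_iff_norm.mpr g))
    · rcases le_or_gt c B with hc' | hc'
      · obtain ⟨P, a, b, -, ⟨w, hw, hw'⟩, d⟩ := h3 r A B z₁ L v ω φ F h s0 s1 y Fb T c hc
        refine dn ({z | v z < 0} ∪ P) _ hfin (hneg.union w hw' hw a) ?_ fun p hp hS => ?_
        · rintro z (hz | hz)
          · exact ⟨hv.mem_main (ne_of_lt hz), lt_trans hz hc⟩
          · exact ⟨(b z hz).1, (abs_lt.1 (b z hz).2).2⟩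
        · rcases (hL.frontier_sub hp).2.2 with g | g | g
          · exact Or.inr ((d p g (fun e => hS (Or.inl e)) fun e => hS (Or.inr e)).mono
              fun z hz => Or.inr hz)
          · exact Or.inl (LS.of_tendsto (hv.atB p g).neg (by linarith))
          · exact Or.inr (((hO p g).eventually (gt_mem_nhds hA)).mono fun z hz => Or.inl hz)
      · have e : {z | z ∈ main r L ∧ v z < c} = main r L :=
          Set.ext fun z => ⟨fun hz => hz.1, fun hz => ⟨hz, (hbd z).2.trans_lt hc'⟩⟩
        rw [e]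
        exact preconn_main r L

end Pool.Agent.P.MP_3bd355_an
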