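import Pool.Agent.P.MP_3bd355_an.T.St

/-! Reflection across the real line. -/

open Set Filter Metric Complex InnerProductSpace
open scoped Topology ComplexConjugate Real

namespace Pool.Agent.P.MP_3bd355_an

namespace TLi1P

theorem ana_cj {G : ℂ → ℂ} {t : ℂ} (h : AnalyticAt ℂ G (conj t)) :
    AnalyticAt ℂ (fun η => conj (G (conj η))) t := by
  rw [analyticAt_iff_eventually_differentiableAt] at h ⊢
  have h1 := (continuous_conj.tendsto t).eventually h
  filter_upwards [h1] with η hη
  have := hη.conj_conj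
  rw [conj_conj] at this
  exact this

theorem sym {Ψ : ℂ → ℂ} {x : ℝ} (h1 : AnalyticAt ℂ Ψ x) (h2 : ∀ᶠ t : ℝ in 𝓝 x, (Ψ t).im = 0) :
    ∀ᶠ η in 𝓝 (x : ℂ), conj (Ψ (conj η)) = Ψ η := by
  have h3 : AnalyticAt ℂ (fun η => conj (Ψ (conj η))) x := ana_cj (by rwa [conj_ofReal])
  refine (h3.frequently_eq_iff_eventually_eq h1).1 ?_
  have h4 : Tendsto (fun t : ℝ => (t : ℂ)) (𝓝[≠] x) (𝓝[≠] (x : ℂ)) := by
    refine tendsto_nhdsWithin_iff.2 ⟨(continuous_ofReal.tendsto x).mono_left nhdsWithin_le_nhds, ?_⟩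
    filter_upwards [self_mem_nhdsWithin] with t ht
    exact fun e => ht (ofReal_injective e)
  refine h4.frequently (Eventually.frequently ?_)
  filter_upwards [h2.filter_mono nhdsWithin_le_nhds] with t ht
  rw [conj_ofReal]
  exact conj_eq_iff_im.2 ht

end TLi1P

open TLi1P in
theorem t_li1 : T_LI1 := by
  intro H P _ h1 h2
  obtain ⟨K, hK⟩ : ∃ K : ℂ → ℂ, ∀ t, K t = if 0 < t.im then H t else if t.im < 0 then
      conj (H (conj t)) else ((limUnder (𝓝[upH] t) H).re : ℂ) := ⟨_, fun _ => rfl⟩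
  have kp : ∀ t : ℂ, 0 < t.im → K t = H t := fun t ht => by rw [hK, if_pos ht]
  have kn : ∀ t : ℂ, t.im < 0 → K t = conj (H (conj t)) := fun t ht => by
    rw [hK, if_neg ht.not_gt, if_pos ht]
  have k0 : ∀ t : ℝ, K t = ((limUnder (𝓝[upH] (t : ℂ)) H).re : ℂ) := fun t => by
    rw [hK, if_neg (by simp), if_neg (by simp)]
  refine ⟨K, fun t ht ht' => ?_, fun t => ?_, kp⟩
  · rcases lt_trichotomy t.im 0 with h | h | h
    · refine (ana_cj (h1 (conj t) (by simpa [upH] using h) ht')).congr ?_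
      filter_upwards [(isOpen_lt continuous_im continuous_const).mem_nhds h] with η hη
      exact (kn η hη).symm
    · obtain ⟨x, rfl⟩ : ∃ x : ℝ, t = x := ⟨t.re, Complex.ext (by simp) (by simpa using h)⟩
      obtain ⟨c, hc⟩ := h2 x ht
      obtain ⟨Ψ, a1, -, a3, a4⟩ := hc.near
      rw [eventually_nhdsWithin_iff] at a3
      have a5 : ∀ᶠ η in 𝓝 (x : ℂ), conj η ∈ upH → H (conj η) = Ψ (conj η) := by
        have : Tendsto (fun η : ℂ => conj η) (𝓝 (x : ℂ)) (𝓝 (x : ℂ)) := by
          have := continuous_conj.tendsto (x : ℂ)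
          rwa [conj_ofReal] at this
        exact this.eventually a3
      have a6 : ∀ᶠ η : ℂ in 𝓝 (x : ℂ), (Ψ η.re).im = 0 ∧ RA H η.re (Ψ η.re).re := by
        have : Tendsto (fun η : ℂ => η.re) (𝓝 (x : ℂ)) (𝓝 x) := by
          have := continuous_re.tendsto (x : ℂ)
          rwa [ofReal_re] at this
        exact this.eventually a4
      refine a1.congr ?_
      filter_upwards [a3, a5, a6, sym a1 (a4.mono fun _ e => e.1)] with η b1 b2 b3 b4
      rcases lt_trichotomy η.im 0 with g | g | g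
      · rw [kn η g, b2 (by simpa [upH] using g), b4]
      · obtain ⟨s, rfl⟩ : ∃ s : ℝ, η = s := ⟨η.re, Complex.ext (by simp) (by simpa using g)⟩
        rw [ofReal_re] at b3
        have := neBot_upH s
        rw [k0, b3.2.tendsto.limUnder_eq, ofReal_re]
        exact Complex.ext (by simp) (by simpa using b3.1)
      · rw [kp η g, b1 g]
    · refine (h1 t h ht).congr ?_
      filter_upwards [(isOpen_lt continuous_const continuous_im).mem_nhds h] with η hη
      exact (kp η hη).symm
  · rcases lt_trichotomy t.im 0 with h | h | h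
    · rw [kn t h, kp (conj t) (by simpa using h), conj_conj]
    · obtain ⟨x, rfl⟩ : ∃ x : ℝ, t = x := ⟨t.re, Complex.ext (by simp) (by simpa using h)⟩
      rw [conj_ofReal, k0, conj_ofReal]
    · rw [kp t h, kn (conj t) (by simpa using h), conj_conj]

end Pool.Agent.P.MP_3bd355_an
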