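import Pool.Agent.P.MP_3bd355_an.T.St

/-! Removable singularities and polynomial growth. -/

namespace Pool.Agent.P.MP_3bd355_an

open Set Filter Metric Complex InnerProductSpace
open scoped Topology ComplexConjugate Real

namespace TLi2P

theorem remove (K : ℂ → ℂ) (P : Set ℂ) (hP : P.Finite) (hK : ∀ t, t ∉ P → AnalyticAt ℂ K t)
    (h0 : ∀ p ∈ P, Tendsto (fun t => (t - p) * K t) (𝓝[≠] p) (𝓝 0)) :
    ∃ F : ℂ → ℂ, Differentiable ℂ F ∧ ∀ t, t ∉ P → F t = K t := by
  classical
  refine ⟨fun t => if t ∈ P then deriv (fun z => (z - t) * K z) t else K t, fun p => ?_,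
    fun t ht => if_neg ht⟩
  by_cases hp : p ∈ P
  · have ev : ∀ᶠ t in 𝓝[≠] p, t ∉ P := by
      have h1 : (P \ {p})ᶜ ∈ 𝓝 p :=
        (hP.subset diff_subset).isClosed.isOpen_compl.mem_nhds fun h => h.2 rfl
      filter_upwards [mem_nhdsWithin_of_mem_nhds h1, self_mem_nhdsWithin] with t a b c
      exact a ⟨c, b⟩
    have hg : AnalyticAt ℂ (fun z => (z - p) * K z) p := by
      refine analyticAt_of_differentiable_on_punctured_nhds_of_continuousAt
        (ev.mono fun t ht => ?_) ?_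
      · exact (differentiableAt_id.sub_const p).mul (hK t ht).differentiableAt
      · rw [← continuousWithinAt_compl_self, ContinuousWithinAt]
        simpa using h0 p hp
    obtain ⟨q, hq⟩ := hg
    have hd := (hq.has_fpower_series_dslope_fslope).analyticAt.differentiableAt
    refine hd.congr_of_eventuallyEq ?_
    have ev' := eventually_nhdsWithin_iff.1 ev
    filter_upwards [ev'] with t ht
    by_cases e : t = p
    · subst e
      rw [if_pos hp, dslope_same]
    · rw [if_neg (ht e), dslope_of_ne _ e, slope_def_field, sub_self, zero_mul, sub_zero,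
        mul_div_cancel_left₀ _ (sub_ne_zero.2 e)]
  · refine (hK p hp).differentiableAt.congr_of_eventuallyEq ?_
    filter_upwards [hP.isClosed.isOpen_compl.mem_nhds hp] with t ht
    exact if_neg ht

theorem lin (F : ℂ → ℂ) (hF : Differentiable ℂ F) (C : ℝ)
    (hC : ∀ᶠ t in cocompact ℂ, ‖F t‖ ≤ C * (‖t‖ * √‖t‖)) :
    ∀ t, F t = F 0 + dslope F 0 0 * t := by
  have d1 : Differentiable ℂ (dslope F 0) :=
    differentiableOn_univ.1 ((differentiableOn_dslope univ_mem).2 hF.differentiableOn)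
  have d2 : Differentiable ℂ (dslope (dslope F 0) 0) :=
    differentiableOn_univ.1 ((differentiableOn_dslope univ_mem).2 d1.differentiableOn)
  have e (t : ℂ) : F t = F 0 + dslope F 0 0 * t + t * t * dslope (dslope F 0) 0 t := by
    have a1 := sub_smul_dslope F 0 t
    have a2 := sub_smul_dslope (dslope F 0) 0 t
    simp only [sub_zero, smul_eq_mul] at a1 a2
    linear_combination -a1 - t * a2
  have hn : Tendsto (fun t : ℂ => ‖t‖) (cocompact ℂ) atTop := tendsto_norm_cocompact_atTop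
  have hφ : Tendsto (fun r : ℝ => C * (√r)⁻¹ + ‖F 0‖ * (r⁻¹ * r⁻¹) + ‖dslope F 0 0‖ * r⁻¹) atTop
      (𝓝 0) := by
    have a1 : Tendsto (fun r : ℝ => (√r)⁻¹) atTop (𝓝 0) :=
      tendsto_inv_atTop_zero.comp Real.tendsto_sqrt_atTop
    have a2 : Tendsto (fun r : ℝ => r⁻¹) atTop (𝓝 0) := tendsto_inv_atTop_zero
    simpa using ((a1.const_mul C).add ((a2.mul a2).const_mul ‖F 0‖)).add
      (a2.const_mul ‖dslope F 0 0‖)
  have ht : Tendsto (dslope (dslope F 0) 0) (cocompact ℂ) (𝓝 0) := by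
    refine squeeze_zero_norm' ?_ (hφ.comp hn)
    filter_upwards [hC, hn.eventually_gt_atTop 0] with t h1 h2
    have hs : 0 < √‖t‖ := Real.sqrt_pos.2 h2
    have hq : √‖t‖ * √‖t‖ = ‖t‖ := Real.mul_self_sqrt h2.le
    have a1 : t * t * dslope (dslope F 0) 0 t = F t - F 0 - dslope F 0 0 * t := by
      linear_combination -e t
    have a2 : ‖t‖ * ‖t‖ * ‖dslope (dslope F 0) 0 t‖ ≤
        C * (‖t‖ * √‖t‖) + ‖F 0‖ + ‖dslope F 0 0‖ * ‖t‖ := by
      rw [← norm_mul, ← norm_mul, a1, ← norm_mul]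
      linarith [norm_sub_le (F t - F 0) (dslope F 0 0 * t), norm_sub_le (F t) (F 0)]
    refine le_of_mul_le_mul_left (a2.trans (le_of_eq ?_)) (mul_pos h2 h2)
    simp only [Function.comp]
    generalize √‖t‖ = s at hs hq
    rw [← hq]
    field_simp
  intro t
  rw [e t, d2.apply_eq_of_tendsto_cocompact t ht, mul_zero, add_zero]

end TLi2P

theorem t_li2 : T_LI2 := by
  rintro K P hP hK h0 ⟨C, hC⟩
  obtain ⟨F, hF, e⟩ := TLi2P.remove K P hP hK h0
  refine ⟨F 0, dslope F 0 0, fun t ht => ?_⟩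
  rw [← e t ht]
  refine TLi2P.lin F hF C ?_ t
  filter_upwards [hC, hP.isCompact.compl_mem_cocompact] with z h1 h2
  rwa [e z h2]

end Pool.Agent.P.MP_3bd355_an
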