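import Pool.Agent.P.MP_3bd355_an.T.St

/-! Transfer of the boundary values to the slit plane. -/

open Set Filter Metric Complex InnerProductSpace
open scoped Topology ComplexConjugate Real

namespace Pool.Agent.P.MP_3bd355_an

namespace TLimP

/-- The alternative of `CL` in the slit plane. -/
def Alt (e : Fin 5 → ℝ) (a b ε : ℝ) (t : ℂ) (x : ℝ) : Prop :=
  ((∃ s ∈ Icc (e 3) (e 4), ‖t - s‖ < ε) ∧ |x - a| < ε) ∨
    ((∃ s ∈ Icc (e 1) (e 2), ‖t - s‖ < ε) ∧ |x - b| < ε) ∨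
    (((∃ s ≤ e 0, ‖t - (s : ℝ)‖ < ε) ∨ ε⁻¹ < ‖t‖) ∧ |x| < ε) ∨
    (e 0 = e 1 ∧ ‖t - e 0‖ < ε)

/-- The alternative holds outside compact subsets of the slit plane. -/
def Out (e : Fin 5 → ℝ) (a b : ℝ) (U : ℂ → ℝ) : Prop :=
  ∀ ε > (0 : ℝ), ∃ K : Set ℂ, IsCompact K ∧ K ⊆ (Sl e)ᶜ ∧
    ∀ t ∈ (Sl e)ᶜ, t ∉ K → Alt e a b ε t (U t)

theorem out {W : Set ℂ} {f ψ : ℂ → ℂ} {e : Fin 5 → ℝ} {u : ℂ → ℝ} {a b : ℝ} (ho : IsOpen W)
    (hb : Bornology.IsBounded W) (hc : ContinuousOn f W) (hf : BijOn f W (Sl e)ᶜ)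
    (hψ : ∀ z ∈ W, ψ (f z) = z) (h : CL W f e u a b) : Out e a b fun t => u (ψ t) := by
  intro ε hε
  let Z : Set ℂ := {z | z ∈ W ∧ ¬ Alt e a b ε (f z) (u z)}
  have h1 : closure Z ⊆ W := by
    intro p hp
    by_contra hW
    have hfr : p ∈ frontier W := by
      rw [ho.frontier_eq]
      exact ⟨closure_mono (fun z hz => hz.1) hp, hW⟩
    obtain ⟨z, h2, h3⟩ := ((mem_closure_iff_frequently.1 hp).and_eventually
      (eventually_nhdsWithin_iff.1 (h p hfr ε hε))).exists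
    exact h2.2 (h3 h2.1)
  have h2 : IsCompact (closure Z) := (hb.subset fun z hz => hz.1).isCompact_closure
  refine ⟨f '' closure Z, h2.image_of_continuousOn (hc.mono h1), ?_, fun t ht hK => ?_⟩
  · rintro _ ⟨z, hz, rfl⟩
    exact hf.mapsTo (h1 hz)
  · obtain ⟨z, hz, rfl⟩ := hf.surjOn ht
    by_contra hn
    simp only [hψ z hz] at hn
    exact hK ⟨z, subset_closure ⟨hz, hn⟩, rfl⟩

theorem near {t : ℂ} {s s' ε d : ℝ} (h : ‖t - s‖ < ε) (h' : ‖t - s'‖ < ε) (hd : 2 * ε ≤ d) :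
    |s - s'| < d := by
  have e : ((s - s' : ℝ) : ℂ) = (t - s') - (t - s) := by
    push_cast
    ring
  have := norm_sub_le (t - s') (t - s)
  rw [← e, norm_real, Real.norm_eq_abs] at this
  linarith

theorem le_of {t : ℂ} {s ε : ℝ} (h : ‖t - s‖ < ε) : ‖t‖ < |s| + ε := by
  have := norm_add_le (t - s) (s : ℂ)
  rw [sub_add_cancel, norm_real, Real.norm_eq_abs] at this
  linarith

theorem loc {e : Fin 5 → ℝ} {a b : ℝ} {U : ℂ → ℝ} (h : Out e a b U) {s d η : ℝ}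
    (hs : (s : ℂ) ∈ Sl e) (hd : 0 < d) (hη : 0 < η) : ∀ᶠ t in 𝓝[(Sl e)ᶜ] (s : ℂ),
      ((∃ s' ∈ Icc (e 3) (e 4), |s - s'| < d) ∧ |U t - a| < η) ∨
      ((∃ s' ∈ Icc (e 1) (e 2), |s - s'| < d) ∧ |U t - b| < η) ∨
      ((∃ s' ≤ e 0, |s - s'| < d) ∧ |U t| < η) ∨ |s - e 0| < d := by
  obtain ⟨ε, h0, h1, h2, h3⟩ : ∃ ε : ℝ, 0 < ε ∧ ε ≤ η ∧ 2 * ε ≤ d ∧ |s| + ε ≤ ε⁻¹ := by
    have p : 0 < |s| + 1 := by positivity
    have a1 : min η (min (d / 2) (|s| + 1)⁻¹) ≤ d / 2 := (min_le_right _ _).trans (min_le_left _ _)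
    have a2 : min η (min (d / 2) (|s| + 1)⁻¹) ≤ (|s| + 1)⁻¹ :=
      (min_le_right _ _).trans (min_le_right _ _)
    have a3 : 0 < min η (min (d / 2) (|s| + 1)⁻¹) := by positivity
    have a4 : (|s| + 1)⁻¹ ≤ 1 := inv_le_one_of_one_le₀ (by linarith [abs_nonneg s])
    refine ⟨_, a3, min_le_left _ _, by linarith, ?_⟩
    have := (le_inv_comm₀ a3 p).1 a2
    linarith
  obtain ⟨K, k1, k2, k3⟩ := h ε h0
  filter_upwards [self_mem_nhdsWithin,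
    nhdsWithin_le_nhds (k1.isClosed.isOpen_compl.mem_nhds fun c => k2 c hs),
    nhdsWithin_le_nhds (ball_mem_nhds (s : ℂ) h0)] with t t1 t2 t3
  rw [mem_ball, dist_eq_norm] at t3
  rcases k3 t t1 t2 with ⟨⟨s', a1, a2⟩, a3⟩ | ⟨⟨s', a1, a2⟩, a3⟩ | ⟨⟨s', a1, a2⟩ | a2, a3⟩ | ⟨-, a2⟩
  · exact Or.inl ⟨⟨s', a1, near t3 a2 h2⟩, a3.trans_le h1⟩
  · exact Or.inr (Or.inl ⟨⟨s', a1, near t3 a2 h2⟩, a3.trans_le h1⟩)
  · exact Or.inr (Or.inr (Or.inl ⟨⟨s', a1, near t3 a2 h2⟩, a3.trans_le h1⟩))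
  · linarith [le_of t3]
  · exact Or.inr (Or.inr (Or.inr (near t3 a2 h2)))

theorem lim {e : Fin 5 → ℝ} {a b : ℝ} {U : ℂ → ℝ} (he : Od e) (h : Out e a b U) : Lim e U a b := by
  obtain ⟨e1, e2, e3, e4⟩ := he
  refine ⟨fun s hs => Metric.tendsto_nhds.2 fun η hη => ?_,
    fun s hs => Metric.tendsto_nhds.2 fun η hη => ?_,
    fun s hs => Metric.tendsto_nhds.2 fun η hη => ?_, Metric.tendsto_nhds.2 fun η hη => ?_⟩
  · refine (loc h (s := s) ⟨ofReal_im s, Or.inr (Or.inr (Ioo_subset_Icc_self hs))⟩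
      (sub_pos.2 hs.1) hη).mono fun t ht => ?_
    rcases ht with ⟨-, a⟩ | ⟨⟨s', a1, a2⟩, -⟩ | ⟨⟨s', a1, a2⟩, -⟩ | a2
    · exact a
    · linarith [(abs_lt.1 a2).2, a1.2]
    · linarith [(abs_lt.1 a2).2]
    · linarith [(abs_lt.1 a2).2]
  · refine (loc h (s := s) ⟨ofReal_im s, Or.inr (Or.inl (Ioo_subset_Icc_self hs))⟩
      (lt_min (sub_pos.2 hs.1) (sub_pos.2 hs.2)) hη).mono fun t ht => ?_
    have m1 := min_le_left (s - e 1) (e 2 - s)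
    have m2 := min_le_right (s - e 1) (e 2 - s)
    rcases ht with ⟨⟨s', a1, a2⟩, -⟩ | ⟨-, a⟩ | ⟨⟨s', a1, a2⟩, -⟩ | a2
    · linarith [(abs_lt.1 a2).1, a1.1]
    · exact a
    · linarith [(abs_lt.1 a2).2]
    · linarith [(abs_lt.1 a2).2]
  · refine (loc h (s := s) ⟨ofReal_im s, Or.inl hs.le⟩ (sub_pos.2 hs) hη).mono fun t ht => ?_
    rcases ht with ⟨⟨s', a1, a2⟩, -⟩ | ⟨⟨s', a1, a2⟩, -⟩ | ⟨-, a⟩ | a2
    · linarith [(abs_lt.1 a2).1, a1.1]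
    · linarith [(abs_lt.1 a2).1, a1.1]
    · rwa [Real.dist_0_eq_abs]
    · linarith [(abs_lt.1 a2).1]
  · obtain ⟨K, k1, -, k3⟩ := h η hη
    rw [eventually_inf_principal]
    filter_upwards [k1.compl_mem_cocompact,
      (isCompact_closedBall (0 : ℂ) (|e 0| + |e 4| + η)).compl_mem_cocompact] with t t1 t2 t3
    rw [mem_compl_iff, mem_closedBall_zero_iff, not_le] at t2
    have b : ∀ s : ℝ, e 0 ≤ s → s ≤ e 4 → ¬ ‖t - s‖ < η := fun s s1 s2 s3 => by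
      have := abs_le_max_abs_abs s1 s2
      have := max_le (le_add_of_nonneg_right (abs_nonneg (e 4)) : |e 0| ≤ |e 0| + |e 4|)
        (le_add_of_nonneg_left (abs_nonneg (e 0)) : |e 4| ≤ |e 0| + |e 4|)
      linarith [le_of s3]
    rcases k3 t t3 t1 with ⟨⟨s, a1, a2⟩, -⟩ | ⟨⟨s, a1, a2⟩, -⟩ | ⟨-, a⟩ | ⟨-, a2⟩
    · exact absurd a2 (b s (by linarith [a1.1]) a1.2)
    · exact absurd a2 (b s (by linarith [a1.1]) (by linarith [a1.2]))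
    · rwa [Real.dist_0_eq_abs]
    · exact absurd a2 (b _ le_rfl (by linarith))

end TLimP

theorem t_lim (h : T_SPRE) : T_LIM := by
  have _ := h
  intro W f ψ e u a b ho hb hc he hf hψ hl
  exact TLimP.lim he (TLimP.out ho hb hc hf hψ hl)

end Pool.Agent.P.MP_3bd355_an
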