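import Pool.Agent.P.MP_3bd355_an.T.St

/-! The Liouville argument in the slit plane (helper47). -/

open Set Filter Metric Complex InnerProductSpace
open scoped Topology ComplexConjugate Real

namespace Pool.Agent.P.MP_3bd355_an

namespace TLiouP

/-- A bound in the upper half plane spreads to a symmetric open set. -/
theorem spread {K : ℂ → ℂ} (hs : ∀ t, K (conj t) = conj (K t)) {O : Set ℂ} (hO : IsOpen O)
    (hc : ∀ t ∈ O, conj t ∈ O) {a b : ℂ → ℝ} (ha : Continuous a) (hb : Continuous b)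
    (ha' : ∀ t, a (conj t) = a t) (hb' : ∀ t, b (conj t) = b t)
    (h : ∀ t ∈ O, t ∈ upH → a t * ‖K t‖ ≤ b t) {t : ℂ} (ht : t ∈ O) (hK : ContinuousAt K t) :
    a t * ‖K t‖ ≤ b t := by
  rcases lt_trichotomy 0 t.im with h0 | h0 | h0
  · exact h t ht h0
  · obtain ⟨x, rfl⟩ : ∃ x : ℝ, (x : ℂ) = t := ⟨t.re, Complex.ext (by simp) (by simpa using h0)⟩
    have := neBot_upH x
    refine le_of_tendsto_of_tendsto (b := 𝓝[upH] (x : ℂ))
      ((ha.continuousAt.mul hK.norm).tendsto.mono_left nhdsWithin_le_nhds)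
      (hb.continuousAt.tendsto.mono_left nhdsWithin_le_nhds) ?_
    filter_upwards [self_mem_nhdsWithin, nhdsWithin_le_nhds (hO.mem_nhds ht)] with s h1 h2
    exact h s h2 h1
  · have h1 := h (conj t) (hc t ht) (show 0 < (conj t).im by simpa using h0)
    rwa [hs, ha', hb', Complex.norm_conj] at h1

theorem ev_not {Q : Set ℂ} (hQ : Q.Finite) (p : ℂ) : ∀ᶠ t in 𝓝[≠] p, t ∉ Q := by
  have h1 : IsClosed (Q \ {p}) := (hQ.subset sdiff_subset).isClosed
  filter_upwards [self_mem_nhdsWithin, nhdsWithin_le_nhds (h1.isOpen_compl.mem_nhds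
    (show p ∉ Q \ {p} from fun e => e.2 rfl))] with t h2 h3 h4
  exact h3 ⟨h4, h2⟩

theorem tendsto_cj (p : ℂ) : Tendsto (fun t : ℂ => conj t) (𝓝[≠] p) (𝓝[≠] (conj p)) := by
  refine tendsto_nhdsWithin_iff.2 ⟨(continuous_conj.tendsto p).mono_left nhdsWithin_le_nhds, ?_⟩
  filter_upwards [self_mem_nhdsWithin] with t h e
  exact h (by simpa using congrArg conj (mem_singleton_iff.1 e))

end TLiouP

open TLiouP in
theorem t_liou (h1 : T_LI1) (h2 : T_LI2) : T_LIOU := by
  intro e P H hP hL hp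
  have hP1 : (P ∪ range fun i => (e i : ℂ)).Finite := hP.union (finite_range _)
  obtain ⟨K, hK, hs, hH⟩ := h1 H _ hP1 (fun t ht hn => hL.ana t ht fun r => hn (Or.inl r))
    fun x hx => hL.ra x (fun r => hx (Or.inl r)) fun i r => hx (Or.inr ⟨i, by rw [r]⟩)
  set P1 := P ∪ range fun i => (e i : ℂ) with hP1'
  have hQ : (P1 ∪ (fun t => conj t) '' P1).Finite := hP1.union (hP1.image _)
  set Q := P1 ∪ (fun t => conj t) '' P1 with hQ'
  have hA : ∀ t, t ∉ Q → AnalyticAt ℂ K t := fun t ht =>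
    hK t (fun r => ht (Or.inl r)) fun r => ht (Or.inr ⟨_, r, by simp⟩)
  have hE : ∀ p ∈ upH, ∀ᶠ t in 𝓝 p, K t = H t := fun p h =>
    (isOpen_upH.eventually_mem h).mono hH
  have up : ∀ p ∈ upH, Tendsto (fun t => (t - p) * K t) (𝓝[≠] p) (𝓝 0) := by
    intro p h
    have h3 : Tendsto (fun t => (t - p) * H t) (𝓝[≠] p) (𝓝 0) := by
      by_cases hpP : p ∈ P
      · refine (hp p hpP (le_of_lt h)).mono_left (le_inf nhdsWithin_le_nhds (le_principal_iff.2 ?_))
        filter_upwards [self_mem_nhdsWithin, nhdsWithin_le_nhds (isOpen_upH.mem_nhds h)] with t a b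
        exact ⟨b, a⟩
      · have h4 : Tendsto (fun t => (t - p) * H t) (𝓝 p) (𝓝 ((p - p) * H p)) :=
          (tendsto_id.sub_const p).mul (hL.ana p h hpP).continuousAt.tendsto
        rw [sub_self, zero_mul] at h4
        exact h4.mono_left nhdsWithin_le_nhds
    refine h3.congr' ?_
    filter_upwards [nhdsWithin_le_nhds (hE p h)] with t a
    rw [a]
  obtain ⟨l₀, l₁, hl⟩ := h2 K Q hQ hA (fun p hpQ => by
    rcases lt_trichotomy 0 p.im with h0 | h0 | h0
    · exact up p h0
    · obtain ⟨x, rfl⟩ : ∃ x : ℝ, (x : ℂ) = p := ⟨p.re, Complex.ext (by simp) (by simpa using h0)⟩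
      have hx : (x : ℂ) ∈ P1 := by
        rcases hpQ with r | ⟨q, r, r'⟩
        · exact r
        · have : q = x := by simpa using congrArg conj r'
          exact this ▸ r
      have h3 : Tendsto (fun t => (t - x) * H t) (𝓝[upH] (x : ℂ)) (𝓝 0) := by
        rcases hx with r | ⟨i, r⟩
        · have h4 := hp x r (by simp)
          rwa [sdiff_singleton_eq_self (show (x : ℂ) ∉ upH by simp [upH])] at h4
        · have h4 := hL.br i
          have r' : (e i : ℂ) = x := r
          rwa [r'] at h4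
      rw [tendsto_zero_iff_norm_tendsto_zero, tendsto_order] at h3 ⊢
      refine ⟨fun a ha => Eventually.of_forall fun t => ha.trans_le (norm_nonneg _), fun ε hε => ?_⟩
      obtain ⟨δ, hδ, h5⟩ := Metric.mem_nhdsWithin_iff.1 (h3.2 (ε / 2) (half_pos hε))
      filter_upwards [ev_not hQ x, nhdsWithin_le_nhds (ball_mem_nhds (x : ℂ) hδ)] with t a b
      have hn : ∀ s : ℂ, ‖conj s - x‖ = ‖s - x‖ := fun s => by
        rw [← Complex.norm_conj (s - x), map_sub, conj_ofReal]
      have h6 := spread hs isOpen_ball (O := ball (x : ℂ) δ)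
        (fun s r => by rwa [mem_ball, dist_eq_norm, hn, ← dist_eq_norm]) (a := fun s => ‖s - x‖)
        (b := fun _ => ε / 2) (by fun_prop) continuous_const hn (fun _ => rfl)
        (fun s r r' => by
          have h7 : ‖(s - x) * H s‖ < ε / 2 := h5 ⟨r, r'⟩
          rw [hH s r', ← norm_mul]
          exact h7.le) b (hA t a).continuousAt
      rw [norm_mul]
      linarith
    · have h3 := (up (conj p) (show 0 < (conj p).im by simpa using h0)).comp (tendsto_cj p)
      have h4 := (continuous_conj.tendsto 0).comp h3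
      rw [map_zero] at h4
      refine h4.congr fun t => ?_
      simp [hs]) (by
    obtain ⟨C, hC⟩ := hL.inf
    rw [eventually_inf_principal, Filter.Eventually, mem_cocompact] at hC
    obtain ⟨S, hS, hC⟩ := hC
    obtain ⟨R, hR⟩ := (hS.isBounded.union hQ.isBounded).subset_closedBall 0
    refine ⟨C, mem_cocompact.2 ⟨_, isCompact_closedBall 0 R, fun t ht => ?_⟩⟩
    have h6 := spread hs isClosed_closedBall.isOpen_compl (O := (closedBall (0 : ℂ) R)ᶜ)
      (fun s r => by simpa using r) (a := fun _ => 1) (b := fun s => C * (‖s‖ * √‖s‖))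
      continuous_const (by fun_prop) (fun _ => rfl) (fun s => by simp)
      (fun s r r' => by
        rw [one_mul, hH s r']
        exact hC (show s ∉ S from fun q => r (hR (Or.inl q))) r') ht
      (hA t fun q => ht (hR (Or.inr q))).continuousAt
    rwa [one_mul] at h6)
  have hF : ((fun x : ℝ => (x : ℂ)) ⁻¹' Q).Finite := hQ.preimage ofReal_injective.injOn
  obtain ⟨x₁, hx₁⟩ := hF.exists_notMem
  obtain ⟨x₂, hx₂⟩ := (hF.insert x₁).exists_notMem
  have hr : ∀ x : ℝ, (x : ℂ) ∉ Q → l₀.im + l₁.im * x = 0 := fun x hx => by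
    have h3 := hs x
    rw [conj_ofReal, hl x hx] at h3
    have h4 := congrArg im h3
    simp at h4
    linarith
  have e1 := hr x₁ hx₁
  have e2 := hr x₂ fun r => hx₂ (Or.inr r)
  have hne : x₂ - x₁ ≠ 0 := sub_ne_zero.2 fun r => hx₂ (Or.inl r)
  have i1 : l₁.im = 0 := (mul_eq_zero.1 (show l₁.im * (x₂ - x₁) = 0 by linarith)).resolve_right hne
  have i0 : l₀.im = 0 := by rw [i1] at e1; linarith
  have j0 : (l₀.re : ℂ) = l₀ := Complex.ext (by simp) (by simpa using i0.symm)
  have j1 : (l₁.re : ℂ) = l₁ := Complex.ext (by simp) (by simpa using i1.symm)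
  refine ⟨l₀.re, l₁.re, fun t ht htP => ?_⟩
  rw [j0, j1]
  have c1 : Tendsto H (𝓝[≠] t) (𝓝 (H t)) :=
    (hL.ana t ht htP).continuousAt.tendsto.mono_left nhdsWithin_le_nhds
  have c2 : Tendsto (fun s => l₀ + l₁ * s) (𝓝[≠] t) (𝓝 (l₀ + l₁ * t)) :=
    (by fun_prop : Continuous fun s : ℂ => l₀ + l₁ * s).continuousAt.tendsto.mono_left
      nhdsWithin_le_nhds
  refine tendsto_nhds_unique c1 (c2.congr' ?_)
  filter_upwards [ev_not hQ t, nhdsWithin_le_nhds (hE t ht)] with s a b
  rw [← b, hl s a]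

end Pool.Agent.P.MP_3bd355_an
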