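import Pool.Agent.P.MP_3bd355_an.T.St
import Pool.Agent.P.MP_3bd355_an.Pk.Main

/-! Assembly of the structure theorem with the explicit form. -/

open Set Filter Metric Complex InnerProductSpace
open scoped Topology ComplexConjugate Real

namespace Pool.Agent.P.MP_3bd355_an

namespace TMainP

lemma pos_frame {z₀ z₁ : ℂ} (h1 : z₁ ≠ 0) (h : ¬ ∀ t : ℝ, 0 < t → z₀ ≠ t * z₁) :
    ∃ ω : ℂ, ‖ω‖ = 1 ∧ ω * z₀ = (‖z₀‖ : ℝ) ∧ ω * z₁ = (‖z₁‖ : ℝ) := by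
  push Not at h
  obtain ⟨t, ht, rfl⟩ := h
  have hn : (‖z₁‖ : ℂ) ≠ 0 := by exact_mod_cast norm_ne_zero_iff.2 h1
  have e : conj z₁ / (‖z₁‖ : ℝ) * z₁ = (‖z₁‖ : ℝ) := by
    rw [div_mul_eq_mul_div, conj_mul', div_eq_iff hn]
    ring
  refine ⟨conj z₁ / (‖z₁‖ : ℝ), ?_, ?_, e⟩
  · rw [norm_div, norm_conj, norm_real, norm_norm, div_self (norm_ne_zero_iff.2 h1)]
  · rw [mul_left_comm, e, norm_mul, norm_real, Real.norm_of_nonneg ht.le]
    push_cast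
    ring

lemma isOpen_W {r A B : ℝ} {z₀ z₁ a b : ℂ} {c : ℝ} {κ : ℝ → ℂ} {v g : ℂ → ℝ}
    (h : Crit r A B z₀ z₁ a b c κ v g) : IsOpen (ann r \ κ '' Icc 0 1) :=
  (isOpen_ann r).sdiff (isCompact_Icc.image_of_continuousOn h.cont).isClosed

end TMainP

open MainP TMainP in
theorem t_main (hM : S_MREAL) (h1 : S_E1) (h2 : S_E2) (hS : S_SC) (hC : T_CORE)
    (hF1 : S_FOLD1) (hF2 : S_FOLD2) (hF3 : S_FOLD3) (hB : S_BR) (hC1 : S_CRIT1) (hR : S_ROT)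
    (hRc : S_ROTc) (tR : T_ROT) (tRc : T_ROTc) (hE : E_MEM) : T_MAIN := by
  intro r A B z₀ z₁ h0 m0 m1 hA' hh hne
  have hA := hA'.le
  have hr1 : r < 1 := m0.1.trans m0.2
  have hB0 : 0 < B := B_pos h0 m1 hA hh
  have hch : CH r A B z₀ z₁ := ⟨h0, hr1, m0, m1, hA, hB0⟩
  have n0 : z₀ ≠ 0 := norm_pos_iff.1 (h0.trans m0.1)
  have n1 : z₁ ≠ 0 := norm_pos_iff.1 (h0.trans m1.1)
  obtain ⟨ω, hω, i0, i1, i2⟩ : ∃ ω : ℂ, ‖ω‖ = 1 ∧ 0 ≤ (ω * z₀).im ∧ (ω * z₁).im ≤ 0 ∧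
      (0 < (ω * z₀).im ∨ (ω * z₀ = (‖z₀‖ : ℝ) ∧ ω * z₁ = (‖z₁‖ : ℝ))) := by
    by_cases hray : ∀ t : ℝ, 0 < t → z₀ ≠ t * z₁
    · obtain ⟨ω, hω, i0, i1⟩ := exists_frame n0 n1 hray
      exact ⟨ω, hω, i0.le, i1, Or.inl i0⟩
    · obtain ⟨ω, hω, i0, i1⟩ := pos_frame n1 hray
      exact ⟨ω, hω, by rw [i0]; simp, by rw [i1]; simp, Or.inr ⟨i0, i1⟩⟩
  have hω' : ‖conj ω‖ = 1 := by simpa using hω
  have hy := hyp_rot h0 m0 m1 hA hh hω i0 i1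
  obtain ⟨r1, r2, -⟩ := hR r A B z₀ z₁ ω hω
  obtain ⟨-, -, r3⟩ := hR r A B (ω * z₀) (ω * z₁) (conj ω) hω'
  have r4 := fun κ v g e C l₀ l₁ f => tR r A B (ω * z₀) (conj ω) κ v g e C l₀ l₁ f hω'
  simp only [conj_mul_rot hω, conj_conj] at r3 r4
  obtain ⟨m, hm, hAm, hb, happ⟩ := hM r A B _ _ hy.ch
  have up : ∀ L v, Cfg r A B (ω * z₁) L v → v (ω * z₀) ≤ m := fun L v hc => by
    obtain ⟨K, hK⟩ := hS r A B _ L v hc
    exact hb K v (SC.gc hc hK)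
  have mem : ∀ L v, Cfg r A B (ω * z₁) L v → m ≤ v (ω * z₀) → ω * z₀ ∈ main r L := by
    intro L v hc hv
    rcases i2 with i2 | ⟨i2, i3⟩
    · exact hc.cont.upper_sub ⟨hy.m0, i2⟩
    · refine hc.cont.mem_main hy.m0 i0 fun hL => ?_
      have m0' : m = 0 := by rw [← le_antisymm (up L v hc) hv, hc.sol.zero hL]
      have h3 := hy.h1
      rw [m0', i2, i3] at hb
      rw [i3] at hc h3
      rw [i2] at hL
      refine hE r A B _ _ L v h0 m1.1 m1.2 m0.1 m0.2 (fun e => hne ?_) hA' h3 hb hc hL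
      rw [← conj_mul_rot hω z₀, i2, e, ← i3, conj_mul_rot hω]
  refine ⟨?_, fun a b c κ v g hcr => ⟨?_, (hC1 r A B z₀ z₁ a b c κ v g hch hcr).2.2.2.2.2⟩,
    fun u hu hum => ?_⟩
  · obtain ⟨L, v, hc, hv⟩ := h2 r A B _ _ m hy happ
    obtain ⟨a, b, c, κ, g, e, C, l₀, l₁, f, hcr, hfo, -⟩ :=
      hC r A B _ _ m L v ⟨hy, hc, hb, hv, mem L v hc hv⟩ hA'
    refine ⟨a, b, c, _, _, _, e, C, l₀, l₁, _, r3 a b c κ v g hcr, r4 _ _ _ _ _ _ _ _ hfo, ?_⟩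
    rw [← r2, hm, le_antisymm (up L v hc) hv]
  · obtain ⟨m', hm', -, hb', -⟩ := hM r A B z₀ z₁ hch
    obtain ⟨γ, hγ⟩ := (hC1 r A B z₀ z₁ a b c κ v g hch hcr).2.2.2.2.1
    rw [hm']
    exact_mod_cast hb' _ v (hγ.gc h0 hr1)
  · obtain ⟨w, γ, hg, hγ, hw⟩ := hB r A B _ _ h0 hr1 hA hB0.le (r1 u hu)
    have hw0 : w (ω * z₀) = m := by
      have := hw _ hy.m0
      rw [conj_mul_rot hω, hum, ← r2, hm, max_eq_left (by exact_mod_cast (by linarith))] at this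
      exact_mod_cast this
    obtain ⟨L, v, hc, hfh, hn⟩ := h1 r A B _ _ w γ hy hg
    have hle := (hF1 r A B L w v hc.cont hc.ok hB0.le hc.sol hg.sh hg.outer hg.inner hfh _ hy.m0
      hy.im0).1
    have hmm := mem L v hc (hw0 ▸ hle)
    obtain ⟨a, b, c, κ, g, e, C, l₀, l₁, f, hcr, hfo, hcl, hph⟩ :=
      hC r A B _ _ m L v ⟨hy, hc, hb, hw0 ▸ hle, hmm⟩ hA'
    have hq := base_mem h0 hr1
    obtain ⟨a, b, κ, v, g, f, hcr, hfo, hph, heq⟩ : ∃ a b κ v g f,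
        Crit r A B (ω * z₀) (ω * z₁) a b c κ v g ∧ Form r A B (ω * z₀) κ v g e C l₀ l₁ f ∧
          (∀ t ∈ Icc (0 : ℝ) 1, r < ‖κ t‖) ∧ ∀ z ∈ ann r, w z = v z := by
      rcases i2 with i2 | ⟨i2, i3⟩
      · exact ⟨a, b, κ, v, g, f, hcr, hfo, hph (hn hγ), fun z hz => (hF2 r A B L w v _ hc.cont
          hc.ok hB0.le hc.sol hg.sh hg.outer hg.inner hfh hy.m0 i2 (hw0 ▸ up L v hc)).2 (hn hγ) z
          hz (hcl hz)⟩
      · have j2 : (ω * z₀).im = 0 := by rw [i2]; simp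
        have j3 : (ω * z₁).im = 0 := by rw [i3]; simp
        rcases hF3 r A B L w v _ hc.cont hc.ok hB0.le hc.sol hg.sh hg.outer hg.inner hfh (hn hγ)
          hy.m0 j2 (main_sub r L hmm).2 (hw0 ▸ up L v hc) with e' | e'
        · exact ⟨a, b, κ, v, g, f, hcr, hfo, hph (hn hγ), fun z hz => (hF2 r A B L w v _ hc.cont
            hc.ok hB0.le hc.sol hg.sh hg.outer hg.inner hfh hq.1 hq.2 (e' _ hq.1 hq.2).ge).2
            (hn hγ) z hz (hcl hz)⟩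
        · have k := (hF2 r A B L (fun z => w (conj z)) v _ hc.cont hc.ok hB0.le hc.sol
            (hg.sh.comp_conj fun _ hz => conj_mem_ann.2 hz)
            (fun p hp => ls_conj (hg.outer _ (by rw [norm_conj, hp])))
            (fun p hp => ls_conj (hg.inner _ (by rw [norm_conj, hp]))) (fh_conj hfh) hq.1 hq.2
            (e' _ hq.1 hq.2).ge).2 (hn hγ)
          have k2 := hRc r A B _ _ a b c κ v g hcr
          have k3 := tRc r A B _ κ v g e C l₀ l₁ f (isOpen_W hcr) hfo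
          rw [conj_eq_iff_im.2 j2, conj_eq_iff_im.2 j3] at k2
          rw [conj_eq_iff_im.2 j2] at k3
          refine ⟨_, _, _, _, _, _, k2, k3, fun t ht => by rw [norm_conj]; exact hph (hn hγ) t ht,
            fun z hz => ?_⟩
          have := k _ (conj_mem_ann.2 hz) (hcl (conj_mem_ann.2 hz))
          rwa [conj_conj] at this
    refine ⟨a, b, c, _, _, _, e, C, l₀, l₁, _, r3 a b c κ v g hcr, r4 _ _ _ _ _ _ _ _ hfo,
      fun t ht => ?_, fun z hz => ?_⟩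
    · rw [norm_rot hω']; exact hph t ht
    · have hz' := rot_mem hω hz
      have e1 := hw _ hz'
      rw [conj_mul_rot hω, heq _ hz'] at e1
      have e2 : A ≤ v (ω * z) := ((hC1 r A B _ _ a b c κ v g hy.ch hcr).2.1 _ hz').1
      rcases max_choice (u z) ((A - 1 : ℝ) : EReal) with e3 | e3
      · rw [← e3, ← e1]
      · rw [e3] at e1
        have : v (ω * z) = A - 1 := by exact_mod_cast e1
        linarith

end Pool.Agent.P.MP_3bd355_an
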