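import Pool.Agent.P.MP_3bd355_an.T.St

/-! A connected neighbourhood of the arc on which the solution is small. -/

set_option autoImplicit false

open Set Filter Metric Complex InnerProductSpace
open scoped Topology ComplexConjugate Real

namespace Pool.Agent.P.MP_3bd355_an

namespace TNblP

theorem convex_upH : Convex ℝ upH := convex_halfSpace_im_gt 0

theorem mem_cl (x : ℝ) : (x : ℂ) ∈ closure upH :=
  mem_closure_iff_nhdsWithin_neBot.2 (neBot_upH x)

theorem interval {s0 s1 y : ℝ} (hy : y ∈ Icc s0 s1) (hz : y ∈ Zo s0 s1) (hle : s1 ≤ s0 + 2 * π) :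
    ∃ J : Set ℝ, IsPreconnected J ∧ J ⊆ Zo s0 s1 ∧ y ∈ J ∧ Ioo s0 s1 ⊆ J := by
  by_cases he : s1 = s0 + 2 * π
  · exact ⟨Icc s0 s1, isPreconnected_Icc, fun _ _ => Or.inl he, hy, Ioo_subset_Icc_self⟩
  · refine ⟨Ioo s0 s1, isPreconnected_Ioo, Ioo_sub_Zo, ?_, Subset.rfl⟩
    rcases hz with h | ⟨k, hk1, hk2⟩
    · exact absurd h he
    have hp := Real.pi_pos
    have h1 : (k : ℝ) < 1 := by
      by_contra hc
      push Not at hc
      nlinarith [hy.2]
    have h2 : (-1 : ℝ) < k := by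
      by_contra hc
      push Not at hc
      nlinarith [hy.1]
    have h3 : k = 0 := by
      have a : k < 1 := by exact_mod_cast h1
      have b : -1 < k := by exact_mod_cast h2
      omega
    subst h3
    constructor
    · simpa using hk1
    · simpa using hk2

end TNblP

theorem t_nbl (h : T_GNB) : T_NBL := by
  intro r A B z₁ L v ω φ F hh s0 s1 y Fb hT ε hε
  have hU := hT.fr.unif
  have hP := hT.fr.pic
  have hyZ : y ∈ Zer v F s0 s1 := hT.one.1
  obtain ⟨J, hJ, hJZ, hyJ, hIJ⟩ := TNblP.interval hT.yI hyZ.1 hP.le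
  obtain ⟨P, hP1, hP2, hP3⟩ := h upH ((fun x : ℝ => (x : ℂ)) '' J)
    {η | η ∈ St hh ∧ |v (F η)| < ε} (hJ.image _ Complex.continuous_ofReal.continuousOn)
    (by rintro _ ⟨x, -, rfl⟩; exact TNblP.mem_cl x)
    (by
      intro p _ N hN
      obtain ⟨δ, hδ, hb⟩ := Metric.mem_nhds_iff.1 hN
      exact ⟨ball p δ, isOpen_ball, mem_ball_self hδ, hb,
        ((convex_ball p δ).inter TNblP.convex_upH).isPreconnected⟩)
    (by
      rintro _ ⟨x, hx, rfl⟩
      have h1 := hP.uz A B v hT.fr.cfg.ok hT.fr.cfg.sol x (hJZ hx)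
      have h2 := h1.abs.eventually (gt_mem_nhds (by simpa using hε : |(0 : ℝ)| < ε))
      filter_upwards [St_mem hU.hpos x, h2] with η a b using ⟨a, b⟩)
  have hy := hP3 y ⟨y, hyJ, rfl⟩
  have ho := hT.fr.tip y hyZ
  refine ⟨F '' P, hP1.image _ (hU.dF.continuousOn.mono fun η hη => (hP2 hη).1.1), ?_, ?_, ?_,
    fun p hp h0 h1 => ?_⟩
  · rintro _ ⟨η, hη, rfl⟩
    exact ⟨hU.maps η (hP2 hη).1.1, (hP2 hη).1.2⟩
  · obtain ⟨η, a, b⟩ := (ho.freq_pos.and_eventually hy).exists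
    exact ⟨F η, ⟨η, b, rfl⟩, a⟩
  · obtain ⟨τ, a, b⟩ := (ho.two_neg.and ((tendsto_vert y).eventually hy)).exists
    exact ⟨_, ⟨_, b, rfl⟩, a⟩
  · refine Bd.pull hU hP hT.bd (Or.inl hp) fun x hx hxp => ?_
    have hx' : x ∈ Ioo s0 s1 :=
      ⟨lt_of_le_of_ne hx.1 fun e => h0 (by rw [e, hxp]),
        lt_of_le_of_ne hx.2 fun e => h1 (by rw [← e, hxp])⟩
    filter_upwards [hP3 x ⟨x, hIJ hx', rfl⟩] with η hη using ⟨η, hη, rfl⟩

end Pool.Agent.P.MP_3bd355_an
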