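import Pool.Agent.P.MP_3bd355_an.T.St

open Set Filter Metric Complex InnerProductSpace
open scoped Topology ComplexConjugate Real

namespace Pool.Agent.P.MP_3bd355_an

theorem t_nc : T_NC := by
  intro W f F G x y hW hc hf hF hG ⟨c, hc0, hR⟩
  have key : ∀ z ∈ W, ¬ ∀ᶠ w in 𝓝 z, f w = f z := fun z hz h => by
    have h1 : EqOn f (fun _ => f z) W :=
      (hf.analyticOnNhd hW).eqOn_of_preconnected_of_eventuallyEq analyticOnNhd_const hc hz h
    have h2 : Tendsto (fun η : ℂ => (η - y) ^ 2 * f z) (𝓝[upH] (y : ℂ)) (𝓝 ((y - y) ^ 2 * f z)) :=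
      (Continuous.tendsto (by fun_prop) _).mono_left nhdsWithin_le_nhds
    have := neBot_upH y
    have h3 := tendsto_nhds_unique hR.tendsto
      (h2.congr' (hF.mono fun η hη => by simp only [h1 hη.2.2]))
    rw [sub_self, zero_pow two_ne_zero, zero_mul] at h3
    exact hc0.ne (by exact_mod_cast h3)
  refine ⟨fun a h => ?_, key⟩
  have := neBot_upH x
  obtain ⟨η, ⟨h1, h2, h3, h4⟩, h5⟩ :=
    (((eventually_eventually_nhdsWithin.2 h).and hG).and self_mem_nhdsWithin).exists
  have hU : IsOpen upH := isOpen_lt continuous_const continuous_im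
  rw [hU.nhdsWithin_eq h5] at h1
  refine key _ h4 ?_
  rw [← h2.hasStrictDerivAt.map_nhds_eq h3, h1.self_of_nhds]
  exact h1

end Pool.Agent.P.MP_3bd355_an
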