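import Pool.Agent.P.MP_3bd355_an.T.St

/-! A harmonic function with connected level sets has no critical point. -/

open Set Filter Metric Complex InnerProductSpace
open scoped Topology ComplexConjugate Real

namespace Pool.Agent.P.MP_3bd355_an

namespace TNzP

theorem loc {v : ℂ → ℝ} {z : ℂ} (hv : HarmonicAt v z) (hn : ¬ ∀ᶠ w in 𝓝 z, v w = v z)
    (h0 : grad v z = 0) : ∃ (n : ℕ) (k : ℂ → ℂ), 2 ≤ n ∧ ContinuousAt k z ∧ k z ≠ 0 ∧
      ∀ᶠ w in 𝓝 z, v w - v z = ((w - z) ^ n * k w).re := by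
  obtain ⟨φ, ha, hφ⟩ := harm_exists_re hv
  have hz : v z = (φ z).re := hφ.self_of_nhds
  have hd : deriv φ z = 0 := by
    rw [← grad_re ha.differentiableAt, ← h0]
    exact (grad_congr hφ).symm
  have h1 : AnalyticAt ℂ (fun w => φ w - φ z) z := ha.sub analyticAt_const
  obtain ⟨n, g, hg, hg0, he⟩ := h1.exists_eventuallyEq_pow_smul_nonzero_iff.2 (fun h => hn (by
    filter_upwards [h, hφ] with w e1 e2
    rw [e2, hz, sub_eq_zero.1 e1]))
  have n0 : n ≠ 0 := by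
    rintro rfl
    exact hg0 (by simpa using he.self_of_nhds.symm)
  have n1 : n ≠ 1 := by
    rintro rfl
    have h2 : HasDerivAt (fun w => (w - z) ^ 1 • g w + φ z) (g z) z := by
      have h3 := (((hasDerivAt_id z).sub_const z).mul hg.differentiableAt.hasDerivAt).add_const
        (φ z)
      simp only [id, sub_self, zero_mul, add_zero, one_mul] at h3
      refine h3.congr_of_eventuallyEq (Eventually.of_forall fun w => ?_)
      simp
    have h4 : HasDerivAt φ (g z) z :=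
      h2.congr_of_eventuallyEq (he.mono fun w hw => sub_eq_iff_eq_add.1 hw)
    exact hg0 (h4.deriv.symm.trans hd)
  refine ⟨n, g, by omega, hg.continuousAt, hg0, ?_⟩
  filter_upwards [he, hφ] with w e1 e2
  rw [e2, hz, ← sub_re, e1, smul_eq_mul]

theorem tendsto_ray (z e : ℂ) : Tendsto (fun s : ℝ => z + s * e) (𝓝[>] 0) (𝓝 z) := by
  have h : Continuous fun s : ℝ => z + s * e := by fun_prop
  have h1 := h.tendsto 0
  simp only [ofReal_zero, zero_mul, add_zero] at h1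
  exact h1.mono_left nhdsWithin_le_nhds

theorem ray {u : ℂ → ℝ} {z e : ℂ} {n : ℕ} {k : ℂ → ℂ} {σ : ℝ} (hk : ContinuousAt k z)
    (hu : ∀ᶠ w in 𝓝 z, u w = ((w - z) ^ n * k w).re) (hp : 0 < σ * (e ^ n * k z).re) :
    ∀ᶠ s : ℝ in 𝓝[>] 0, 0 < σ * u (z + s * e) := by
  have h1 : Tendsto (fun s : ℝ => σ * (e ^ n * k (z + s * e)).re) (𝓝[>] 0)
      (𝓝 (σ * (e ^ n * k z).re)) :=
    ((continuous_re.tendsto _).comp ((hk.tendsto.comp (tendsto_ray z e)).const_mul _)).const_mul σ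
  filter_upwards [h1.eventually (lt_mem_nhds hp), (tendsto_ray z e).eventually hu,
    self_mem_nhdsWithin] with s e1 e2 e3
  rw [e2, add_sub_cancel_left, mul_pow, mul_assoc, ← ofReal_pow, re_ofReal_mul, mul_left_comm]
  exact mul_pos (pow_pos e3 n) e1

theorem angle {n : ℕ} (hn : 2 ≤ n) {a : ℂ} (ha : a ≠ 0) (j : ℕ) :
    0 < (-1 : ℝ) ^ j * (exp (I * (((j * π - arg a) / n : ℝ) : ℂ)) ^ n * a).re := by
  have nc : (n : ℂ) ≠ 0 := Nat.cast_ne_zero.2 (by omega)
  have h1 : exp (I * (((j * π - arg a) / n : ℝ) : ℂ)) ^ n * a = (((-1 : ℝ) ^ j * ‖a‖ : ℝ) : ℂ) := by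
    have h2 : (n : ℂ) * (I * (((j * π - arg a) / n : ℝ) : ℂ)) + arg a * I = j * (π * I) := by
      push_cast
      field_simp
      ring
    have h3 : ∀ x : ℂ, exp x * a = ‖a‖ * exp (x + arg a * I) := fun x => by
      rw [exp_add, mul_left_comm, norm_mul_exp_arg_mul_I]
    rw [← exp_nat_mul, h3, h2, exp_nat_mul, exp_pi_mul_I]
    push_cast
    ring
  rw [h1, ofReal_re, ← mul_assoc, ← mul_pow]
  simpa using ha

end TNzP

open TNzP

theorem t_nz (h : E_CROSS) : T_NZ := by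
  intro W v hW hc hv hne hl z hz h0
  have hn : ¬ ∀ᶠ w in 𝓝 z, v w = v z := fun he => by
    obtain ⟨a, ha, b, hb, hab⟩ := hne
    have h1 := harm_identity hW hc hv hz he.eventually_nhds.frequently
    exact hab ((h1 a ha).trans (h1 b hb).symm)
  obtain ⟨n, k, hn2, hk, hk0, he⟩ := loc (hv z hz) hn h0
  set θ : ℕ → ℝ := fun j => (j * π - arg (k z)) / n with hθ
  have hr : ∀ j : ℕ, ∀ᶠ s : ℝ in 𝓝[>] 0, z + s * exp (I * θ j) ∈ W ∧
      0 < (-1 : ℝ) ^ j * (v (z + s * exp (I * θ j)) - v z) := fun j =>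
    ((tendsto_ray z _).eventually (hW.mem_nhds hz)).and
      (ray (u := fun w => v w - v z) hk he (angle hn2 hk0 j))
  have hX : ∀ j : ℕ, Even j → ∀ᶠ s : ℝ in 𝓝[>] 0,
      z + s * exp (I * θ j) ∈ {w | w ∈ W ∧ v z < v w} := fun j hj => by
    filter_upwards [hr j] with s hs
    refine ⟨hs.1, ?_⟩
    have h1 := hs.2
    rw [hj.neg_one_pow] at h1
    linarith
  have hY : ∀ j : ℕ, Odd j → ∀ᶠ s : ℝ in 𝓝[>] 0,
      z + s * exp (I * θ j) ∈ {w | w ∈ W ∧ v w < v z} := fun j hj => by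
    filter_upwards [hr j] with s hs
    refine ⟨hs.1, ?_⟩
    have h1 := hs.2
    rw [hj.neg_one_pow] at h1
    linarith
  obtain ⟨ε, hε, hs⟩ := mem_nhdsGT_iff_exists_Ioo_subset.1
    ((hX 0 (by decide)).and ((hY 1 (by decide)).and ((hX 2 (by decide)).and (hY 3 (by decide)))))
  have hcont : ContinuousOn v W := fun w hw => (harm_diff (hv w hw)).continuousAt.continuousWithinAt
  have oX : IsOpen {w | w ∈ W ∧ v z < v w} := hcont.isOpen_inter_preimage hW isOpen_Ioi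
  have oY : IsOpen {w | w ∈ W ∧ v w < v z} := hcont.isOpen_inter_preimage hW isOpen_Iio
  have hm : ε / 2 ∈ Ioo (0 : ℝ) ε := ⟨half_pos hε, half_lt_self hε⟩
  have hnp : (0 : ℝ) < n := Nat.cast_pos.2 (by omega)
  have hn2' : (2 : ℝ) ≤ n := by exact_mod_cast hn2
  have hlt : ∀ i j : ℕ, i < j → θ i < θ j := fun i j hij =>
    div_lt_div_of_pos_right (sub_lt_sub_right
      (mul_lt_mul_of_pos_right (Nat.cast_lt.2 hij) Real.pi_pos) _) hnp
  refine h z 0 ε (θ 0) (θ 1) (θ 2) (θ 3) {w | w ∈ W ∧ v z < v w} {w | w ∈ W ∧ v w < v z} le_rfl hε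
    (hlt 0 1 (by decide)) (hlt 1 2 (by decide)) (hlt 2 3 (by decide)) ?_
    (oX.isConnected_iff_isPathConnected.1 ⟨⟨_, (hs hm).1⟩, (hl _).1⟩)
    (oY.isConnected_iff_isPathConnected.1 ⟨⟨_, (hs hm).2.1⟩, (hl _).2⟩) ?_ ?_ ?_ ?_
  · simp only [hθ]
    rw [div_add' _ _ _ hnp.ne', div_lt_div_iff_of_pos_right hnp]
    push_cast
    nlinarith [Real.pi_pos]
  · intro w hw
    refine norm_pos_iff.2 (sub_ne_zero.2 ?_)
    rintro rfl
    exact lt_irrefl _ hw.2
  · intro w hw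
    refine norm_pos_iff.2 (sub_ne_zero.2 ?_)
    rintro rfl
    exact lt_irrefl _ hw.2
  · intro s hs'
    rw [zero_add] at hs'
    exact hs hs'
  · exact Set.disjoint_left.2 fun w h1 h2 => lt_asymm h1.2 h2.2

end Pool.Agent.P.MP_3bd355_an
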