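import Pool.Agent.P.MP_3bd355_an.T.St

/-! Properties near the frontier are read in the three charts. -/

set_option autoImplicit false

open Set Filter Metric Complex InnerProductSpace
open scoped Topology ComplexConjugate Real

namespace Pool.Agent.P.MP_3bd355_an

namespace TPullP

theorem chart {W : Set ℂ} {G : ℂ → ℂ} {x : ℝ} {P : ℂ → Prop} (h1 : AnalyticAt ℂ G x)
    (h2 : deriv G x ≠ 0) (h3 : ∀ η, G η ∈ W → η ∈ upH)
    (h : ∀ᶠ η : ℂ in 𝓝[upH] (x : ℂ), P (G η)) : ∀ᶠ z in 𝓝[W] (G x), P z := by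
  have h4 := image_mem_map (m := G) (eventually_nhdsWithin_iff.1 h)
  rw [h1.hasStrictDerivAt.map_nhds_eq h2] at h4
  refine eventually_nhdsWithin_iff.2 (mem_of_superset h4 ?_)
  rintro _ ⟨η, hη, rfl⟩ hW
  exact hη (h3 η hW)

end TPullP

theorem t_pull : T_PULL := by
  intro r A B z₁ L v ω φ F hh s0 s1 y Fb P T ha hb hF p hp
  have hY : p ∈ YS r L → ∀ᶠ z in 𝓝[main r L] p, P z := fun hY =>
    T.fr.unif.pull hY s0 fun x hx => ⟨univ, univ_mem, (hF x hx).mono fun _ h _ => h⟩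
  rcases (T.cont.frontier_sub hp).2.2 with h1 | h1 | h1
  · exact hY (Or.inl (Or.inl h1))
  · by_cases ht : ∃ q ∈ L, ‖q‖ = r
    · exact hY (Or.inl (Or.inr ⟨h1.1.le, ht⟩))
    have hs : s1 = s0 + 2 * π :=
      T.fr.pic.le.eq_or_lt.resolve_right fun hlt => ht (T.fr.pic.touch.2 hlt)
    have e : Eb r ((-arg p : ℝ) : ℂ) = p := by
      unfold Eb
      conv_rhs => rw [← norm_mul_exp_arg_mul_I p, h1.1]
      congr 2
      push_cast
      ring
    rw [← e]
    refine TPullP.chart (analytic_Eb r _) ?_ (fun η hη => ?_) (hb hs _)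
    · rw [deriv_Eb, e]
      refine mul_ne_zero (neg_ne_zero.2 I_ne_zero) (norm_pos_iff.1 ?_)
      rw [h1.1]
      exact T.cont.r0
    · have h2 := (main_sub r L hη).1.1
      rw [norm_Eb T.cont.r0, lt_mul_iff_one_lt_right T.cont.r0, Real.one_lt_exp_iff] at h2
      exact h2
  · have e : Ea ((arg p : ℝ) : ℂ) = p := by
      unfold Ea
      conv_rhs => rw [← norm_mul_exp_arg_mul_I p, h1]
      rw [ofReal_one, one_mul, mul_comm]
    rw [← e]
    refine TPullP.chart (analytic_Ea _) ?_ (fun η hη => ?_) (ha _)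
    · rw [deriv_Ea]
      exact mul_ne_zero I_ne_zero (exp_ne_zero _)
    · have h2 := (main_sub r L hη).1.2
      rw [norm_Ea, Real.exp_lt_one_iff] at h2
      exact neg_lt_zero.1 h2

end Pool.Agent.P.MP_3bd355_an
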