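import Pool.Agent.P.MP_3bd355_an.T.St

/-! The ranges of the boundary values. -/

open Set Filter Metric Complex InnerProductSpace
open scoped Topology ComplexConjugate Real

namespace Pool.Agent.P.MP_3bd355_an

namespace TRngP

theorem int_zero {k : ℤ} (h1 : -(2 * π) < 2 * π * k) (h2 : 2 * π * k < 2 * π) : k = 0 := by
  have h0 : (0 : ℝ) < 2 * π := by positivity
  have a1 : (-1 : ℝ) < k := lt_of_mul_lt_mul_left (a := 2 * π) (by linarith) h0.le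
  have a2 : (k : ℝ) < 1 := lt_of_mul_lt_mul_left (a := 2 * π) (by linarith) h0.le
  have b1 : -1 < k := by exact_mod_cast a1
  have b2 : k < 1 := by exact_mod_cast a2
  omega

theorem ne_shift {x y : ℝ} (h1 : -(2 * π) < x - y) (h2 : x - y < 2 * π) (h : x ≠ y) (k : ℤ) :
    x ≠ y + 2 * π * k := fun e => by
  have : k = 0 := int_zero (by linarith) (by linarith)
  exact h (by simpa [this] using e)

theorem back {G : ℂ → ℂ} {h : ℝ} (hh : 0 < h)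
    (hG : ∀ (k : ℤ), ∀ η ∈ St h, G (η + (2 * π * k : ℝ)) = G η) {x c : ℝ} {k : ℤ}
    (hx : RA G (x - 2 * π * k) c) : RA G x c := by
  simpa using hx.per hh hG k

theorem circ (h1 : T_RNGc) {G : ℂ → ℂ} {P : ℝ → Prop}
    (hG : ∀ (k : ℤ) (η : ℂ), G (η + (2 * π * k : ℝ)) = G η) (hP : ∀ x : ℝ, ∃ c, P c ∧ RA G x c)
    (hn : ∀ c : ℂ, ¬ ∀ᶠ η : ℂ in 𝓝[upH] ((0 : ℝ) : ℂ), G η = c) :
    ∃ a b : ℝ, a < b ∧ P a ∧ P b ∧ (∀ x : ℝ, ∃ c ∈ Icc a b, RA G x c) ∧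
      ∀ c ∈ Icc a b, ∃ x : ℝ, RA G x c := by
  obtain ⟨a, b, hab, k1, k2⟩ := h1 G 0 (0 + 2 * π) (by simpa using Real.pi_pos)
    (fun x _ => (hP x).imp fun _ e => e.2) hn
  have k3 : ∀ c ∈ Icc a b, P c := fun c hc => by
    obtain ⟨x, -, hx⟩ := k2 c hc
    obtain ⟨d, hd, hx'⟩ := hP x
    exact hx'.unique hx ▸ hd
  refine ⟨a, b, hab, k3 a ⟨le_rfl, hab.le⟩, k3 b ⟨hab.le, le_rfl⟩, fun x => ?_,
    fun c hc => (k2 c hc).imp fun _ e => e.2⟩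
  obtain ⟨k, hk⟩ := UniFP.exists_Ico 0 x
  obtain ⟨c, hc, hx⟩ := k1 _ (Ico_subset_Icc_self hk)
  exact ⟨c, hc, back one_pos (fun k η _ => hG k η) hx⟩

theorem two (h2 : T_RNGz) {G : ℂ → ℂ} {p y q : ℝ} (hp : p < y) (hq : y < q)
    (hv : ∀ x ∈ Icc p q, x ≠ y → ∃ c, RA G x c)
    (ht : ∃ c : ℝ, c < 0 ∧ RA (fun η => (η - y) ^ 2 * G η) y c) :
    ∃ b : ℝ, (∀ x ∈ Icc p q, x ≠ y → ∃ c ≤ b, RA G x c) ∧
      ∀ c ≤ b, ∃ x ∈ Icc p q, x ≠ y ∧ RA G x c := by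
  have s1 : uIcc p y ⊆ Icc p q := by
    rw [uIcc_of_le hp.le]; exact Icc_subset_Icc_right hq.le
  have s2 : uIcc q y ⊆ Icc p q := by
    rw [uIcc_of_ge hq.le]; exact Icc_subset_Icc_left hp.le
  obtain ⟨a, a1, a2⟩ := h2 G p y hp.ne (fun x hx => hv x (s1 hx)) ht
  obtain ⟨b, b1, b2⟩ := h2 G q y hq.ne' (fun x hx => hv x (s2 hx)) ht
  refine ⟨max a b, fun x hx hy => ?_, fun c hc => ?_⟩
  · rcases le_total x y with e | e
    · obtain ⟨c, hc, k⟩ := a1 x (by rw [uIcc_of_le hp.le]; exact ⟨hx.1, e⟩) hy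
      exact ⟨c, hc.trans (le_max_left _ _), k⟩
    · obtain ⟨c, hc, k⟩ := b1 x (by rw [uIcc_of_ge hq.le]; exact ⟨e, hx.2⟩) hy
      exact ⟨c, hc.trans (le_max_right _ _), k⟩
  · rcases le_max_iff.1 hc with e | e
    · exact (a2 c e).imp fun _ k => ⟨s1 k.1, k.2⟩
    · exact (b2 c e).imp fun _ k => ⟨s2 k.1, k.2⟩

theorem vec (a b c d e : ℝ) :
    ∃ u : Fin 5 → ℝ, u 0 = a ∧ u 1 = b ∧ u 2 = c ∧ u 3 = d ∧ u 4 = e :=
  ⟨![a, b, c, d, e], rfl, rfl, rfl, rfl, rfl⟩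

theorem sl {e : Fin 5 → ℝ} {c : ℝ} (h : (c : ℂ) ∈ Sl e) :
    c ≤ e 0 ∨ c ∈ Icc (e 1) (e 2) ∨ c ∈ Icc (e 3) (e 4) := h.2

end TRngP

open TRngP in
theorem t_rng (h1 : T_RNGc) (h2 : T_RNGz) (h3 : T_NC) : T_RNG := by
  intro r A B z₁ L v ω φ F h s0 s1 y Fb f T hf D
  have pi := Real.pi_pos
  have nc : ∀ (G : ℂ → ℂ) (x : ℝ), Ch (main r L) G x →
      ∀ c : ℂ, ¬ ∀ᶠ η : ℂ in 𝓝[upH] (x : ℂ), f (G η) = c := fun G x hG =>
    (h3 _ f F G x y T.cont.isOpen_main (preconn_main r L) hf (T.chF y) hG D.tip).1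
  have hh := T.fr.unif.hpos
  have pF : ∀ (k : ℤ), ∀ η ∈ St h, (fun η => f (F η)) (η + (2 * π * k : ℝ)) = (fun η => f (F η)) η :=
    fun k η hη => congrArg f (T.fr.unif.periodic k hη)
  obtain ⟨e3, e4, h34, p3, -, al, al'⟩ := circ h1 (G := fun η => f (Ea η))
    (fun k η => congrArg f (Ea_per k η)) D.al (nc Ea 0 (T.chA 0))
  rcases eq_or_lt_of_le T.fr.pic.le with hs | hs
  · obtain ⟨e1, e2, h12, p1, p2, be, be'⟩ := circ h1 (G := fun η => f (Eb r η))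
      (fun k η => congrArg f (Eb_per r k η)) (D.be hs) (nc (Eb r) 0 (T.chB hs 0))
    have z1 : ∀ x ∈ Icc (y - π) (y + π), x ≠ y → ∃ c : ℝ, c < 0 ∧ RA (fun η => f (F η)) x c :=
      fun x hx hy => D.ze x (Or.inl hs)
        (ne_shift (by linarith [hx.1]) (by linarith [hx.2]) hy)
    obtain ⟨e0, ze, ze'⟩ := two h2 (G := fun η => f (F η)) (p := y - π) (q := y + π) (by linarith)
      (by linarith) (fun x hx hy => (z1 x hx hy).imp fun _ e => e.2) D.tip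
    have p0 : e0 < 0 := by
      obtain ⟨x, hx, hy, k⟩ := ze' e0 le_rfl
      obtain ⟨c, hc, k'⟩ := z1 x hx hy
      exact k'.unique k ▸ hc
    obtain ⟨e, rfl, rfl, rfl, rfl, rfl⟩ := vec e0 e1 e2 e3 e4
    refine ⟨e, ⟨(p0.trans p1.1).le, h12, p2.2.trans p3, h34⟩, iff_of_true (p0.trans p1.1) hs, al,
      fun _ => be, ?_, fun x _ hx => ?_, fun e => absurd hs e.ne, D.tip, fun c hc => ?_⟩
    · rintro x ⟨k, hk⟩
      linarith [hk.1, hk.2]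
    · obtain ⟨k, hk⟩ := UniFP.exists_Ico (y - π) x
      obtain ⟨c, hc, k'⟩ := ze _ ⟨hk.1, by linarith [hk.2]⟩ fun e => hx k (by linarith)
      exact ⟨c, hc, back hh pF k'⟩
    · rcases sl hc with a | a | a
      · exact (ze' c a).imp fun _ k => Or.inr (Or.inr k.2.2)
      · exact (be' c a).imp fun _ k => Or.inr (Or.inl ⟨hs, k⟩)
      · exact (al' c a).imp fun _ k => Or.inl k
  · have hy : y ∈ Ioo s0 s1 := by
      rcases T.one.1.1 with a | ⟨k, hk⟩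
      · exact absurd a hs.ne
      · have : k = 0 := int_zero (by linarith [hk.2, T.yI.1]) (by linarith [hk.1, T.yI.2])
        simpa [this] using hk
    obtain ⟨n0, n1⟩ := D.en hs
    have n2 : RA (fun η => f (F η)) (s0 + 2 * π) 0 := by simpa using n0.per hh pF 1
    have z1 : ∀ x ∈ Icc s0 s1, x ≠ y → ∃ c : ℝ, c ≤ 0 ∧ RA (fun η => f (F η)) x c := by
      intro x hx hxy
      rcases Icc_cases hs.le hx with a | ⟨-, rfl | rfl⟩
      · exact (D.ze x a (ne_shift (by linarith [hx.1, hy.2]) (by linarith [hx.2, hy.1]) hxy)).imp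
          fun _ e => ⟨e.1.le, e.2⟩
      · exact ⟨0, le_rfl, n0⟩
      · exact ⟨0, le_rfl, n1⟩
    obtain ⟨e0, ze, ze'⟩ := two h2 (G := fun η => f (F η)) hy.1 hy.2
      (fun x hx hy => (z1 x hx hy).imp fun _ e => e.2) D.tip
    have p0 : e0 = 0 := by
      obtain ⟨x, hx, hxy, k⟩ := ze' e0 le_rfl
      obtain ⟨c, hc, k'⟩ := z1 x hx hxy
      obtain ⟨d, hd, k''⟩ := ze s0 ⟨le_rfl, T.fr.pic.lt.le⟩ hy.1.ne
      exact le_antisymm (k'.unique k ▸ hc) (k''.unique n0 ▸ hd)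
    have hq : 0 < 1 / (B - A) := one_div_pos.2 (by linarith [T.A0, T.B0])
    have x1 : ∀ x ∈ Icc s1 (s0 + 2 * π), ∃ c ∈ Ico 0 (1 / (B - A)), RA (fun η => f (F η)) x c := by
      intro x hx
      rcases eq_or_lt_of_le hx.1 with rfl | a
      · exact ⟨0, ⟨le_rfl, hq⟩, n1⟩
      rcases eq_or_lt_of_le hx.2 with rfl | b
      · exact ⟨0, ⟨le_rfl, hq⟩, n2⟩
      · exact (D.ex x (Ioo_sub_Eo ⟨a, b⟩)).imp fun _ e => ⟨Ioo_subset_Ico_self e.1, e.2⟩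
    obtain ⟨e1, e2, h12, ex, ex'⟩ := h1 (fun η => f (F η)) s1 (s0 + 2 * π) hs
      (fun x hx => (x1 x hx).imp fun _ e => e.2) (nc F s1 (T.chF s1))
    have k3 : ∀ c ∈ Icc e1 e2, c ∈ Ico 0 (1 / (B - A)) := fun c hc => by
      obtain ⟨x, hx, k⟩ := ex' c hc
      obtain ⟨d, hd, k'⟩ := x1 x hx
      exact k'.unique k ▸ hd
    have p1 : e1 = 0 := by
      obtain ⟨d, hd, k⟩ := ex s1 ⟨le_rfl, hs.le⟩
      exact le_antisymm (k.unique n1 ▸ hd.1) (k3 e1 ⟨le_rfl, h12.le⟩).1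
    obtain ⟨e, rfl, rfl, rfl, rfl, rfl⟩ := vec e0 e1 e2 e3 e4
    refine ⟨e, ⟨(p0.trans p1.symm).le, h12, (k3 _ ⟨h12.le, le_rfl⟩).2.trans p3, h34⟩,
      iff_of_false (p1.trans p0.symm).not_gt hs.ne, al, fun e => absurd e hs.ne, ?_,
      fun x hx hk => ?_, fun _ => ⟨p0.trans p1.symm, p0 ▸ n0, p0 ▸ n1⟩, D.tip, fun c hc => ?_⟩
    · rintro x ⟨k, hk⟩
      obtain ⟨c, hc, k'⟩ := ex _ (Ioo_subset_Icc_self hk)
      exact ⟨c, hc, back hh pF k'⟩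
    · exact (D.ze x hx hk).imp fun _ e => ⟨e.1.le.trans p0.ge, e.2⟩
    · rcases sl hc with a | a | a
      · exact (ze' c a).imp fun _ k => Or.inr (Or.inr k.2.2)
      · exact (ex' c a).imp fun _ k => Or.inr (Or.inr k.2)
      · exact (al' c a).imp fun _ k => Or.inl k

end Pool.Agent.P.MP_3bd355_an
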