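import Pool.Agent.P.MP_3bd355_an.T.St

/-! The range of the boundary values on a compact interval. -/

open Set Filter Metric Complex InnerProductSpace
open scoped Topology ComplexConjugate Real

namespace Pool.Agent.P.MP_3bd355_an

namespace TRngcP

variable {G : ℂ → ℂ} {x c : ℝ}

/-- The boundary value. -/
noncomputable def val (G : ℂ → ℂ) (x : ℝ) : ℝ := Classical.epsilon fun c => RA G x c

theorem val_spec (h : ∃ c, RA G x c) : RA G x (val G x) := Classical.epsilon_spec h

theorem val_eq (h : RA G x c) : val G x = c := (val_spec ⟨c, h⟩).unique h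

theorem val_cont (h : ∃ c, RA G x c) : ContinuousAt (val G) x := by
  obtain ⟨Ψ, h1, -, -, h4⟩ := h.choose_spec.near
  exact (continuous_re.continuousAt.comp
    (h1.continuousAt.comp continuous_ofReal.continuousAt)).congr
      (h4.mono fun t ht => (val_eq ht.2).symm)

theorem const (h : ∃ c, RA G x c) (hc : ∀ᶠ t in 𝓝[>] x, val G t = c) :
    ∀ᶠ η : ℂ in 𝓝[upH] (x : ℂ), G η = c := by
  obtain ⟨Ψ, h1, -, h3, h4⟩ := h.choose_spec.near
  have k : Tendsto (fun t : ℝ => (t : ℂ)) (𝓝[>] x) (𝓝[≠] (x : ℂ)) :=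
    tendsto_nhdsWithin_iff.2 ⟨(continuous_ofReal.tendsto x).mono_left nhdsWithin_le_nhds,
      eventually_mem_nhdsWithin.mono fun t ht e => ne_of_gt ht (ofReal_injective e)⟩
  have e : ∀ᶠ t : ℝ in 𝓝[>] x, Ψ t = c := by
    filter_upwards [hc, nhdsWithin_le_nhds h4] with t a b
    exact Complex.ext (by rw [← val_eq b.2, a, ofReal_re]) (by simpa using b.1)
  filter_upwards [h3, nhdsWithin_le_nhds ((h1.frequently_eq_iff_eventually_eq
    analyticAt_const).1 (k.frequently e.frequently))] with η a b using a.trans b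

end TRngcP

open TRngcP in
theorem t_rngc : T_RNGc := by
  intro G p q hpq h hn
  have e := ContinuousOn.image_Icc hpq.le fun x hx => (val_cont (h x hx)).continuousWithinAt
  have k : ∀ x ∈ Icc p q, val G x ∈ Icc (sInf (val G '' Icc p q)) (sSup (val G '' Icc p q)) :=
    fun x hx => e.subset (mem_image_of_mem _ hx)
  refine ⟨_, _, ?_, fun x hx => ⟨_, k x hx, val_spec (h x hx)⟩, fun c hc => ?_⟩
  · by_contra hab
    refine hn _ (const (c := sInf (val G '' Icc p q)) (h p (left_mem_Icc.2 hpq.le)) ?_)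
    filter_upwards [Ioo_mem_nhdsGT hpq] with t ht
    have := k t (Ioo_subset_Icc_self ht)
    exact le_antisymm (this.2.trans (not_lt.1 hab)) this.1
  · obtain ⟨x, hx, rfl⟩ := e.superset hc
    exact ⟨x, hx, val_spec (h x hx)⟩

end Pool.Agent.P.MP_3bd355_an
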