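import Pool.Agent.P.MP_3bd355_an.T.St

/-! The range of the boundary values on an interval that ends at the double pole. -/

namespace Pool.Agent.P.MP_3bd355_an

open Set Filter Metric Complex InnerProductSpace
open scoped Topology ComplexConjugate Real

theorem t_rngz : T_RNGz := by
  rintro G q y hq h1 ⟨c0, hc0, h2⟩
  let val : ℝ → ℝ := fun x => (limUnder (𝓝[upH] (x : ℂ)) G).re
  have hv : ∀ x c, RA G x c → val x = c := fun x c h => by
    have := neBot_upH x
    simp only [val, h.tendsto.limUnder_eq, ofReal_re]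
  have cre : ∀ (Ψ : ℂ → ℂ) (x : ℝ), AnalyticAt ℂ Ψ x → ContinuousAt (fun t : ℝ => (Ψ t).re) x :=
    fun Ψ x h => continuous_re.continuousAt.comp
      (h.continuousAt.comp (f := fun t : ℝ => (t : ℂ)) continuous_ofReal.continuousAt)
  let S : Set ℝ := uIcc q y \ {y}
  have hS : ∀ x ∈ S, RA G x (val x) := fun x hx => by
    obtain ⟨c, hc⟩ := h1 x hx.1 hx.2
    rwa [hv x c hc]
  have hc : ContinuousOn val S := fun x hx => by
    obtain ⟨Ψ, a1, -, -, a2⟩ := (hS x hx).near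
    exact ((cre Ψ x a1).congr (a2.mono fun t ht => (hv _ _ ht.2).symm)).continuousWithinAt
  have ht : Tendsto val (𝓝[S] y) atBot := by
    obtain ⟨Ψ, a1, a2, -, a3⟩ := h2.near
    have b1 : Tendsto (fun t : ℝ => (Ψ t).re) (𝓝[S] y) (𝓝 c0) := by
      have := (cre Ψ y a1).tendsto
      rw [a2, ofReal_re] at this
      exact this.mono_left nhdsWithin_le_nhds
    have b2 : Tendsto (fun t : ℝ => ((t - y) ^ 2)⁻¹) (𝓝[S] y) atTop := by
      refine tendsto_inv_nhdsGT_zero.comp (tendsto_nhdsWithin_iff.2 ⟨?_, ?_⟩)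
      · have : Continuous fun t : ℝ => (t - y) ^ 2 := by fun_prop
        simpa using (this.tendsto y).mono_left nhdsWithin_le_nhds
      · filter_upwards [self_mem_nhdsWithin] with t ht using
          sq_pos_of_ne_zero (sub_ne_zero.2 ht.2)
    refine (b1.neg_mul_atTop hc0 b2).congr' ?_
    filter_upwards [a3.filter_mono nhdsWithin_le_nhds, self_mem_nhdsWithin] with t b3 b4
    have b5 : (t : ℂ) - y ≠ 0 := by exact_mod_cast sub_ne_zero.2 b4.2
    have b6 := RA.of_ana (G := fun η => ((η - y) ^ 2)⁻¹) (x := t)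
      (AnalyticAt.inv (by fun_prop) (pow_ne_zero 2 b5)) (.of_forall fun s => by
        rw [← ofReal_sub, ← ofReal_pow, ← ofReal_inv, ofReal_im])
    rw [← ofReal_sub, ← ofReal_pow, ← ofReal_inv, ofReal_re] at b6
    refine (hv _ _ ((b3.2.mul b6).congr ?_)).symm
    filter_upwards [self_mem_nhdsWithin] with η hη
    have : η - y ≠ 0 := fun e => by
      have := congrArg im e
      simp only [sub_im, ofReal_im, sub_zero, zero_im] at this
      exact (ne_of_gt hη) this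
    field_simp
  have qS : q ∈ S := ⟨left_mem_uIcc, hq⟩
  obtain ⟨U, U1, U2, U3⟩ := mem_nhdsWithin.1 (ht.eventually (eventually_lt_atBot (val q)))
  have qK : q ∈ uIcc q y \ U := ⟨left_mem_uIcc, fun h => lt_irrefl (val q) (U3 ⟨h, qS⟩)⟩
  have KS : uIcc q y \ U ⊆ S := fun x hx => ⟨hx.1, fun e => hx.2 (e ▸ U2)⟩
  obtain ⟨p, hp, hm⟩ := (isCompact_uIcc.diff U1).exists_isMaxOn ⟨q, qK⟩ (hc.mono KS)
  refine ⟨val p, fun x hx hxy => ⟨val x, ?_, hS x ⟨hx, hxy⟩⟩, fun c hcp => ?_⟩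
  · by_cases hU : x ∈ U
    · exact (le_of_lt (U3 ⟨hU, hx, hxy⟩)).trans (hm qK)
    · exact hm ⟨hx, hU⟩
  have e : S = Ico q y ∧ q < y ∨ S = Ioc y q ∧ y < q := by
    rcases lt_or_gt_of_ne hq with h | h
    · exact .inl ⟨by simp only [S, uIcc_of_le h.le, Icc_sdiff_right], h⟩
    · exact .inr ⟨by simp only [S, uIcc_of_ge h.le, Icc_sdiff_left], h⟩
  have e2 : IsPreconnected S ∧ (𝓝[S] y).NeBot := by
    rcases e with ⟨e, h⟩ | ⟨e, h⟩ <;> rw [e]
    · exact ⟨isPreconnected_Ico, right_nhdsWithin_Ico_neBot h⟩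
    · exact ⟨isPreconnected_Ioc, left_nhdsWithin_Ioc_neBot h⟩
  have := e2.2
  obtain ⟨x, hx, rfl⟩ := e2.1.intermediate_value_Iic (l := 𝓝[S] y) (KS hp) inf_le_right hc ht hcp
  exact ⟨x, hx.1, hx.2, hS x hx⟩

end Pool.Agent.P.MP_3bd355_an
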