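import Pool.Agent.P.MP_3bd355_an.T.St
import Pool.Agent.P.MP_3bd355_an.Pk.Br

/-! Rotation and reflection of the explicit form. -/

open Set Filter Metric Complex InnerProductSpace
open scoped Topology ComplexConjugate Real

namespace Pool.Agent.P.MP_3bd355_an

namespace TRotP

theorem grad_mul (u : ℂ → ℝ) (c z : ℂ) (hc : c ≠ 0) :
    grad (fun y => u (c * y)) z = grad u (c * z) * c := by
  refine GradP.grad_of_fderiv fun β => ?_
  let E : ℂ ≃L[ℝ] ℂ := (ContinuousLinearEquiv.unitsEquivAut ℂ (Units.mk0 c hc)).restrictScalars ℝ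
  have hE : ∀ y, E y = c * y := fun y => by
    simp [E, ContinuousLinearEquiv.unitsEquivAut_apply, mul_comm]
  have e : (fun y => u (c * y)) = u ∘ E := funext fun y => by simp [hE]
  rw [e, E.comp_right_fderiv]
  simp only [ContinuousLinearMap.comp_apply, ContinuousLinearEquiv.coe_coe, hE]
  rw [fderiv_eq_grad, mul_assoc]

theorem hv_conj (C : ℝ) (e : Fin 5 → ℝ) (t : ℂ) : HV C e (conj t) = HV C e t := by
  simp only [HV, conj_re, conj_im, abs_neg]

theorem sl_conj {e : Fin 5 → ℝ} {t : ℂ} : conj t ∈ Sl e ↔ t ∈ Sl e := by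
  simp only [Sl, mem_ofPred_eq, conj_re, conj_im, neg_eq_zero]

theorem gk_conj (t₀ p : ℂ) (l₀ l₁ : ℝ) (t : ℂ) :
    GK (conj t₀) (conj p) l₀ l₁ (conj t) = conj (GK t₀ p l₀ l₁ t) := by
  simp only [GK, map_sub, map_add, map_mul, map_div₀, conj_ofReal, conj_conj, map_ofNat]

end TRotP

open TRotP

theorem t_rot : T_ROT := by
  intro r A B z₀ ω κ v g e C l₀ l₁ f hω h
  have h0 : ω ≠ 0 := fun e => by simp [e] at hω
  have h0' : conj ω ≠ 0 := by simpa using h0
  have im : ∀ z, z ∈ (fun t => ω * κ t) '' Icc 0 1 ↔ conj ω * z ∈ κ '' Icc 0 1 := fun z =>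
    ⟨fun ⟨t, ht, e⟩ => ⟨t, ht, by rw [← e, BrP.st hω]⟩, fun ⟨t, ht, e⟩ => ⟨t, ht, by
      simp only [e, BrP.ts hω]⟩⟩
  have mW : ∀ z ∈ ann r \ (fun t => ω * κ t) '' Icc 0 1, conj ω * z ∈ ann r \ κ '' Icc 0 1 :=
    fun z hz => ⟨(BrP.ann_s hω).2 hz.1, fun e => hz.2 ((im z).2 e)⟩
  have hd : ∀ z, deriv (fun z => f (conj ω * z)) z = deriv f (conj ω * z) * conj ω := fun z => by
    rw [deriv_comp_mul_left, smul_eq_mul, mul_comm]
  refine
    { ord := h.ord
      sep := by simpa only [BrP.nt hω] using h.sep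
      diff := h.diff.comp (f := fun z => conj ω * z) (by fun_prop) mW
      bij := h.bij.comp (f := fun z => conj ω * z)
        ⟨mW, fun _ _ _ _ e => mul_left_cancel₀ h0' e, fun y hy => ⟨ω * y,
          ⟨(BrP.ann_t hω).2 hy.1, fun e => hy.2 (by simpa only [BrP.st hω] using (im _).1 e)⟩,
          BrP.st hω y⟩⟩
      val := fun z hz => h.val _ (mW z hz)
      valA := h.valA
      valB := h.valB
      gv := fun z hz => ?_
      gg := fun z hz h1 h2 => ?_ }
  · rw [grad_mul _ _ _ h0', hd, mul_pow, mul_pow]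
    linear_combination (conj ω) ^ 2 * h.gv _ (mW z hz)
  · simp only [BrP.st hω] at h1 h2
    rw [grad_mul _ _ _ h0', grad_mul _ _ _ h0', grad_mul _ _ _ h0', hd, hd]
    simp only [BrP.st hω]
    rw [mul_div_mul_right _ _ h0', h.gg _ (mW z hz) h1 h2]
    ring

theorem t_rotc : T_ROTc := by
  intro r A B z₀ κ v g e C l₀ l₁ f ho h
  have im : ∀ z, z ∈ (fun t => conj (κ t)) '' Icc 0 1 ↔ conj z ∈ κ '' Icc 0 1 := fun z =>
    ⟨fun ⟨t, ht, e⟩ => ⟨t, ht, by rw [← e, conj_conj]⟩, fun ⟨t, ht, e⟩ => ⟨t, ht, by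
      simp only [e, conj_conj]⟩⟩
  have mW : ∀ z ∈ ann r \ (fun t => conj (κ t)) '' Icc 0 1, conj z ∈ ann r \ κ '' Icc 0 1 :=
    fun z hz => ⟨conj_mem_ann.2 hz.1, fun e => hz.2 ((im z).2 e)⟩
  have hd : ∀ z, deriv (fun z => conj (f (conj z))) z = conj (deriv f (conj z)) := fun z =>
    congrFun (deriv_conj_conj (f := f)) z
  refine
    { ord := h.ord
      sep := by simpa only [norm_conj] using h.sep
      diff := fun z hz => ?_
      bij := ⟨fun z hz e' => h.bij.1 (mW z hz) (sl_conj.1 e'), fun z hz y hy e' => ?_,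
        fun t ht => ?_⟩
      val := fun z hz => by rw [hv_conj]; exact h.val _ (mW z hz)
      valA := h.valA
      valB := h.valB
      gv := fun z hz => ?_
      gg := fun z hz h1 h2 => ?_ }
  · have := ((h.diff _ (mW z hz)).differentiableAt (ho.mem_nhds (mW z hz))).conj_conj
    rw [conj_conj] at this
    exact this.differentiableWithinAt
  · exact (starRingEnd ℂ).injective
      (h.bij.2.1 (mW z hz) (mW y hy) ((starRingEnd ℂ).injective e'))
  · obtain ⟨y, hy, e'⟩ := h.bij.2.2 (show conj t ∈ (Sl e)ᶜ from fun e' => ht (sl_conj.1 e'))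
    refine ⟨conj y, ⟨conj_mem_ann.2 hy.1, fun e'' => hy.2 ?_⟩, ?_⟩
    · simpa only [conj_conj] using (im _).1 e''
    · simp only [conj_conj, e']
  · have := congrArg conj (h.gv _ (mW z hz))
    simp only [map_mul, map_pow, map_prod, map_sub, conj_ofReal] at this
    rw [grad_cj, hd]
    exact this
  · simp only [conj_conj] at h1 h2
    have := congrArg conj (h.gg _ (mW z hz) (fun e' => h1 (by rw [e']))
      (fun e' => h2 (by rw [e', conj_conj])))
    rw [grad_cj, grad_cj, grad_cj, hd, hd, this]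
    simp only [conj_conj, map_add, map_mul, map_div₀, map_sub, map_one, map_ofNat, ← gk_conj]

end Pool.Agent.P.MP_3bd355_an
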