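import Pool.Agent.P.MP_3bd355_an.T.St

open Set Filter Metric Complex InnerProductSpace
open scoped Topology ComplexConjugate Real

namespace Pool.Agent.P.MP_3bd355_an

namespace TRt1P

theorem sq_half (w : ℂ) : (w ^ (1 / 2 : ℂ)) ^ 2 = w := by
  have := Complex.cpow_ofNat_inv_pow w 2
  rwa [one_div]

theorem neg_half {w : ℂ} (h : 0 < w.im) : w ^ (1 / 2 : ℂ) = I * (-w) ^ (1 / 2 : ℂ) := by
  have h0 : w ≠ 0 := by rintro rfl; simp at h
  have hl : log (-w) = log w - π * I := by
    apply Complex.ext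
    · simp [log_re]
    · simp [log_im, arg_neg_eq_arg_sub_pi_of_im_pos h]
  rw [cpow_def_of_ne_zero h0, cpow_def_of_ne_zero (neg_ne_zero.2 h0), hl]
  have e : log w * (1 / 2) = (π / 2 * I) + (log w - π * I) * (1 / 2) := by ring
  rw [e, Complex.exp_add, Complex.exp_pi_div_two_mul_I]

theorem ra_half {φ : ℂ → ℂ} {x : ℝ} (ψ : ℝ → ℝ) (hφ : AnalyticAt ℂ φ x) (hψ : ContinuousAt ψ x)
    (he : ∀ t : ℝ, φ t = ψ t) (hx : 0 < ψ x) : ∃ c, RA (fun t => φ t ^ (1 / 2 : ℂ)) x c := by
  refine ⟨_, RA.of_ana (hφ.cpow analyticAt_const ?_) ?_⟩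
  · rw [he]; exact ofReal_mem_slitPlane.2 hx
  · filter_upwards [hψ.eventually (lt_mem_nhds hx)] with t ht
    have : (ψ t : ℂ) ^ (1 / 2 : ℂ) = ((ψ t ^ (1 / 2 : ℝ) : ℝ) : ℂ) := by
      rw [ofReal_cpow ht.le]; norm_num
    rw [he, this, ofReal_im]

/-- one factor -/
theorem factor (a x : ℝ) (h : x ≠ a) : ∃ (g : ℂ → ℂ) (c : ℝ), RA g x c ∧
    ∀ t ∈ upH, (t - a) ^ (1 / 2 : ℂ) = (if a < x then 1 else I) * g t := by
  by_cases hx : a < x
  · obtain ⟨c, hc⟩ := ra_half (φ := fun t => t - a) (x := x) (fun t => t - a) (by fun_prop)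
      (by fun_prop) (fun t => by push_cast; ring) (by linarith)
    exact ⟨_, c, hc, fun t _ => by simp [hx]⟩
  · have hx' : x < a := lt_of_le_of_ne (not_lt.1 hx) h
    obtain ⟨c, hc⟩ := ra_half (φ := fun t => -(t - a)) (x := x) (fun t => -(t - a)) (by fun_prop)
      (by fun_prop) (fun t => by push_cast; ring) (by linarith)
    refine ⟨_, c, hc, fun t ht => ?_⟩
    rw [if_neg hx]
    exact neg_half (by simpa [upH] using ht)

theorem rmain (e : Fin 5 → ℝ) (x : ℝ) (h : ∀ i, x ≠ e i) (u : ℂ) (s : ℝ)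
    (hs : u * ∏ i, (if e i < x then 1 else I) = s) : ∃ c, RA (fun t => u * Rt e t) x c := by
  choose g c hc hg using fun i => factor (e i) x (h i)
  have h0 : RA (fun _ => (s : ℂ)) x _ :=
    RA.of_ana analyticAt_const (Eventually.of_forall fun _ => ofReal_im s)
  refine ⟨_, (h0.mul (((((hc 0).mul (hc 1)).mul (hc 2)).mul (hc 3)).mul (hc 4))).congr ?_⟩
  filter_upwards [self_mem_nhdsWithin] with t ht
  rw [Rt, Finset.prod_congr rfl fun i _ => hg i t ht, Finset.prod_mul_distrib, ← mul_assoc, hs,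
    Fin.prod_univ_five]

end TRt1P

open TRt1P in
theorem t_rt1 : T_RT1 := by
  intro e he
  have hsq : ∀ t, Rt e t ^ 2 = ∏ i, (t - e i) := fun t => by
    rw [Rt, ← Finset.prod_pow]
    exact Finset.prod_congr rfl fun i _ => sq_half _
  refine ⟨fun t ht => ?_, hsq, fun x hx => ?_⟩
  · have him : 0 < t.im := by simpa [upH] using ht
    have hne : ∀ i, t - e i ≠ 0 := fun i h => by
      have := congrArg Complex.im h
      simp at this
      linarith
    constructor
    · unfold Rt
      apply Finset.analyticAt_fun_prod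
      intro i _
      refine AnalyticAt.cpow (by fun_prop) analyticAt_const ?_
      right
      simpa using him.ne'
    · intro h0
      have := hsq t
      rw [h0] at this
      exact Finset.prod_ne_zero_iff.2 (fun i _ => hne i) (by rw [← this]; simp)
  · obtain ⟨h01, h12, h23, h34⟩ := he
    have n0 := hx 0
    have n1 := hx 1
    have n2 := hx 2
    have n3 := hx 3
    have n4 := hx 4
    have hSl : (x : ℂ) ∈ Sl e ↔ (x ≤ e 0 ∨ (e 1 ≤ x ∧ x ≤ e 2) ∨ (e 3 ≤ x ∧ x ≤ e 4)) := by
      simp [Sl]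
    rw [hSl]
    constructor
    · intro hn
      have key : ∃ s : ℝ, (1 : ℂ) * ∏ i, (if e i < x then 1 else I) = s := by
        have a0 : e 0 < x := by by_contra hc; exact hn (Or.inl (not_lt.1 hc))
        by_cases a1 : e 1 < x
        · have a2 : e 2 < x := by
            by_contra hc; exact hn (Or.inr (Or.inl ⟨a1.le, not_lt.1 hc⟩))
          by_cases a3 : e 3 < x
          · have a4 : e 4 < x := by
              by_contra hc; exact hn (Or.inr (Or.inr ⟨a3.le, not_lt.1 hc⟩))
            exact ⟨1, by simp [Fin.prod_univ_five, a0, a1, a2, a3, a4]⟩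
          · have a4 : ¬ e 4 < x := fun hc => a3 (by linarith)
            exact ⟨-1, by simp [Fin.prod_univ_five, a0, a1, a2, a3, a4]⟩
        · have a2 : ¬ e 2 < x := fun hc => a1 (by linarith)
          have a3 : ¬ e 3 < x := fun hc => a2 (by linarith)
          have a4 : ¬ e 4 < x := fun hc => a3 (by linarith)
          exact ⟨1, by simp [Fin.prod_univ_five, a0, a1, a2, a3, a4]⟩
      obtain ⟨s, hs⟩ := key
      simpa using rmain e x hx 1 s hs
    · intro hn
      have key : ∃ s : ℝ, I * ∏ i, (if e i < x then 1 else I) = s := by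
        rcases hn with a | ⟨a, b⟩ | ⟨a, b⟩
        · have a0 : ¬ e 0 < x := not_lt.2 a
          have a1 : ¬ e 1 < x := fun hc => a0 (by linarith)
          have a2 : ¬ e 2 < x := fun hc => a1 (by linarith)
          have a3 : ¬ e 3 < x := fun hc => a2 (by linarith)
          have a4 : ¬ e 4 < x := fun hc => a3 (by linarith)
          exact ⟨-1, by simp [Fin.prod_univ_five, a0, a1, a2, a3, a4]⟩
        · have a1 : e 1 < x := lt_of_le_of_ne a n1.symm
          have a0 : e 0 < x := by linarith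
          have a2 : ¬ e 2 < x := not_lt.2 b
          have a3 : ¬ e 3 < x := fun hc => a2 (by linarith)
          have a4 : ¬ e 4 < x := fun hc => a3 (by linarith)
          exact ⟨1, by simp [Fin.prod_univ_five, a0, a1, a2, a3, a4]⟩
        · have a3 : e 3 < x := lt_of_le_of_ne a n3.symm
          have a2 : e 2 < x := by linarith
          have a1 : e 1 < x := by linarith
          have a0 : e 0 < x := by linarith
          have a4 : ¬ e 4 < x := not_lt.2 b
          exact ⟨-1, by simp [Fin.prod_univ_five, a0, a1, a2, a3, a4]⟩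
      obtain ⟨s, hs⟩ := key
      exact rmain e x hx I s hs

end Pool.Agent.P.MP_3bd355_an
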