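import Pool.Agent.P.MP_3bd355_an.T.St

/-! Elementary topology of the slit plane. -/

open Set Filter Metric Complex InnerProductSpace
open scoped Topology ComplexConjugate Real

namespace Pool.Agent.P.MP_3bd355_an

namespace TSpreP

/-- The complement of a closed subset of the real line which misses a real point is connected. -/
theorem pre {S : Set ℂ} (hS : ∀ z ∈ S, z.im = 0) {x₀ : ℂ} (h0 : x₀.im = 0) (hx : x₀ ∉ S) :
    IsPreconnected Sᶜ := by
  have hU : IsPreconnected upH := (convex_halfSpace_im_gt 0).isPreconnected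
  have hL : IsPreconnected {z : ℂ | z.im < 0} := (convex_halfSpace_im_lt 0).isPreconnected
  have cU : ∀ z : ℂ, 0 ≤ z.im → z ∈ closure upH := fun z hz => by
    have := closure_setOfPred_lt_im 0
    exact (Set.ext_iff.1 this z).2 hz
  have cL : ∀ z : ℂ, z.im ≤ 0 → z ∈ closure {z : ℂ | z.im < 0} := fun z hz => by
    have := closure_setOfPred_im_lt 0
    exact (Set.ext_iff.1 this z).2 hz
  have h1 : IsPreconnected (Sᶜ ∩ {z : ℂ | 0 ≤ z.im}) :=
    hU.subset_closure (fun z hz => ⟨fun h => (ne_of_gt hz) (hS z h), le_of_lt (α := ℝ) hz⟩)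
      fun z hz => cU z hz.2
  have h2 : IsPreconnected (Sᶜ ∩ {z : ℂ | z.im ≤ 0}) :=
    hL.subset_closure (fun z hz => ⟨fun h => (ne_of_lt hz) (hS z h), le_of_lt (α := ℝ) hz⟩)
      fun z hz => cL z hz.2
  have h3 := IsPreconnected.union x₀ (mem_inter hx h0.ge) (mem_inter hx h0.le) h1 h2
  convert h3 using 1
  ext z
  constructor
  · intro hz
    exact (le_total 0 z.im).imp (fun h => ⟨hz, h⟩) fun h => ⟨hz, h⟩
  · rintro (h | h) <;> exact h.1

theorem dens {S : Set ℂ} (hS : ∀ z ∈ S, z.im = 0) : Dense Sᶜ := by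
  intro z
  by_cases hz : z ∈ S
  · refine closure_mono (s := upH) (fun w hw h => (ne_of_gt hw) (hS w h)) ?_
    exact (Set.ext_iff.1 (closure_setOfPred_lt_im 0) z).2 (hS z hz).ge
  · exact subset_closure hz

end TSpreP

theorem t_spre : T_SPRE := by
  intro e ⟨h01, h12, h23, h34⟩
  have hS : ∀ z ∈ Sl e, z.im = 0 := fun z hz => hz.1
  refine ⟨?_, TSpreP.pre hS (x₀ := ((e 4 + 1 : ℝ) : ℂ)) (ofReal_im _) ?_,
    fun z hz h => (ne_of_gt hz) (hS z h), fun t => ?_, fun i => ⟨ofReal_im _, ?_⟩,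
    TSpreP.dens hS, fun x hx hn => ?_⟩
  · refine isOpen_compl_iff.2 ((isClosed_eq continuous_im continuous_const).inter
      ((isClosed_le continuous_re continuous_const).union
        ((isClosed_Icc.preimage continuous_re).union (isClosed_Icc.preimage continuous_re))))
  · rintro ⟨-, h | h | h⟩
    · rw [ofReal_re] at h; linarith
    · have := h.2; rw [ofReal_re] at this; linarith
    · have := h.2; rw [ofReal_re] at this; linarith
  · simp only [Sl, mem_ofPred_eq, conj_im, conj_re, neg_eq_zero]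
  · rw [ofReal_re]
    fin_cases i
    · exact Or.inl le_rfl
    · exact Or.inr (Or.inl ⟨le_rfl, h12.le⟩)
    · exact Or.inr (Or.inl ⟨h12.le, le_rfl⟩)
    · exact Or.inr (Or.inr ⟨le_rfl, h34.le⟩)
    · exact Or.inr (Or.inr ⟨h34.le, le_rfl⟩)
  · obtain ⟨-, h | h | h⟩ := hx <;> rw [ofReal_re] at h
    · exact Or.inr (Or.inr (lt_of_le_of_ne h (hn 0)))
    · exact Or.inr (Or.inl ⟨lt_of_le_of_ne h.1 (hn 1).symm, lt_of_le_of_ne h.2 (hn 2)⟩)
    · exact Or.inl ⟨lt_of_le_of_ne h.1 (hn 3).symm, lt_of_le_of_ne h.2 (hn 4)⟩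

end Pool.Agent.P.MP_3bd355_an
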