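import Pool.Agent.P.MP_3bd355_an.T.St

/-! Strict inequalities from the strong maximum principle. -/

open Set Filter Metric Complex InnerProductSpace
open scoped Topology ComplexConjugate Real

namespace Pool.Agent.P.MP_3bd355_an

namespace TStrP

theorem key {r a b lo : ℝ} {L : Set ℂ} {u : ℂ → ℝ} (hL : Cont r L) (h1 : ∀ p ∈ L, ‖p‖ < 1)
    (hu : Sol r a b L u) (l0 : lo ≤ 0) (la : lo ≤ a) (lb : lo ≤ b) (hne : lo ≠ 0 ∨ lo ≠ a)
    {z : ℂ} (hz : z ∈ main r L) : lo < u z := by
  have hb : ∀ z, lo ≤ u z := fun z => (hu.bounds hL (hi := max 0 (max a b)) l0 la lb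
    (le_max_left _ _) (le_max_of_le_right (le_max_left _ _))
    (le_max_of_le_right (le_max_right _ _)) z).1
  refine lt_of_le_of_ne (hb z) fun he => ?_
  have h0 := harm_zero_of_min (u := fun z => u z - lo) hL.isOpen_main (preconn_main r L)
    (fun y hy => (hu.harm y hy).sub (harmonicAt_const lo)) (fun y _ => sub_nonneg.2 (hb y)) hz
    (sub_eq_zero.2 he.symm)
  have k : ∀ (p : ℂ) (c : ℝ), p ∈ closure (main r L) → Tendsto u (𝓝[main r L] p) (𝓝 c) →
      lo = c := fun p c hp hc => by
    have := mem_closure_iff_nhdsWithin_neBot.1 hp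
    refine tendsto_nhds_unique (tendsto_const_nhds.congr' ?_) hc
    filter_upwards [self_mem_nhdsWithin] with y hy using (sub_eq_zero.1 (h0 y hy)).symm
  rcases hne with h | h
  · obtain ⟨p, p1, p2, p3⟩ := hL.exists_hidden
    exact h (k p 0 (frontier_subset_closure p2) (hu.atL p p1 p3))
  · exact h (k 1 a (hL.outer_closure h1 norm_one)
      (hu.atA 1 norm_one fun hp => (h1 1 hp).ne norm_one))

end TStrP

open TStrP

theorem t_str : T_STR := by
  intro r A B L v ω hL h1 hA hB hv hω z hz
  have hd : 0 < B - A := by linarith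
  have hq : 0 < B / (B - A) := div_pos hB hd
  refine ⟨key hL h1 hv hA.le le_rfl (by linarith) (Or.inl hA.ne) hz, ?_,
    key hL h1 hω le_rfl zero_le_one le_rfl (Or.inr zero_ne_one) hz, ?_⟩
  · have h := key (lo := -B) hL h1 (hv.lin hL hv (-1) 0) (by linarith) (by linarith) (by linarith)
      (Or.inl (by linarith)) hz
    linarith
  · have he : -1 * 1 + -(1 / (B - A)) * A = -(B / (B - A)) := by
      field_simp
      ring
    have h := key (lo := -(B / (B - A))) hL h1 (hω.lin hL hv (-1) (-(1 / (B - A)))) (by linarith)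
      he.ge (le_of_eq (by ring)) (Or.inl (by linarith)) hz
    have h2 : -(1 / (B - A)) * v z = -(v z / (B - A)) := by ring
    linarith

end Pool.Agent.P.MP_3bd355_an
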