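import Pool.Agent.P.MP_3bd355_an.T.St

/-! A bounded harmonic function on the slit plane with constant limits is symmetric. -/

open Set Filter Metric Complex InnerProductSpace
open scoped Topology ComplexConjugate Real

namespace Pool.Agent.P.MP_3bd355_an

namespace TSymP

theorem le {S F : Set ℂ} {V : ℂ → ℝ} (hF : F.Finite) (h1 : upH ⊆ S)
    (h2 : ∀ t ∈ S, conj t ∈ S) (hV : HarmonicOnNhd V S) (hb : ∃ M : ℝ, ∀ t ∈ S, |V t| ≤ M)
    (hl : ∀ x : ℝ, (x : ℂ) ∉ F → ∃ c, Tendsto V (𝓝[S] (x : ℂ)) (𝓝 c)) :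
    ∀ t ∈ upH, V t - V (conj t) ≤ 0 := by
  obtain ⟨M, hM⟩ := hb
  refine Sub.mpx_unb (u := fun t => V t - V (conj t)) (a := -2 * I) (ρ := 1)
    (Sub.of_harm fun t ht => (hV t (h1 ht)).sub (harm_conj (hV _ (h2 t (h1 ht)))))
    (isOpen_lt continuous_const continuous_im) one_pos ?_ ⟨M + M, fun t ht => ?_⟩ hF ?_
  · refine disjoint_left.2 fun z hz (hu : 0 < z.im) => ?_
    have := (abs_im_le_norm (z - -2 * I)).trans_lt (mem_ball_iff_norm.1 hz)
    simp only [sub_im, mul_im, neg_re, re_ofNat, I_im, neg_im, im_ofNat, I_re] at this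
    linarith [(abs_lt.1 this).2]
  · linarith [(abs_le.1 (hM t (h1 ht))).2, (abs_le.1 (hM _ (h2 t (h1 ht)))).1]
  · intro p hp hpF ε hε
    have hp' : p.im = 0 := by
      have := frontier_setOfPred_lt_im 0
      exact (this ▸ hp : p ∈ {z : ℂ | z.im = 0})
    obtain ⟨x, rfl⟩ : ∃ x : ℝ, p = x := ⟨p.re, Complex.ext rfl (by simpa using hp')⟩
    obtain ⟨c, hc⟩ := hl x hpF
    have k : Tendsto (fun t : ℂ => conj t) (𝓝[upH] (x : ℂ)) (𝓝[S] (x : ℂ)) := by
      refine tendsto_nhdsWithin_iff.2 ⟨?_, eventually_mem_nhdsWithin.mono fun t ht => h2 t (h1 ht)⟩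
      simpa using (continuous_conj.tendsto (x : ℂ)).mono_left nhdsWithin_le_nhds
    have := (hc.mono_left (nhdsWithin_mono _ h1)).sub (hc.comp k)
    exact this.eventually (gt_mem_nhds (by linarith))

end TSymP

theorem t_sym (h : T_SPRE) : T_SYM := by
  intro e V a b he hV
  obtain ⟨-, -, h1, h2, -, -, h3⟩ := h e he
  have h2' : ∀ t ∈ (Sl e)ᶜ, conj t ∈ (Sl e)ᶜ := fun t ht k => ht ((h2 t).1 k)
  have hl : ∀ x : ℝ, (x : ℂ) ∉ range (fun i => (e i : ℂ)) →
      ∃ c, Tendsto V (𝓝[(Sl e)ᶜ] (x : ℂ)) (𝓝 c) := fun x hx => by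
    by_cases k : (x : ℂ) ∈ Sl e
    · rcases h3 x k fun i hi => hx ⟨i, by rw [hi]⟩ with l | l | l
      exacts [⟨_, hV.lim.al x l⟩, ⟨_, hV.lim.be x l⟩, ⟨_, hV.lim.ze x l⟩]
    · exact ⟨_, (harm_diff (hV.harm _ k)).continuousAt.tendsto.mono_left nhdsWithin_le_nhds⟩
  have k1 := TSymP.le (finite_range _) h1 h2' hV.harm hV.bdd hl
  have k2 := TSymP.le (V := fun t => -V t) (finite_range _) h1 h2' (fun t ht => (hV.harm t ht).neg)
    (hV.bdd.imp fun M hM t ht => by simpa using hM t ht)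
    fun x hx => (hl x hx).elim fun c hc => ⟨_, hc.neg⟩
  have k3 : ∀ t ∈ upH, V (conj t) = V t := fun t ht => by linarith [k1 t ht, k2 t ht]
  refine ⟨finite_empty, empty_subset _, hV.harm.mono sdiff_subset, fun t _ => ?_,
    fun _ _ => hV.bdd.imp fun M hM t ht _ => hM t ht, hV.lim⟩
  rcases lt_trichotomy 0 t.im with l | l | l
  · exact k3 t l
  · rw [conj_eq_iff_im.2 l.symm]
  · simpa using (k3 (conj t) (by simpa [upH] using l)).symm

end Pool.Agent.P.MP_3bd355_an
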