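import Pool.Agent.P.MP_3bd355_an.T.St

open Set Filter Metric Complex InnerProductSpace
open scoped Topology ComplexConjugate Real

namespace Pool.Agent.P.MP_3bd355_an

namespace TTrgP

theorem harm_gr {W : Set ℂ} {H : ℂ → ℂ → ℝ} (hG : Grn W H) {ζ z : ℂ} (hζ : ζ ∈ W) (hz : z ∈ W)
    (h : z ≠ ζ) : HarmonicAt (gr H ζ) z :=
  (hG.harm ζ hζ z hz).sub (harm_log h)

/-- The Green function is bounded away from the pole. -/
theorem bdd_gr {W : Set ℂ} {H : ℂ → ℂ → ℝ} (hW : IsOpen W) (hb : Bornology.IsBounded W)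
    (hG : Grn W H) {ζ : ℂ} (hζ : ζ ∈ W) {η : ℝ} (hη : 0 < η) :
    ∃ M : ℝ, ∀ z ∈ closure W \ ball ζ η, z ∈ W → |gr H ζ z| ≤ M := by
  have hK : IsCompact (closure W \ ball ζ η) := hb.isCompact_closure.diff isOpen_ball
  refine hK.induction_on (p := fun s => ∃ M : ℝ, ∀ z ∈ s, z ∈ W → |gr H ζ z| ≤ M)
    ⟨0, fun z hz => hz.elim⟩ (fun s t hst ⟨M, hM⟩ => ⟨M, fun z hz => hM z (hst hz)⟩)
    (fun s t ⟨M, hM⟩ ⟨N, hN⟩ => ⟨Max.max M N, fun z hz h => hz.elim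
      (fun a => (hM z a h).trans (le_max_left _ _)) fun a => (hN z a h).trans (le_max_right _ _)⟩)
    fun x hx => ?_
  obtain ⟨c, hc⟩ : ∃ c, Tendsto (gr H ζ) (𝓝[W] x) (𝓝 c) := by
    by_cases h : x ∈ W
    · exact ⟨_, (harm_diff (harm_gr hG hζ h fun e => hx.2 (e ▸ mem_ball_self hη))).continuousAt.tendsto.mono_left
        nhdsWithin_le_nhds⟩
    · exact ⟨0, hG.bd ζ hζ x (by rw [hW.frontier_eq]; exact ⟨hx.1, h⟩)⟩
  have h1 := hc.abs.eventually (eventually_le_nhds (lt_add_one |c|))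
  exact ⟨_, mem_nhdsWithin_of_mem_nhds (eventually_nhdsWithin_iff.1 h1), |c| + 1, fun z hz => hz⟩

end TTrgP

open TTrgP

theorem t_trg : T_TRG := by
  intro W f ψ e H z₀ hW hb hS hf hbij hd hψ hψd hG hz hl
  have h0 : f z₀ ∈ (Sl e)ᶜ := hbij.mapsTo hz
  have hi : ∀ t ∈ (Sl e)ᶜ, ψ t ∈ W ∧ f (ψ t) = t := fun t ht => by
    obtain ⟨z, h1, rfl⟩ := hbij.surjOn ht
    rw [hψ z h1]
    exact ⟨h1, rfl⟩
  have ha : ∀ t ∈ (Sl e)ᶜ, AnalyticAt ℂ ψ t := fun t ht => hψd.analyticAt (hS.mem_nhds ht)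
  have hf0 : DifferentiableAt ℂ f z₀ := hf.differentiableAt (hW.mem_nhds hz)
  refine ⟨h0, fun t ht => harm_comp (harm_gr hG hz (hi t ht.1).1 fun h => ht.2 ?_) (ha t ht.1),
    ?_, fun δ hδ => ?_, hl⟩
  · rw [← (hi t ht.1).2, h]
    rfl
  · have hs : AnalyticAt ℂ (dslope ψ (f z₀)) (f z₀) :=
      ((differentiableOn_dslope (hS.mem_nhds h0)).2 hψd).analyticAt (hS.mem_nhds h0)
    have hn : dslope ψ (f z₀) (f z₀) ≠ 0 := by
      rw [dslope_same]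
      intro h
      have h1 := deriv_comp z₀ (ha _ h0).differentiableAt hf0
      have h2 : ψ ∘ f =ᶠ[𝓝 z₀] id := (hW.eventually_mem hz).mono fun z hz => hψ z hz
      rw [h2.deriv_eq, h, deriv_id, zero_mul] at h1
      exact one_ne_zero h1
    refine ⟨fun t => H (ψ t) z₀ - Real.log ‖dslope ψ (f z₀) t‖, ?_, ?_⟩
    · exact (harm_comp (u := fun z => H z z₀) (hG.harm z₀ hz _ (hi _ h0).1) (ha _ h0)).sub
        (hs.harmonicAt_log_norm hn)
    · filter_upwards [self_mem_nhdsWithin,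
        mem_nhdsWithin_of_mem_nhds (hs.continuousAt.eventually_ne hn)] with t h1 h2
      have h3 := sub_smul_dslope ψ (f z₀) t
      rw [hψ z₀ hz, smul_eq_mul] at h3
      rw [gr, ← h3, norm_mul, Real.log_mul (norm_ne_zero_iff.2 (sub_ne_zero.2 h1))
        (norm_ne_zero_iff.2 h2)]
      ring
  · obtain ⟨η, hη, h1⟩ := Metric.continuousAt_iff.1 hf0.continuousAt δ hδ
    obtain ⟨M, hM⟩ := bdd_gr hW hb hG hz hη
    refine ⟨M, fun t ht h2 => hM _ ⟨subset_closure (hi t ht).1, fun h3 => ?_⟩ (hi t ht).1⟩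
    have h4 := h1 h3
    rw [(hi t ht).2, dist_eq_norm] at h4
    linarith

end Pool.Agent.P.MP_3bd355_an
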