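import Pool.Agent.P.MP_3bd355_an.T.St

/-! The gradient of the solution in the slit plane. -/

open Set Filter Metric Complex InnerProductSpace
open scoped Topology ComplexConjugate Real

namespace Pool.Agent.P.MP_3bd355_an

theorem t_vf (h1 : T_SPRE) (h2 : T_RT1) (h3 : T_KV) (h4 : T_LIOU) : T_VF := by
  intro e V Ω a b a' b' he hV hΩ hg
  obtain ⟨-, sc, su, -⟩ := h1 e he
  obtain ⟨c₀, c₁, hc⟩ := h4 e ∅ _ finite_empty (h3 e ∅ V a b he hV) (by simp)
  obtain ⟨d₀, d₁, hd⟩ := h4 e ∅ _ finite_empty (h3 e ∅ Ω a' b' he hΩ) (by simp)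
  have key : ∀ t ∈ upH, -t * (c₀ + c₁ * t) = d₀ + d₁ * t := fun t ht => by
    rw [← hc t ht (notMem_empty t), ← hd t ht (notMem_empty t), hg t (su ht)]
    ring
  have hI : I ∈ upH := by simp [upH]
  have k1 := congrArg re (key I hI)
  have k2 := congrArg re (key (2 * I) (by simp [upH]))
  have h0 : c₁ = 0 := by
    simp at k1 k2
    linarith
  have hC : ∀ t ∈ upH, grad V t * Rt e t = c₀ := fun t ht => by
    simpa [h0] using hc t ht (notMem_empty t)
  refine ⟨c₀, hC, ?_⟩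
  have ha : AnalyticOnNhd ℂ (fun t => grad V t ^ 2 * ∏ i, (t - e i)) (Sl e)ᶜ := fun t ht =>
    ((grad_analytic (hV.harm t ⟨ht, notMem_empty t⟩)).pow 2).mul
      (Finset.analyticAt_fun_prod _ fun i _ => analyticAt_id.sub analyticAt_const)
  refine ha.eqOn_of_preconnected_of_eventuallyEq (g := fun _ => (c₀ : ℂ) ^ 2) analyticOnNhd_const sc
    (su hI) ?_
  filter_upwards [isOpen_upH.mem_nhds hI] with t ht
  rw [← (h2 e he).2.1 t, ← mul_pow, hC t ht]

end Pool.Agent.P.MP_3bd355_an
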