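import Pool.Agent.P.MP_3bd355_an.T.St
import Pool.Agent.P.MP_3bd355_an.Pk.Core

/-! The explicit form of an extremal configuration with a negative outer value. -/

open Set Filter Metric Complex InnerProductSpace
open scoped Topology ComplexConjugate Real

namespace Pool.Agent.P.MP_3bd355_an

open CoreP in
theorem t_core (hF : S_FR) (hG : S_GREEN) (hLi : S_LIN) (hE : S_EDAT) (hRe : S_REG) (hM : S_MULT)
    (hS : S_SH) (h1 : S_ARC1) (h2 : S_ARC2) (ha : S_ARCa) (hb : S_ARCb) (hc : S_ARCc)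
    (hZ : S_ZEX) (hT : S_TPATH) (hP : S_POSAT) (hX : S_SOLEX) (hO : E_TIP1) (hf : T_FORM) :
    T_CORE := by
  intro r A B z₀ z₁ m L v hx hA
  have hcf := hx.cfg
  have hL := hcf.cont
  obtain ⟨φ, F, h, s0, s1, hfr⟩ := hF r A B z₁ L v hcf
  obtain ⟨H, hH⟩ := hG _ hL.isOpen_main (bdd_main r L) (preconn_main r L) hL.reg
  obtain ⟨a, b, c, l0, Y, lam, k, hl⟩ := hLi r A B z₀ z₁ m L v φ F h s0 s1 H hx hfr hH
  obtain ⟨he, heY⟩ := hE r A B z₀ z₁ L v φ F h s0 s1 H a b c l0 Y lam k hfr hx.mem0 hH hl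
  obtain ⟨hnz, Fb, hB⟩ := hRe r A B z₀ z₁ L v φ F h s0 s1 a b c hfr hx.mem0 he
  have hR : Reg2 r A B z₀ z₁ L v φ F h s0 s1 a b c Fb := ⟨hfr, hx.mem0, hl.bal, hnz, he, hB⟩
  obtain ⟨G, hGm⟩ := hM r A B z₀ z₁ L v φ F h s0 s1 a b c Fb hR
  obtain ⟨-, hS1⟩ := hS r A B z₀ z₁ m L v φ F h s0 s1 Fb G hx hfr hB hGm
  have hU := hfr.unif
  have ho : ∀ p ∈ L, ‖p‖ < 1 := by
    rcases hcf.cases with ⟨h3, -⟩ | ⟨-, h3, -⟩
    · exact absurd h3 hA.ne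
    · exact h3
  obtain ⟨y, hyI, hy⟩ := hZ r A B z₁ L v φ F h s0 s1 hfr hA
  have hT' : Tgt L Fb s0 s1 y {Fb y} := Or.inr ⟨rfl, hyI, ho⟩
  obtain ⟨y1, hy1, e1⟩ := h2 r L φ F h s0 s1 Fb G _ y z₁ hU hfr.pic hB hGm hT' hcf.m1 hcf.mem
    (hS1 y hy)
  obtain ⟨y0, hArc, e0⟩ := h1 r L φ F h s0 s1 Fb G _ y y1 hU hfr.pic hB hGm hT' hy1
    (e1 ▸ hcf.m1) (e1 ▸ hS1 y hy)
  rw [e1] at hArc
  obtain rfl := e0 ho
  obtain ⟨g1, g2, g3, g4⟩ := hc r A B z₀ z₁ L v φ F h s0 s1 a b c Fb y1 y0 hR hArc hA hy hS1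
  obtain ⟨T, t1, t2, -, t3, t4, -⟩ := hT r A B z₁ L v φ F h s0 s1 y0 z₀ hfr hy hx.mem0
    hx.im_nonneg
  have hY : ∀ x ∈ Y, lam x = 0 := by
    intro x hx'
    by_contra h3
    have h4 := hl.sub x hx'
    exact (g3 x h4.1 h4.2.1).2 (heY x hx' (lt_of_le_of_ne (hl.lamn x hx') (Ne.symm h3)))
  have hpath := tpath' hcf.sol hB (hL.low _ ((hB.mem_LA hU hfr.pic hyI).2.2 g1.2.ne)) t1 t2 t3 t4
  have hl0 : 0 < l0 := by
    rcases hl.nz with h3 | ⟨x, hx', h3⟩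
    · exact h3
    · exact absurd (hY x hx') h3.ne'
  have hl0' : (l0 : ℂ) ≠ 0 := by exact_mod_cast hl0.ne'
  have hcrit := crit ha hb hP (Reg2.smul hR (inv_pos.2 hl0)) hArc hH
    (fun x hx' hx'' => (g3 x hx' hx'').1) g1.1.ne'
    (by
      intro z hz' hne
      rw [QD_smul, ← hl.iden z hz' hne, Finset.sum_eq_zero fun x hx' => by simp [hY x hx']]
      push_cast
      field_simp
      ring)
    (fun h3 => absurd h3 hA.ne)
    (fun _ => ⟨g1, by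
      rw [QD_smul]
      exact mul_ne_zero (by exact_mod_cast (inv_pos.2 hl0).ne') g2, g4, hpath⟩)
  have hlast : (∀ p ∈ L, ‖p‖ ≠ r) → ∀ t ∈ Icc (0 : ℝ) 1, r < ‖Fb (par y1 y0 t)‖ := by
    intro hn' t ht
    have hm := uIcc_subset_Icc hArc.m1 hArc.m0 (par_mem ht)
    refine lt_of_le_of_ne (hB.mem hU _).2.2.1.1 fun he' => ?_
    have h3 := (hB.mem_LA hU hfr.pic hm).2.2 (by rw [← he']; exact hL.r1.ne)
    exact hn' _ h3 he'.symm
  have hK : (fun t => Fb (par y1 y0 t)) '' Icc 0 1 = Fb '' uIcc y1 y0 := by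
    rw [← par_image, image_image]
  have hW : ann r \ (fun t => Fb (par y1 y0 t)) '' Icc 0 1 = main r L := hK ▸ hArc.compl
  obtain ⟨ω, hω⟩ := hX r 1 0 L hL (Or.inr ho)
  obtain ⟨y', hy'I, hone⟩ := hO r A B z₁ L v φ F h s0 s1 hfr hA
  have hiff : (∀ t ∈ Icc (0 : ℝ) 1, r < ‖(fun t => Fb (par y1 y0 t)) t‖) ↔ s1 = s0 + 2 * π := by
    constructor
    · intro hall
      rcases hB.ends hU hfr.pic with ⟨-, h3, -⟩ | ⟨h3, -⟩
      · have h4 := hArc.cover s0 ⟨le_rfl, hfr.pic.lt.le⟩ (by rw [h3]; exact hL.r1.ne)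
        rw [← hK] at h4
        obtain ⟨t, ht, h5⟩ := h4
        have h6 := hall t ht
        rw [h5, h3] at h6
        exact absurd h6 (lt_irrefl _)
      · exact h3
    · intro hs
      refine hlast fun p hp hpr => ?_
      have h3 := hfr.pic.touch.1 ⟨p, hp, hpr⟩
      rw [hs] at h3
      exact lt_irrefl _ h3
  obtain ⟨e, C, l₀, l₁, f, hform⟩ := hf r A B z₀ z₁ L v ω φ F h s0 s1 y' Fb H _
    ⟨hfr, hA, hω, hB, hy'I, hone⟩ hH hx.mem0 hW hiff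
  refine ⟨_, _, _, _, _, e, C, l₀, l₁, f, hcrit, hform, ?_, hlast⟩
  intro z hz'
  by_cases hzK : z ∈ Fb '' uIcc y1 y0
  · obtain ⟨x, -, rfl⟩ := hzK
    exact frontier_subset_closure (hB.mem hU x).1
  · exact subset_closure (hArc.compl ▸ ⟨hz', hzK⟩)

end Pool.Agent.P.MP_3bd355_an
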