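import Pool.Agent.P.MP_3bd355_an.T.St

/-! The symmetric part of the Green function of the slit plane. -/

open Set Filter Metric Complex InnerProductSpace
open scoped Topology ComplexConjugate Real

namespace Pool.Agent.P.MP_3bd355_an

namespace TGf3P

/-- The rational correction term. -/
noncomputable def Q (C : ℝ) (t₀ p : ℂ) (t : ℂ) : ℂ :=
  C * (p / (2 * (t - t₀)) + conj p / (2 * (t - conj t₀)))

theorem Q_ana (C : ℝ) (t₀ p : ℂ) {t : ℂ} (h1 : t ≠ t₀) (h2 : t ≠ conj t₀) :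
    AnalyticAt ℂ (Q C t₀ p) t := by
  have a1 : 2 * (t - t₀) ≠ 0 := mul_ne_zero two_ne_zero (sub_ne_zero.2 h1)
  have a2 : 2 * (t - conj t₀) ≠ 0 := mul_ne_zero two_ne_zero (sub_ne_zero.2 h2)
  unfold Q
  refine analyticAt_const.mul (AnalyticAt.add ?_ ?_)
  · exact analyticAt_const.div (by fun_prop) a1
  · exact analyticAt_const.div (by fun_prop) a2

theorem Q_im (C : ℝ) (t₀ p : ℂ) (x : ℝ) : (Q C t₀ p x).im = 0 := by
  have h : conj p / (2 * ((x : ℂ) - conj t₀)) = conj (p / (2 * ((x : ℂ) - t₀))) := by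
    simp [map_div₀, map_mul, map_sub, conj_ofReal, map_ofNat]
  unfold Q
  rw [h, add_conj]
  simp

theorem inv_sub_zero (a : ℂ) : Tendsto (fun t : ℂ => (2 * (t - a))⁻¹) (cocompact ℂ) (𝓝 0) := by
  rw [← cobounded_eq_cocompact]
  refine tendsto_inv₀_cobounded.comp ?_
  rw [← tendsto_norm_atTop_iff_cobounded]
  have h1 : Tendsto (fun t : ℂ => ‖t‖ + -‖a‖) (Bornology.cobounded ℂ) atTop :=
    tendsto_atTop_add_const_right _ _ tendsto_norm_cobounded_atTop
  have h2 : Tendsto (fun t : ℂ => ‖t - a‖) (Bornology.cobounded ℂ) atTop :=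
    tendsto_atTop_mono (fun t => by linarith [norm_sub_norm_le t a]) h1
  refine tendsto_atTop_mono (fun t => ?_) h2
  rw [norm_mul]
  have : ‖(2 : ℂ)‖ = 2 := by simp
  rw [this]
  linarith [norm_nonneg (t - a)]

theorem Q_inf (C : ℝ) (t₀ p : ℂ) : Tendsto (Q C t₀ p) (cocompact ℂ) (𝓝 0) := by
  have h := (((inv_sub_zero t₀).const_mul p).add
    ((inv_sub_zero (conj t₀)).const_mul (conj p))).const_mul (C : ℂ)
  simp only [mul_zero, add_zero] at h
  refine h.congr fun t => ?_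
  unfold Q
  simp only [div_eq_mul_inv]

/-- The pole cancels. -/
theorem pole {q q' p p' k C : ℂ} {A B : ℂ → ℂ}
    (hA : Tendsto (fun t => (t - q) * A t) (𝓝[≠] q) (𝓝 k)) (hB : ContinuousAt B q)
    (hB0 : B q ≠ 0) (hp : p = (B q)⁻¹)
    (hk : (q' = q ∧ p' = p ∧ k = -1) ∨ (q' ≠ q ∧ k = -1 / 2)) :
    Tendsto (fun t => (t - q) * (A t * (C / B t) + C * (p / (2 * (t - q)) + p' / (2 * (t - q')))))
      (𝓝[≠] q) (𝓝 0) := by
  have h1 : Tendsto (fun t => C / B t) (𝓝[≠] q) (𝓝 (C * p)) := by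
    rw [hp, ← div_eq_mul_inv]
    exact (tendsto_const_nhds.div hB.tendsto hB0).mono_left nhdsWithin_le_nhds
  have h2 := hA.mul h1
  rcases hk with ⟨rfl, rfl, rfl⟩ | ⟨hq, rfl⟩
  · have h3 := h2.add_const (C * p')
    have h4 : -1 * (C * p') + C * p' = 0 := by ring
    rw [h4] at h3
    refine h3.congr' ?_
    filter_upwards [self_mem_nhdsWithin] with t ht
    have h5 : t - q' ≠ 0 := sub_ne_zero.2 ht
    field_simp
    ring
  · have h5 : ContinuousAt (fun t => C * (p / 2 + (t - q) * (p' / (2 * (t - q'))))) q := by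
      have a2 : 2 * (q - q') ≠ 0 := mul_ne_zero two_ne_zero (sub_ne_zero.2 hq.symm)
      refine continuousAt_const.mul (continuousAt_const.add (ContinuousAt.mul (by fun_prop) ?_))
      exact continuousAt_const.div (by fun_prop) a2
    have h3 := h2.add (h5.tendsto.mono_left nhdsWithin_le_nhds)
    have h4 : -1 / 2 * (C * p) + C * (p / 2 + (q - q) * (p' / (2 * (q - q')))) = 0 := by ring
    rw [h4] at h3
    refine h3.congr' ?_
    filter_upwards [self_mem_nhdsWithin] with t ht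
    have h6 : t - q ≠ 0 := sub_ne_zero.2 ht
    have h7 : (t - q) * (p / (2 * (t - q))) = p / 2 := by field_simp
    calc (t - q) * A t * (C / B t) + C * (p / 2 + (t - q) * (p' / (2 * (t - q'))))
        = (t - q) * A t * (C / B t) +
          C * ((t - q) * (p / (2 * (t - q))) + (t - q) * (p' / (2 * (t - q')))) := by rw [h7]
      _ = _ := by ring

/-- The conditions of the Liouville argument survive the correction. -/
theorem lc_add {e : Fin 5 → ℝ} {t₀ : ℂ} {K : ℂ → ℂ} (C : ℝ) (p : ℂ)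
    (hK : LC e {t₀, conj t₀} K) (h0 : ∀ i, (e i : ℂ) ≠ t₀) (h1 : ∀ i, (e i : ℂ) ≠ conj t₀) :
    LC e {t₀, conj t₀} fun t => K t + Q C t₀ p t := by
  have hne : ∀ t : ℂ, t ∉ ({t₀, conj t₀} : Set ℂ) → AnalyticAt ℂ (Q C t₀ p) t := fun t ht =>
    Q_ana C t₀ p (fun h => ht (Or.inl h)) fun h => ht (Or.inr h)
  refine ⟨fun t ht hP => (hK.ana t ht hP).add (hne t hP), fun x hP hx => ?_, fun i => ?_, ?_⟩
  · obtain ⟨c, hc⟩ := hK.ra x hP hx
    exact ⟨_, hc.add (RA.of_ana (hne x hP) (Eventually.of_forall fun t => Q_im C t₀ p t))⟩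
  · have h2 : ContinuousAt (fun t => (t - e i) * Q C t₀ p t) (e i) :=
      ContinuousAt.mul (by fun_prop) (Q_ana C t₀ p (h0 i) (h1 i)).continuousAt
    have h3 := (hK.br i).add (h2.tendsto.mono_left nhdsWithin_le_nhds)
    simp only [sub_self, zero_mul, add_zero] at h3
    exact h3.congr fun t => by ring
  · obtain ⟨D, hD⟩ := hK.inf
    refine ⟨D + 1, ?_⟩
    have h2 : ∀ᶠ t in cocompact ℂ, ‖Q C t₀ p t‖ < 1 := by
      have h3 := (Q_inf C t₀ p).norm
      rw [norm_zero] at h3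
      exact h3.eventually (gt_mem_nhds one_pos)
    have h3 : ∀ᶠ t : ℂ in cocompact ℂ, 1 ≤ ‖t‖ :=
      (tendsto_norm_cocompact_atTop (E := ℂ)).eventually (eventually_ge_atTop 1)
    filter_upwards [hD, h2.filter_mono inf_le_left, h3.filter_mono inf_le_left] with t a b c
    have h4 : 1 ≤ √‖t‖ := Real.one_le_sqrt.2 c
    have h5 : 1 ≤ ‖t‖ * √‖t‖ := one_le_mul_of_one_le_of_one_le c h4
    have h6 := norm_add_le (K t) (Q C t₀ p t)
    linarith

end TGf3P

open TGf3P in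
theorem t_gf3 (h1 : T_SPRE) (h2 : T_RT1) (h3 : T_KV) (h4 : T_LIOU) (h5 : T_GF2) : T_GF3 := by
  intro e t₀ G V a b C hO hG hV hC hne
  obtain ⟨hop, -, hup, hcj, hei, -, -⟩ := h1 e hO
  obtain ⟨hRt, -, -⟩ := h2 e hO
  obtain ⟨hU, hp0, hp1⟩ := h5 e t₀ G hO hG
  have hK := h3 e _ _ 0 0 hO hU
  have ht0 : t₀ ∈ (Sl e)ᶜ := hG.mem
  have ht1 : conj t₀ ∈ (Sl e)ᶜ := fun h => ht0 ((hcj t₀).1 h)
  have hI : I ∈ upH := by simp [upH]
  have hC0 : (C : ℂ) ≠ 0 := by
    rw [← hC I hI]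
    exact mul_ne_zero (hne I (hup hI)) (hRt I hI).2
  have hR : ∀ t ∈ upH, Rt e t = C / grad V t := fun t ht => by
    rw [eq_div_iff (hne t (hup ht)), mul_comm]
    exact hC t ht
  have hcont : ∀ t ∈ (Sl e)ᶜ, ContinuousAt (grad V) t := fun t ht =>
    (grad_analytic (hV.harm t ⟨ht, notMem_empty t⟩)).continuousAt
  have hsym : grad V (conj t₀) = conj (grad V t₀) := by
    have h6 : (fun y => V (conj y)) =ᶠ[𝓝 t₀] V := by
      filter_upwards [hop.mem_nhds ht0] with y hy using hV.sym y ⟨hy, notMem_empty y⟩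
    have h7 := grad_cj V t₀
    rw [grad_congr h6] at h7
    rw [h7, conj_conj]
  have hLC := lc_add C (grad V t₀)⁻¹ hK (fun i h => ht0 (h ▸ hei i)) fun i h => ht1 (h ▸ hei i)
  have hle : ∀ q : ℂ, 𝓝[upH \ {q}] q ≤ 𝓝[≠] q := fun q => nhdsWithin_mono q fun _ h => h.2
  have hcase : (conj t₀ = t₀ ∧ conj (grad V t₀)⁻¹ = (grad V t₀)⁻¹ ∧
      (if t₀.im = 0 then -1 else -1 / 2 : ℂ) = -1) ∨
      (conj t₀ ≠ t₀ ∧ (if t₀.im = 0 then -1 else -1 / 2 : ℂ) = -1 / 2) := by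
    by_cases h : t₀.im = 0
    · have h6 : conj t₀ = t₀ := conj_eq_iff_im.2 h
      refine Or.inl ⟨h6, ?_, if_pos h⟩
      rw [map_inv₀, ← hsym, h6]
    · exact Or.inr ⟨fun h6 => h (conj_eq_iff_im.1 h6), if_neg h⟩
  obtain ⟨l₀, l₁, hl⟩ := h4 e _ _ hU.fin hLC (by
    rintro q (rfl | hq) -
    · refine ((pole (C := (C : ℂ)) hp0 (hcont q ht0) (hne q ht0) rfl hcase).mono_left
        (hle q)).congr' ?_
      filter_upwards [self_mem_nhdsWithin] with t ht
      rw [hR t ht.1]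
      rfl
    · rw [mem_singleton_iff] at hq
      subst hq
      have h6 : conj (grad V t₀)⁻¹ = (grad V (conj t₀))⁻¹ := by rw [map_inv₀, hsym]
      have h7 : (t₀ = conj t₀ ∧ (grad V t₀)⁻¹ = conj (grad V t₀)⁻¹ ∧
          (if t₀.im = 0 then -1 else -1 / 2 : ℂ) = -1) ∨
          (t₀ ≠ conj t₀ ∧ (if t₀.im = 0 then -1 else -1 / 2 : ℂ) = -1 / 2) :=
        hcase.imp (fun h => ⟨h.1.symm, h.2.1.symm, h.2.2⟩) fun h => ⟨h.1.symm, h.2⟩
      refine ((pole (C := (C : ℂ)) hp1 (hcont _ ht1) (hne _ ht1) h6 h7).mono_left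
        (hle _)).congr' ?_
      filter_upwards [self_mem_nhdsWithin] with t ht
      rw [hR t ht.1, add_comm (conj (grad V t₀)⁻¹ / _)]
      rfl)
  refine ⟨l₀ / C, l₁ / C, fun t ht a0 a1 => ?_⟩
  have h6 := hl t ht (by rintro (h | h); exacts [a0 h, a1 h])
  have h7 := hne t (hup ht)
  rw [hR t ht] at h6
  unfold Q at h6
  unfold GK
  push_cast
  generalize (grad V t₀)⁻¹ / (2 * (t - t₀)) = w₀ at h6 ⊢
  generalize conj (grad V t₀)⁻¹ / (2 * (t - conj t₀)) = w₁ at h6 ⊢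
  generalize grad (fun s => (G s + G (conj s)) / 2) t = g at h6 ⊢
  field_simp at h6 ⊢
  linear_combination h6

end Pool.Agent.P.MP_3bd355_an
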