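import Pool.Agent.P.MP_3bd355_an.T.St

/-! The conformal map with all boundary information. -/

open Set Filter Metric Complex InnerProductSpace
open scoped Topology ComplexConjugate Real

namespace Pool.Agent.P.MP_3bd355_an

theorem t_map (h1 : T_LEV) (h2 : T_NZ) (h3 : T_BDAT) (h4 : T_RNG) (h5 : T_ASM) (h6 : T_BIG)
    (h7 : T_NC) (h8 : T_BIJ) : T_MAP := by
  intro r A B z₁ L v ω φ F h s0 s1 y Fb T
  have hL := T.cont
  have hO := hL.isOpen_main
  have hv := T.fr.cfg.sol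
  have nc : ∃ z ∈ main r L, ∃ w ∈ main r L, v z ≠ v w := by
    obtain ⟨z, hz, hz0⟩ := hv.not_const hL T.B0
    have h1' : ‖(1 : ℂ)‖ = 1 := norm_one
    have := mem_closure_iff_nhdsWithin_neBot.1 (hL.outer_closure T.L1 h1')
    have ht := hv.atA 1 h1' fun hp => (T.L1 _ hp).ne h1'
    obtain ⟨w, hw0, hw⟩ := ((ht.eventually (gt_mem_nhds T.A0)).and self_mem_nhdsWithin).exists
    exact ⟨z, hz, w, hw, (hw0.trans hz0).ne'⟩
  have nz := h2 _ v hO (preconn_main r L) hv.harm nc (h1 r A B z₁ L v ω φ F h s0 s1 y Fb T)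
  have diff : DifferentiableOn ℂ (ff v ω) (main r L) := fun z hz =>
    ((grad_analytic (T.om.harm z hz)).neg.div (grad_analytic (hv.harm z hz))
      (nz z hz)).differentiableAt.differentiableWithinAt
  have bd := h3 r A B z₁ L v ω φ F h s0 s1 y Fb T
  obtain ⟨e, R⟩ := h4 r A B z₁ L v ω φ F h s0 s1 y Fb _ T diff bd
  obtain ⟨acc, cl, clg⟩ := h5 r A B z₁ L v ω φ F h s0 s1 y Fb _ e T R
  have big := h6 r A B z₁ L v ω φ F h s0 s1 y Fb _ e T diff.continuousOn R
  have ncf := (h7 _ (ff v ω) F F y y hO (preconn_main r L) diff (T.chF y) (T.chF y) bd.tip).2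
  obtain ⟨bij, dne⟩ := h8 _ _ e v A B hO (bdd_main r L) diff ncf R.od (cl A B v hv) acc big
  exact ⟨e, R.od, R.nt, nz, diff, bij, dne, cl A B v hv, cl 1 0 ω T.om, clg⟩

end Pool.Agent.P.MP_3bd355_an
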