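import Pool.Agent.P.MP_3bd355_an.T.St

/-! The size of the square root. -/

open Set Filter Metric Complex InnerProductSpace
open scoped Topology ComplexConjugate Real

namespace Pool.Agent.P.MP_3bd355_an

namespace TRt2P

theorem norm_Rt (e : Fin 5 → ℝ) (t : ℂ) : ‖Rt e t‖ = ∏ i, √‖t - e i‖ := by
  rw [Rt, norm_prod]
  refine Finset.prod_congr rfl fun i _ => ?_
  rw [show (1 / 2 : ℂ) = ((1 / 2 : ℝ) : ℂ) by simp, norm_cpow_real, Real.sqrt_eq_rpow]

theorem pow5 {s : ℝ} (hs : 0 ≤ s) : √s ^ 5 = s ^ 2 * √s := by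
  rw [show √s ^ 5 = (√s ^ 2) ^ 2 * √s by ring, Real.sq_sqrt hs]

theorem zero (e : Fin 5 → ℝ) (i : Fin 5) : Tendsto (Rt e) (𝓝[upH] (e i : ℂ)) (𝓝 0) := by
  rw [tendsto_zero_iff_norm_tendsto_zero]
  simp only [norm_Rt]
  have h : Continuous fun t : ℂ => ∏ i, √‖t - e i‖ := by fun_prop
  exact (h.tendsto' _ _ (Finset.prod_eq_zero (Finset.mem_univ i) (by simp))).mono_left
    nhdsWithin_le_nhds

theorem big (e : Fin 5 → ℝ) : ∀ᶠ t in cocompact ℂ, ‖Rt e t‖ ≤ 32 * (‖t‖ ^ 2 * √‖t‖) := by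
  have h : ∀ᶠ t in cocompact ℂ, ∀ i, ‖(e i : ℂ)‖ ≤ ‖t‖ :=
    eventually_all.2 fun i => (tendsto_norm_cocompact_atTop (E := ℂ)).eventually_ge_atTop _
  filter_upwards [h] with t ht
  rw [norm_Rt, ← pow5 (norm_nonneg t), show 32 * √‖t‖ ^ 5 = ∏ _i : Fin 5, 2 * √‖t‖ by
    simp; ring]
  refine Finset.prod_le_prod (fun _ _ => Real.sqrt_nonneg _) fun i _ => ?_
  rw [Real.sqrt_le_left (by positivity), mul_pow, Real.sq_sqrt (norm_nonneg t)]
  have := norm_sub_le t (e i)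
  linarith [ht i, norm_nonneg t]

theorem low {w : ℂ} {m y : ℝ} (hw : 0 ≤ w.im) (hm : 0 ≤ m) (h : m ≤ ‖w‖) (hy : 0 ≤ y) :
    √(m ^ 2 + y ^ 2) ≤ ‖w + y * I‖ := by
  have h1 := pow_le_pow_left₀ hm h 2
  rw [Real.sqrt_le_left (norm_nonneg _)]
  rw [Complex.sq_norm, normSq_apply] at h1 ⊢
  simp only [add_re, mul_re, ofReal_re, I_re, mul_zero, ofReal_im, I_im, mul_one, sub_self,
    add_zero, add_im, mul_im]
  nlinarith [mul_nonneg hw hy]

theorem int (e : Fin 5 → ℝ) (t : ℂ) (ht : 0 ≤ t.im) (h : ∀ i, t ≠ e i) :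
    MeasureTheory.IntegrableOn (fun y : ℝ => (1 / Rt e (t + y * I)).im) (Ioi 0) := by
  obtain ⟨m, ⟨m0, m1⟩, hm⟩ : ∃ m : ℝ, m ∈ Ioo (0 : ℝ) 1 ∧ ∀ i, m < ‖t - e i‖ :=
    ((show ∀ᶠ m in 𝓝[>] (0 : ℝ), m ∈ Ioo (0 : ℝ) 1 from Ioo_mem_nhdsGT one_pos).and
      (eventually_all.2 fun i => nhdsWithin_le_nhds
        (gt_mem_nhds (norm_pos_iff.2 (sub_ne_zero.2 (h i)))))).exists
  refine MeasureTheory.Integrable.mono'
    (integrable_inv_one_add_sq.const_mul (m ^ 2 * √m)⁻¹).integrableOn ?_ ?_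
  · refine Measurable.aestronglyMeasurable ?_
    unfold Rt
    fun_prop
  · refine (MeasureTheory.ae_restrict_iff' measurableSet_Ioi).2 (Eventually.of_forall fun y hy => ?_)
    have s0 : 0 ≤ m ^ 2 + y ^ 2 := by positivity
    have k : m ^ 2 * √m * (1 + y ^ 2) ≤ ‖Rt e (t + y * I)‖ := by
      calc m ^ 2 * √m * (1 + y ^ 2) = (m ^ 2 + m ^ 2 * y ^ 2) * √m := by ring
        _ ≤ (m ^ 2 + y ^ 2) * √√(m ^ 2 + y ^ 2) := by
          have : m ^ 2 ≤ 1 := pow_le_one₀ m0.le m1.le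
          gcongr
          · exact mul_le_of_le_one_left (sq_nonneg y) this
          · exact Real.le_sqrt_of_sq_le (by nlinarith)
        _ = ∏ _i : Fin 5, √√(m ^ 2 + y ^ 2) := by
          rw [Finset.prod_const, Finset.card_univ, Fintype.card_fin, pow5 (Real.sqrt_nonneg _),
            Real.sq_sqrt s0]
        _ ≤ _ := by
          rw [norm_Rt]
          refine Finset.prod_le_prod (fun _ _ => Real.sqrt_nonneg _) fun i _ =>
            Real.sqrt_le_sqrt ?_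
          rw [show t + y * I - e i = t - e i + y * I by ring]
          exact low (by simpa using ht) m0.le (hm i).le (le_of_lt hy)
    rw [← mul_inv]
    refine (abs_im_le_norm _).trans ?_
    rw [norm_div, norm_one, one_div]
    exact inv_anti₀ (by positivity) k

end TRt2P

theorem t_rt2 : T_RT2 := fun e => ⟨TRt2P.zero e, ⟨32, TRt2P.big e⟩, TRt2P.int e⟩

end Pool.Agent.P.MP_3bd355_an
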